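import Pool.Agent.Lib.SRHT.Full.Basic

/-!
# S3: algebra of two projections (helper57)

For a projection `Q = b + E` and `Δ = P_S - α` the diagonal entries of `Q (Δ Q)^a` are controlled by
the diagonal entries of the alternating words `E (Δ E)^j`.
-/

open Finset Matrix
open scoped BigOperators

set_option linter.unusedSectionVars false

namespace SRHT

section alg

variable {ι : Type*} [Fintype ι] [DecidableEq ι]

/-- `Rep E α b ξ u J v c` : `v` is a combination of `e_u`, `W_j e_u`, `Δ W_j e_u` (`j ≤ J`) of weight at most `c`. -/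
inductive Rep (E : Matrix ι ι ℝ) (α b : ℝ) (ξ : ι → Bool) (u : ι) : ℕ → (ι → ℝ) → ℝ → Prop
  | zero (J : ℕ) : Rep E α b ξ u J 0 0
  | add {J : ℕ} {v w : ι → ℝ} {c d : ℝ} : Rep E α b ξ u J v c → Rep E α b ξ u J w d →
      Rep E α b ξ u J (v + w) (c + d)
  | smul {J : ℕ} (a : ℝ) {v : ι → ℝ} {c : ℝ} : Rep E α b ξ u J v c → Rep E α b ξ u J (a • v) (|a| * c)
  | base (J : ℕ) : Rep E α b ξ u J (Pi.single u 1) (1 / Real.sqrt b)
  | wd {J : ℕ} (j : ℕ) (hj : j ≤ J) : Rep E α b ξ u J (word E α ξ j *ᵥ Pi.single u 1)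
      (Real.sqrt b * Real.sqrt (α * b) ^ j)
  | dwd {J : ℕ} (j : ℕ) (hj : j ≤ J) : Rep E α b ξ u J (Dm α ξ *ᵥ (word E α ξ j *ᵥ Pi.single u 1))
      (Real.sqrt α * Real.sqrt (α * b) ^ j)
  | mono {J J' : ℕ} {v : ι → ℝ} {c d : ℝ} : J ≤ J' → c ≤ d → Rep E α b ξ u J v c → Rep E α b ξ u J' v d

lemma dl_abs_le (α : ℝ) (h0 : 0 ≤ α) (h1 : α ≤ 1) (ξ : ι → Bool) (u : ι) : |dl α ξ u| ≤ 1 := by
  unfold dl
  split_ifs
  · rw [abs_of_nonneg (by linarith)]; linarith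
  · rw [zero_sub, abs_neg, abs_of_nonneg h0]; exact h1

lemma dl_sq (α : ℝ) (ξ : ι → Bool) (u : ι) : dl α ξ u * dl α ξ u = (1 - 2 * α) * dl α ξ u + α * (1 - α) := by
  unfold dl
  split_ifs <;> ring

lemma Dm_mulVec (α : ℝ) (ξ : ι → Bool) (v : ι → ℝ) (i : ι) : (Dm α ξ *ᵥ v) i = dl α ξ i * v i := by
  unfold Dm
  rw [Matrix.mulVec_diagonal]

lemma Dm_sq_mulVec (α : ℝ) (ξ : ι → Bool) (v : ι → ℝ) :
    Dm α ξ *ᵥ (Dm α ξ *ᵥ v) = (1 - 2 * α) • (Dm α ξ *ᵥ v) + (α * (1 - α)) • v := by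
  funext i
  rw [Pi.add_apply, Pi.smul_apply, Pi.smul_apply, Dm_mulVec, Dm_mulVec, smul_eq_mul, smul_eq_mul,
    ← mul_assoc, dl_sq]
  ring

lemma Dm_single (α : ℝ) (ξ : ι → Bool) (u : ι) :
    Dm α ξ *ᵥ (Pi.single u 1) = dl α ξ u • (Pi.single u (1 : ℝ) : ι → ℝ) := by
  funext i
  rw [Dm_mulVec, Pi.smul_apply, smul_eq_mul]
  by_cases h : i = u
  · rw [h]
  · rw [Pi.single_eq_of_ne h]; simp

lemma word_zero (E : Matrix ι ι ℝ) (α : ℝ) (ξ : ι → Bool) : word E α ξ 0 = E := by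
  unfold word; rw [pow_zero, Matrix.mul_one]

lemma word_succ (E : Matrix ι ι ℝ) (α : ℝ) (ξ : ι → Bool) (j : ℕ) (v : ι → ℝ) :
    word E α ξ (j + 1) *ᵥ v = E *ᵥ (Dm α ξ *ᵥ (word E α ξ j *ᵥ v)) := by
  unfold word
  rw [Matrix.mulVec_mulVec, Matrix.mulVec_mulVec, pow_succ']
  simp only [Matrix.mul_assoc]

lemma word_eq_mulVec (E : Matrix ι ι ℝ) (α : ℝ) (ξ : ι → Bool) (j : ℕ) (u : ι) (i : ι) :
    (word E α ξ j *ᵥ Pi.single u 1) i = word E α ξ j i u := by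
  rw [Matrix.mulVec_single_one]; rfl

lemma Q_mulVec (Q : Matrix ι ι ℝ) (b : ℝ) (v : ι → ℝ) :
    Q *ᵥ v = b • v + (Q - b • (1 : Matrix ι ι ℝ)) *ᵥ v := by
  rw [Matrix.sub_mulVec, Matrix.smul_mulVec, Matrix.one_mulVec]
  abel

lemma QE_mulVec (Q : Matrix ι ι ℝ) (hQ : Q * Q = Q) (b : ℝ) (v : ι → ℝ) :
    Q *ᵥ ((Q - b • (1 : Matrix ι ι ℝ)) *ᵥ v) = (1 - b) • (Q *ᵥ v) := by
  rw [Matrix.sub_mulVec, Matrix.mulVec_sub, Matrix.mulVec_mulVec, hQ, Matrix.smul_mulVec, Matrix.one_mulVec,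
    Matrix.mulVec_smul, sub_smul, one_smul]

variable (Q : Matrix ι ι ℝ) {b α : ℝ}

lemma rep_step (hQ : Q * Q = Q) (hb : 0 < b) (hbα : b ≤ α) (hα : α ≤ 1) (ξ : ι → Bool) (u : ι) {J : ℕ}
    {v : ι → ℝ} {c : ℝ} (h : Rep (Q - b • (1 : Matrix ι ι ℝ)) α b ξ u J v c) :
    Rep (Q - b • (1 : Matrix ι ι ℝ)) α b ξ u (J + 1) (Q *ᵥ (Dm α ξ *ᵥ v)) (4 * Real.sqrt (α * b) * c) := by
  have hα0 : 0 < α := lt_of_lt_of_le hb hbα
  have hb1 : b ≤ 1 := hbα.trans hα
  set E := Q - b • (1 : Matrix ι ι ℝ) with hE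
  set sb := Real.sqrt b with hsb
  set sa := Real.sqrt α with hsa
  have hσ : Real.sqrt (α * b) = sa * sb := Real.sqrt_mul hα0.le b
  have hsb0 : 0 < sb := Real.sqrt_pos.mpr hb
  have hsa0 : 0 < sa := Real.sqrt_pos.mpr hα0
  have hsb2 : sb * sb = b := Real.mul_self_sqrt hb.le
  have hsa2 : sa * sa = α := Real.mul_self_sqrt hα0.le
  have hsle : sb ≤ sa := Real.sqrt_le_sqrt hbα
  rw [hσ]
  -- `T (Dm v)`-type step without the square
  have hQW : ∀ j J', j ≤ J' → Rep E α b ξ u (J' + 1) (Q *ᵥ (Dm α ξ *ᵥ (word E α ξ j *ᵥ Pi.single u 1)))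
      (2 * sb * (sa * sb) ^ (j + 1)) := by
    intro j J' hj
    rw [Q_mulVec Q b, ← hE, ← word_succ]
    have h1 : Rep E α b ξ u (J' + 1) (b • (Dm α ξ *ᵥ (word E α ξ j *ᵥ Pi.single u 1)))
        (|b| * (Real.sqrt α * Real.sqrt (α * b) ^ j)) := Rep.smul b (Rep.dwd j (by omega))
    have h2 : Rep E α b ξ u (J' + 1) (word E α ξ (j + 1) *ᵥ Pi.single u 1)
      (Real.sqrt b * Real.sqrt (α * b) ^ (j + 1)) := Rep.wd (j + 1) (by omega)
    refine Rep.mono le_rfl (le_of_eq ?_) (Rep.add h1 h2)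
    rw [abs_of_pos hb, hσ, ← hsa, ← hsb]
    nth_rewrite 1 [← hsb2]
    ring
  induction h with
  | zero J =>
    rw [Matrix.mulVec_zero, Matrix.mulVec_zero, mul_zero]
    exact Rep.zero _
  | add h1 h2 ih1 ih2 =>
    rw [Matrix.mulVec_add, Matrix.mulVec_add, mul_add]
    exact Rep.add ih1 ih2
  | smul a h1 ih1 =>
    rw [Matrix.mulVec_smul, Matrix.mulVec_smul]
    refine Rep.mono le_rfl (le_of_eq ?_) (Rep.smul a ih1)
    ring
  | base J =>
    rw [Dm_single, Matrix.mulVec_smul, Q_mulVec Q b, ← hE]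
    have h1 : Rep E α b ξ u (J + 1) (b • (Pi.single u 1)) (|b| * (1 / Real.sqrt b)) := Rep.smul b (Rep.base _)
    have h2 : Rep E α b ξ u (J + 1) (word E α ξ 0 *ᵥ Pi.single u 1) (Real.sqrt b * Real.sqrt (α * b) ^ 0) :=
      Rep.wd 0 (Nat.zero_le _)
    rw [word_zero] at h2
    refine Rep.mono le_rfl ?_ (Rep.smul (dl α ξ u) (Rep.add h1 h2))
    rw [abs_of_pos hb, pow_zero, mul_one, ← hsb]
    have h3 : b * (1 / sb) = sb := by rw [← hsb2]; field_simp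
    have h4 : 4 * (sa * sb) * (1 / sb) = 4 * sa := by field_simp
    rw [h3, h4]
    have h5 := dl_abs_le α hα0.le hα ξ u
    have h6 : 0 ≤ |dl α ξ u| := abs_nonneg _
    nlinarith
  | wd j hj =>
    refine Rep.mono le_rfl ?_ (hQW j _ hj)
    rw [hσ, ← hsb, pow_succ]
    have h1 : 0 ≤ (sa * sb) ^ j := by positivity
    have h2 : 0 ≤ sa * sb * sb * (sa * sb) ^ j := by positivity
    nlinarith
  | @dwd J j hj =>
    rw [Dm_sq_mulVec, Matrix.mulVec_add, Matrix.mulVec_smul, Matrix.mulVec_smul]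
    have h1 := Rep.smul (1 - 2 * α) (hQW j J hj)
    -- Q W_j
    have h2 : Rep E α b ξ u (J + 1) (Q *ᵥ (word E α ξ j *ᵥ Pi.single u 1)) (2 * sb * (sa * sb) ^ j) := by
      have h1b : |1 - b| ≤ 1 := by rw [abs_of_nonneg (by linarith)]; linarith
      rcases j with _ | j
      · rw [word_zero, hE, QE_mulVec Q hQ, Q_mulVec Q b, ← hE]
        have h3 : Rep E α b ξ u (J + 1) (b • (Pi.single u 1)) (|b| * (1 / Real.sqrt b)) := Rep.smul b (Rep.base _)
        have h4 : Rep E α b ξ u (J + 1) (word E α ξ 0 *ᵥ Pi.single u 1) (Real.sqrt b * Real.sqrt (α * b) ^ 0) :=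
          Rep.wd 0 (Nat.zero_le _)
        rw [word_zero] at h4
        refine Rep.mono le_rfl ?_ (Rep.smul (1 - b) (Rep.add h3 h4))
        rw [abs_of_pos hb, pow_zero, mul_one, pow_zero, mul_one, ← hsb]
        have h3 : b * (1 / sb) = sb := by rw [← hsb2]; field_simp
        rw [h3]
        nlinarith [abs_nonneg (1 - b)]
      · rw [word_succ, hE, QE_mulVec Q hQ, ← hE]
        refine Rep.mono (by omega : (J - 1) + 1 ≤ J + 1) ?_ (Rep.smul (1 - b) (hQW j (J - 1) (by omega)))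
        have h5 : 0 ≤ 2 * sb * (sa * sb) ^ (j + 1) := by positivity
        nlinarith
    have h3 := Rep.smul (α * (1 - α)) h2
    refine Rep.mono le_rfl ?_ (Rep.add h1 h3)
    rw [hσ, ← hsa, abs_of_nonneg (by nlinarith : 0 ≤ α * (1 - α))]
    have h4 : |1 - 2 * α| ≤ 1 := by rw [abs_le]; constructor <;> linarith
    set P := (sa * sb) ^ j with hP
    have hP0 : 0 ≤ P := by positivity
    have h5 : (sa * sb) ^ (j + 1) = sa * sb * P := by rw [pow_succ]; ring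
    rw [h5]
    have h6 : |1 - 2 * α| * (2 * sb * (sa * sb * P)) ≤ 2 * sb * (sa * sb * P) := by
      have : 0 ≤ 2 * sb * (sa * sb * P) := by positivity
      nlinarith
    have h7 : α * (1 - α) * (2 * sb * P) ≤ α * (2 * sb * P) := by
      have h8 : 0 ≤ α * α * (2 * sb * P) := by positivity
      nlinarith
    have h9 : 2 * sb * (sa * sb * P) ≤ 2 * sa * (sa * sb * P) := by
      have : 0 ≤ sa * sb * P := by positivity
      nlinarith
    have h10 : α * (2 * sb * P) = 2 * sa * (sa * sb * P) := by rw [← hsa2]; ring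
    calc _ ≤ 2 * sa * (sa * sb * P) + 2 * sa * (sa * sb * P) := by linarith
      _ = 4 * (sa * sb) * (sa * P) := by ring
  | mono hJ hcd h1 ih =>
    refine Rep.mono (by omega) ?_ ih
    apply mul_le_mul_of_nonneg_left hcd (by positivity)

lemma rep_eval (hb : 0 < b) (hbα : b ≤ α) (hα : α ≤ 1) (E : Matrix ι ι ℝ) (ξ : ι → Bool) (u : ι) {J : ℕ}
    {v : ι → ℝ} {c : ℝ} (h : Rep E α b ξ u J v c)
    (hgood : ∀ j ≤ J, |word E α ξ j u u| ≤ b / 2 * Real.sqrt (α * b) ^ j) :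
    |v u| ≤ Real.sqrt b * c := by
  have hα0 : 0 < α := lt_of_lt_of_le hb hbα
  have hsb0 : 0 < Real.sqrt b := Real.sqrt_pos.mpr hb
  have hsb2 : Real.sqrt b * Real.sqrt b = b := Real.mul_self_sqrt hb.le
  have hsle : Real.sqrt b ≤ Real.sqrt α := Real.sqrt_le_sqrt hbα
  induction h with
  | zero J => simp
  | add h1 h2 ih1 ih2 =>
    rw [Pi.add_apply, mul_add]
    exact (abs_add_le _ _).trans (add_le_add (ih1 hgood) (ih2 hgood))
  | smul a h1 ih1 =>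
    rw [Pi.smul_apply, smul_eq_mul, abs_mul]
    have := mul_le_mul_of_nonneg_left (ih1 hgood) (abs_nonneg a)
    linarith
  | base J =>
    rw [Pi.single_eq_same, abs_one]
    apply le_of_eq
    field_simp
  | wd j hj =>
    rw [word_eq_mulVec]
    refine (hgood j hj).trans ?_
    have h1 : 0 ≤ Real.sqrt (α * b) ^ j := by positivity
    have h2 : Real.sqrt b * (Real.sqrt b * Real.sqrt (α * b) ^ j) = b * Real.sqrt (α * b) ^ j := by
      rw [← mul_assoc, hsb2]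
    rw [h2]
    nlinarith
  | dwd j hj =>
    rw [Dm_mulVec, word_eq_mulVec, abs_mul]
    have h0 := dl_abs_le α hα0.le hα ξ u
    have h1 : 0 ≤ Real.sqrt (α * b) ^ j := by positivity
    have h2 := hgood j hj
    have h3 : |dl α ξ u| * |word E α ξ j u u| ≤ 1 * (b / 2 * Real.sqrt (α * b) ^ j) :=
      mul_le_mul h0 h2 (abs_nonneg _) (by norm_num)
    refine h3.trans ?_
    have h4 : b ≤ Real.sqrt b * Real.sqrt α := by
      nth_rewrite 1 [← hsb2]
      exact mul_le_mul_of_nonneg_left hsle hsb0.le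
    calc 1 * (b / 2 * Real.sqrt (α * b) ^ j) ≤ b * Real.sqrt (α * b) ^ j := by nlinarith
      _ ≤ (Real.sqrt b * Real.sqrt α) * Real.sqrt (α * b) ^ j := mul_le_mul_of_nonneg_right h4 h1
      _ = _ := by ring
  | mono hJ hcd h1 ih =>
    refine (ih fun j hj => hgood j (by omega)).trans ?_
    exact mul_le_mul_of_nonneg_left hcd hsb0.le

theorem low_powers (hQ : Q * Q = Q) (hb : 0 < b) (hbα : b ≤ α)
    (hα : α ≤ 1) (ξ : ι → Bool) (J : ℕ)
    (hgood : ∀ u, ∀ j ≤ J, |word (Q - b • (1 : Matrix ι ι ℝ)) α ξ j u u| ≤ b / 2 * Real.sqrt (α * b) ^ j) :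
    ∀ u, ∀ a ≤ J, |Gm Q α ξ a u u| ≤ 4 * b * (4 * Real.sqrt (α * b)) ^ a := by
  intro u a ha
  have hα0 : 0 < α := lt_of_lt_of_le hb hbα
  have hsb0 : 0 < Real.sqrt b := Real.sqrt_pos.mpr hb
  have hsb2 : Real.sqrt b * Real.sqrt b = b := Real.mul_self_sqrt hb.le
  set E := Q - b • (1 : Matrix ι ι ℝ) with hE
  -- the vectors
  have key : ∀ a, Rep E α b ξ u a ((Q * (Dm α ξ * Q) ^ a) *ᵥ Pi.single u 1)
      ((4 * Real.sqrt (α * b)) ^ a * (2 * Real.sqrt b)) := by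
    intro a
    induction a with
    | zero =>
      rw [pow_zero, Matrix.mul_one, Q_mulVec Q b, ← hE, pow_zero, one_mul]
      have h3 : Rep E α b ξ u 0 (b • (Pi.single u 1)) (|b| * (1 / Real.sqrt b)) := Rep.smul b (Rep.base _)
      have h4 : Rep E α b ξ u 0 (word E α ξ 0 *ᵥ Pi.single u 1) (Real.sqrt b * Real.sqrt (α * b) ^ 0) :=
        Rep.wd 0 (Nat.zero_le _)
      rw [word_zero] at h4
      refine Rep.mono le_rfl (le_of_eq ?_) (Rep.add h3 h4)
      rw [abs_of_pos hb, pow_zero, mul_one]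
      have h3 : b * (1 / Real.sqrt b) = Real.sqrt b := by
        nth_rewrite 1 [← hsb2]; field_simp
      rw [h3]; ring
    | succ a ih =>
      have h1 := rep_step Q hQ hb hbα hα ξ u ih
      have h2 : (Q * (Dm α ξ * Q) ^ (a + 1)) *ᵥ Pi.single u 1
          = Q *ᵥ (Dm α ξ *ᵥ ((Q * (Dm α ξ * Q) ^ a) *ᵥ Pi.single u 1)) := by
        rw [Matrix.mulVec_mulVec, Matrix.mulVec_mulVec, pow_succ']
        simp only [Matrix.mul_assoc]
      rw [h2]
      refine Rep.mono le_rfl (le_of_eq ?_) h1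
      rw [pow_succ]; ring
  have h1 := rep_eval hb hbα hα E ξ u (key a) (fun j hj => hgood u j (by omega))
  have h2 : ((Q * (Dm α ξ * Q) ^ a) *ᵥ Pi.single u 1) u = Gm Q α ξ a u u := by
    rw [Matrix.mulVec_single_one]; rfl
  rw [h2] at h1
  refine h1.trans ?_
  have h3 : 0 ≤ (4 * Real.sqrt (α * b)) ^ a := by positivity
  calc Real.sqrt b * ((4 * Real.sqrt (α * b)) ^ a * (2 * Real.sqrt b))
      = 2 * (Real.sqrt b * Real.sqrt b) * (4 * Real.sqrt (α * b)) ^ a := by ring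
    _ = 2 * b * (4 * Real.sqrt (α * b)) ^ a := by rw [hsb2]
    _ ≤ 4 * b * (4 * Real.sqrt (α * b)) ^ a := by
        have : 0 ≤ b * (4 * Real.sqrt (α * b)) ^ a := by positivity
        nlinarith

end alg

end SRHT
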