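import Pool.Agent.Lib.SRHT.Full.Basic

/-!
# S7, numerical part: the bad event is negligible (helper57)
-/

open Finset Matrix
open scoped BigOperators

set_option linter.unusedSectionVars false

namespace SRHT

section bad

variable {ι : Type*} [Fintype ι] [DecidableEq ι]

lemma bw_nonneg' {α : ℝ} (h0 : 0 ≤ α) (h1 : α ≤ 1) (ξ : ι → Bool) : 0 ≤ bw α ξ := by
  unfold bw
  apply Finset.prod_nonneg
  intro i _
  split_ifs <;> linarith

lemma BE_mono' {α : ℝ} (h0 : 0 ≤ α) (h1 : α ≤ 1) {f g : (ι → Bool) → ℝ} (h : ∀ ξ, f ξ ≤ g ξ) :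
    BE α f ≤ BE α g :=
  Finset.sum_le_sum fun ξ _ => mul_le_mul_of_nonneg_left (h ξ) (bw_nonneg' h0 h1 ξ)

lemma BE_nonneg' {α : ℝ} (h0 : 0 ≤ α) (h1 : α ≤ 1) {f : (ι → Bool) → ℝ} (h : ∀ ξ, 0 ≤ f ξ) :
    0 ≤ BE α f :=
  Finset.sum_nonneg fun ξ _ => mul_nonneg (bw_nonneg' h0 h1 ξ) (h ξ)

lemma BE_sum' (α : ℝ) {κ : Type*} (s : Finset κ) (f : κ → (ι → Bool) → ℝ) :
    BE α (fun ξ => ∑ x ∈ s, f x ξ) = ∑ x ∈ s, BE α (f x) := by
  unfold BE
  rw [Finset.sum_comm]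
  refine Finset.sum_congr rfl fun ξ _ => ?_
  rw [Finset.mul_sum]

lemma BE_div' (α c : ℝ) (f : (ι → Bool) → ℝ) : BE α (fun ξ => f ξ / c) = BE α f / c := by
  unfold BE
  rw [Finset.sum_div]
  refine Finset.sum_congr rfl fun ξ _ => ?_
  ring

/-- Markov's inequality and a union bound for the words. -/
lemma bad_markov {α b θ : ℝ} (hα0 : 0 < α) (hα1 : α ≤ 1) (hb : 0 < b) (E : Matrix ι ι ℝ) (J q : ℕ)
    (bad : (ι → Bool) → Prop) [DecidablePred bad]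
    (hbad : ∀ ξ, bad ξ → ∃ u, ∃ j ≤ J, b / 2 * Real.sqrt (α * b) ^ j < |word E α ξ j u u|)
    (hW : ∀ j u, BE α (fun ξ => (word E α ξ j u u) ^ (2 * q)) ≤
      20 * ((2 * q * j).factorial : ℝ) * (α * Fintype.card ι) ^ (q * j) * θ ^ (2 * q * (j + 1))) :
    BE α (fun ξ => if bad ξ then 1 else 0) ≤ (Fintype.card ι : ℝ) * ∑ j ∈ Finset.range (J + 1),
      20 * ((2 * q * j).factorial : ℝ) *
        (((α * Fintype.card ι) ^ j * (θ ^ 2) ^ (j + 1)) / (b ^ 2 / 4 * (α * b) ^ j)) ^ q := by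
  have hσ : Real.sqrt (α * b) ^ 2 = α * b := Real.sq_sqrt (by positivity)
  have hσ0 : 0 < Real.sqrt (α * b) := Real.sqrt_pos.mpr (by positivity)
  have h1 : BE α (fun ξ => if bad ξ then (1:ℝ) else 0) ≤
      BE α (fun ξ => ∑ u, ∑ j ∈ Finset.range (J + 1),
        (word E α ξ j u u) ^ (2 * q) / (b / 2 * Real.sqrt (α * b) ^ j) ^ (2 * q)) := by
    apply BE_mono' hα0.le hα1
    intro ξ
    have hpos : ∀ u j, 0 ≤ (word E α ξ j u u) ^ (2 * q) / (b / 2 * Real.sqrt (α * b) ^ j) ^ (2 * q) := by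
      intro u j
      rw [pow_mul (word E α ξ j u u)]
      positivity
    by_cases h : bad ξ
    · rw [if_pos h]
      obtain ⟨u, j, hj, hlt⟩ := hbad ξ h
      have h2 : 1 ≤ (word E α ξ j u u) ^ (2 * q) / (b / 2 * Real.sqrt (α * b) ^ j) ^ (2 * q) := by
        rw [le_div_iff₀ (by positivity), one_mul, ← Even.pow_abs (even_two_mul q) (word E α ξ j u u)]
        exact pow_le_pow_left₀ (by positivity) hlt.le _
      refine h2.trans ?_
      refine le_trans ?_ (Finset.single_le_sum (f := fun u => ∑ j ∈ Finset.range (J + 1),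
        (word E α ξ j u u) ^ (2 * q) / (b / 2 * Real.sqrt (α * b) ^ j) ^ (2 * q))
        (fun u _ => Finset.sum_nonneg fun j _ => hpos u j) (Finset.mem_univ u))
      exact Finset.single_le_sum (f := fun j => (word E α ξ j u u) ^ (2 * q) / (b / 2 * Real.sqrt (α * b) ^ j) ^ (2 * q))
        (fun j _ => hpos u j) (Finset.mem_range.mpr (by omega))
    · rw [if_neg h]
      exact Finset.sum_nonneg fun u _ => Finset.sum_nonneg fun j _ => hpos u j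
  refine h1.trans ?_
  rw [BE_sum']
  have h2 : ∀ u ∈ (Finset.univ : Finset ι), BE α (fun ξ => ∑ j ∈ Finset.range (J + 1),
      (word E α ξ j u u) ^ (2 * q) / (b / 2 * Real.sqrt (α * b) ^ j) ^ (2 * q)) ≤
      ∑ j ∈ Finset.range (J + 1), 20 * ((2 * q * j).factorial : ℝ) *
        (((α * Fintype.card ι) ^ j * (θ ^ 2) ^ (j + 1)) / (b ^ 2 / 4 * (α * b) ^ j)) ^ q := by
    intro u _
    rw [BE_sum']
    refine Finset.sum_le_sum fun j _ => ?_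
    rw [BE_div', div_le_iff₀ (by positivity)]
    refine (hW j u).trans (le_of_eq ?_)
    have h3 : (b / 2 * Real.sqrt (α * b) ^ j) ^ (2 * q) = (b ^ 2 / 4 * (α * b) ^ j) ^ q := by
      rw [pow_mul, mul_pow, ← pow_mul, mul_comm j 2, pow_mul (Real.sqrt (α * b)), hσ]
      congr 2
      ring
    rw [h3, div_pow]
    have h4 : (b ^ 2 / 4 * (α * b) ^ j) ^ q ≠ 0 := by positivity
    have h5 : (α * (Fintype.card ι : ℝ)) ^ (q * j) * θ ^ (2 * q * (j + 1))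
        = ((α * (Fintype.card ι : ℝ)) ^ j * (θ ^ 2) ^ (j + 1)) ^ q := by
      generalize α * (Fintype.card ι : ℝ) = X
      rw [mul_pow, ← pow_mul, ← pow_mul, ← pow_mul]
      congr 1
      · congr 1; ring
      · congr 1; ring
    rw [mul_assoc, h5]
    field_simp
  refine (Finset.sum_le_sum h2).trans (le_of_eq ?_)
  rw [Finset.sum_const, Finset.card_univ, nsmul_eq_mul]

/-- each term is small. -/
lemma term_bound {l r k J j lam : ℕ} (hlam : 20 ≤ lam) (hl1 : 2 ^ lam ≤ l) (hl2 : l < 2 ^ (lam + 1))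
    (hJ : J = 2 * lam + 6) (hj : j ≤ J) (hr : 2 ^ l < r ^ 10) (hk : 0 < k) :
    20 * ((2 * (100 * l) * j).factorial : ℝ) *
        ((((k:ℝ) / 2 ^ l * 2 ^ l) ^ j * ((2 * (l:ℝ) ^ 2 * Real.sqrt r / 2 ^ l) ^ 2) ^ (j + 1)) /
          (((r:ℝ) / 2 ^ l) ^ 2 / 4 * ((k:ℝ) / 2 ^ l * ((r:ℝ) / 2 ^ l)) ^ j)) ^ (100 * l) * 2 ^ (10 * l ^ 2)
      ≤ 20 * 2 ^ ((J * (800 * lam + 800) + 400 * lam + 800) * l) := by
  have hN : (0:ℝ) < 2 ^ l := by positivity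
  have hr0 : 0 < r := by
    rcases Nat.eq_zero_or_pos r with h | h
    · rw [h] at hr; simp at hr
    · exact h
  have hr' : (0:ℝ) < r := by exact_mod_cast hr0
  have hk' : (0:ℝ) < k := by exact_mod_cast hk
  have hl0 : 0 < l := by
    have : 0 < 2 ^ lam := by positivity
    omega
  have hl' : (0:ℝ) < l := by exact_mod_cast hl0
  have hsr : Real.sqrt r ^ 2 = r := Real.sq_sqrt hr'.le
  set τ : ℝ := (l:ℝ) ^ 2 with hτ
  have hτ0 : 0 < τ := by positivity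
  -- simplification of the ratio
  have h1 : ((((k:ℝ) / 2 ^ l * 2 ^ l) ^ j * ((2 * τ * Real.sqrt r / 2 ^ l) ^ 2) ^ (j + 1)) /
          (((r:ℝ) / 2 ^ l) ^ 2 / 4 * ((k:ℝ) / 2 ^ l * ((r:ℝ) / 2 ^ l)) ^ j)) = (4 * τ ^ 2) ^ j * (16 * τ ^ 2) / r := by
    have h2 : (2 * τ * Real.sqrt r / 2 ^ l) ^ 2 = 4 * τ ^ 2 * r / (2 ^ l) ^ 2 := by
      rw [div_pow, mul_pow, mul_pow, hsr]; ring
    have h3 : ((k:ℝ) / 2 ^ l * 2 ^ l) = k := by field_simp
    rw [h2, h3, div_eq_div_iff (by positivity) (by positivity)]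
    have h4 : ((k:ℝ) / 2 ^ l * ((r:ℝ) / 2 ^ l)) = k * r / (2 ^ l) ^ 2 := by ring
    have h5 : ((k:ℝ) * r / (2 ^ l) ^ 2) ^ j = k ^ j * r ^ j / ((2 ^ l) ^ 2) ^ j := by rw [div_pow, mul_pow]
    have h6 : (4 * τ ^ 2 * r / (2 ^ l) ^ 2) ^ (j + 1) =
        (4 * τ ^ 2) ^ j * r ^ j / ((2 ^ l) ^ 2) ^ j * (4 * τ ^ 2 * r / (2 ^ l) ^ 2) := by
      rw [pow_succ, div_pow, mul_pow]
    rw [h4, h5, h6]
    generalize (2:ℝ) ^ l = N at *
    field_simp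
    ring
  rw [h1]
  -- powers of two
  have hl2' : (l:ℝ) ≤ 2 ^ (lam + 1) := by exact_mod_cast hl2.le
  have hτ1 : τ ≤ 2 ^ (2 * lam + 2) := by
    rw [hτ]
    calc (l:ℝ) ^ 2 ≤ (2 ^ (lam + 1)) ^ 2 := pow_le_pow_left₀ hl'.le hl2' 2
      _ = 2 ^ (2 * lam + 2) := by rw [← pow_mul]; congr 1; ring
  have hτ2 : τ ^ 2 ≤ 2 ^ (4 * lam + 4) := by
    calc τ ^ 2 ≤ (2 ^ (2 * lam + 2)) ^ 2 := pow_le_pow_left₀ hτ0.le hτ1 2
      _ = 2 ^ (4 * lam + 4) := by rw [← pow_mul]; congr 1; ring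
  have h4τ : 4 * τ ^ 2 ≤ 2 ^ (4 * lam + 6) := by
    calc 4 * τ ^ 2 ≤ 4 * 2 ^ (4 * lam + 4) := by linarith
      _ = 2 ^ (4 * lam + 6) := by rw [show 4 * lam + 6 = (4 * lam + 4) + 2 by ring, pow_add]; norm_num; ring
  have h16τ : 16 * τ ^ 2 ≤ 2 ^ (4 * lam + 8) := by
    calc 16 * τ ^ 2 ≤ 16 * 2 ^ (4 * lam + 4) := by linarith
      _ = 2 ^ (4 * lam + 8) := by rw [show 4 * lam + 8 = (4 * lam + 4) + 4 by ring, pow_add]; norm_num; ring
  have h4τ1 : 1 ≤ 4 * τ ^ 2 := by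
    have : (1:ℝ) ≤ l := by exact_mod_cast hl0
    have h5 : (1:ℝ) ≤ τ := by rw [hτ]; exact one_le_pow₀ this
    nlinarith
  -- factorial
  have hfac : ((2 * (100 * l) * j).factorial : ℝ) ≤ 2 ^ ((2 * lam + 1) * (200 * l * J)) := by
    have h200 : 200 * J ≤ 2 ^ lam := by
      rw [hJ]
      clear hJ hj hl1 hl2 hτ2 hτ1 h4τ h16τ hl2'
      induction lam, hlam using Nat.le_induction with
      | base => norm_num
      | succ n hn ih => rw [pow_succ]; omega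
    have h5 : 2 * (100 * l) * j ≤ 2 ^ (2 * lam + 1) := by
      calc 2 * (100 * l) * j = (200 * j) * l := by ring
        _ ≤ (200 * J) * 2 ^ (lam + 1) := Nat.mul_le_mul (Nat.mul_le_mul_left _ hj) hl2.le
        _ ≤ 2 ^ lam * 2 ^ (lam + 1) := Nat.mul_le_mul_right _ h200
        _ = 2 ^ (2 * lam + 1) := by rw [← pow_add]; congr 1; ring
    have h6 : (2 * (100 * l) * j).factorial ≤ (2 * (100 * l) * j) ^ (2 * (100 * l) * j) := Nat.factorial_le_pow _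
    have h7 : (2 * (100 * l) * j) ^ (2 * (100 * l) * j) ≤ (2 ^ (2 * lam + 1)) ^ (2 * (100 * l) * j) :=
      Nat.pow_le_pow_left h5 _
    have h8 : (2 ^ (2 * lam + 1)) ^ (2 * (100 * l) * j) ≤ (2 ^ (2 * lam + 1)) ^ (200 * l * J) := by
      apply Nat.pow_le_pow_right (by positivity)
      calc 2 * (100 * l) * j = 200 * l * j := by ring
        _ ≤ 200 * l * J := Nat.mul_le_mul_left _ hj
    have h9 := h6.trans (h7.trans h8)
    rw [← pow_mul] at h9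
    exact_mod_cast h9
  -- r
  have hrq : (2:ℝ) ^ (10 * l ^ 2) ≤ (r:ℝ) ^ (100 * l) := by
    have h5 : (2 ^ l) ^ (10 * l) ≤ (r ^ 10) ^ (10 * l) := Nat.pow_le_pow_left hr.le _
    rw [← pow_mul, ← pow_mul] at h5
    have h6 : 2 ^ (10 * l ^ 2) ≤ r ^ (100 * l) := by
      calc 2 ^ (10 * l ^ 2) = 2 ^ (l * (10 * l)) := by congr 1; ring
        _ ≤ r ^ (10 * (10 * l)) := h5
        _ = r ^ (100 * l) := by congr 1; ring
    exact_mod_cast h6
  have hA : (((4 * τ ^ 2) ^ j * (16 * τ ^ 2) / r) ^ (100 * l)) * 2 ^ (10 * l ^ 2)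
      ≤ 2 ^ (((4 * lam + 6) * J + (4 * lam + 8)) * (100 * l)) := by
    rw [div_pow, div_mul_eq_mul_div, div_le_iff₀ (by positivity)]
    have h5 : (4 * τ ^ 2) ^ j * (16 * τ ^ 2) ≤ 2 ^ ((4 * lam + 6) * J + (4 * lam + 8)) := by
      calc (4 * τ ^ 2) ^ j * (16 * τ ^ 2) ≤ (4 * τ ^ 2) ^ J * (16 * τ ^ 2) :=
            mul_le_mul_of_nonneg_right (pow_le_pow_right₀ h4τ1 hj) (by positivity)
        _ ≤ (2 ^ (4 * lam + 6)) ^ J * 2 ^ (4 * lam + 8) :=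
            mul_le_mul (pow_le_pow_left₀ (by positivity) h4τ J) h16τ (by positivity) (by positivity)
        _ = _ := by rw [← pow_mul, ← pow_add]
    calc ((4 * τ ^ 2) ^ j * (16 * τ ^ 2)) ^ (100 * l) * 2 ^ (10 * l ^ 2)
        ≤ (2 ^ ((4 * lam + 6) * J + (4 * lam + 8))) ^ (100 * l) * r ^ (100 * l) :=
          mul_le_mul (pow_le_pow_left₀ (by positivity) h5 _) hrq (by positivity) (by positivity)
      _ = _ := by rw [← pow_mul]
  calc 20 * ((2 * (100 * l) * j).factorial : ℝ) * ((4 * τ ^ 2) ^ j * (16 * τ ^ 2) / r) ^ (100 * l) * 2 ^ (10 * l ^ 2)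
      = 20 * (((2 * (100 * l) * j).factorial : ℝ) * ((((4 * τ ^ 2) ^ j * (16 * τ ^ 2) / r) ^ (100 * l)) * 2 ^ (10 * l ^ 2))) := by ring
    _ ≤ 20 * (2 ^ ((2 * lam + 1) * (200 * l * J)) * 2 ^ (((4 * lam + 6) * J + (4 * lam + 8)) * (100 * l))) :=
        mul_le_mul_of_nonneg_left (mul_le_mul hfac hA (by positivity) (by positivity)) (by norm_num)
    _ = 20 * 2 ^ ((J * (800 * lam + 800) + 400 * lam + 800) * l) := by
        rw [← pow_add]
        congr 2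
        ring

/-- the bad event is negligible. -/
theorem bad_small {l r k J lam : ℕ} (hlam : 20 ≤ lam) (hl1 : 2 ^ lam ≤ l) (hl2 : l < 2 ^ (lam + 1))
    (hJ : J = 2 * lam + 6) (hcard : Fintype.card ι = 2 ^ l) (hr : 2 ^ l < r ^ 10) (hrk : r ≤ k) (hk : k ≤ 2 ^ l)
    (E : Matrix ι ι ℝ) (bad : (ι → Bool) → Prop) [DecidablePred bad]
    (hbad : ∀ ξ, bad ξ → ∃ u, ∃ j ≤ J, ((r:ℝ) / 2 ^ l) / 2 * Real.sqrt ((k:ℝ) / 2 ^ l * ((r:ℝ) / 2 ^ l)) ^ j
      < |word E ((k:ℝ) / 2 ^ l) ξ j u u|)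
    (hW : ∀ j u, BE ((k:ℝ) / 2 ^ l) (fun ξ => (word E ((k:ℝ) / 2 ^ l) ξ j u u) ^ (2 * (100 * l))) ≤
      20 * ((2 * (100 * l) * j).factorial : ℝ) * ((k:ℝ) / 2 ^ l * Fintype.card ι) ^ (100 * l * j) *
        (2 * (l:ℝ) ^ 2 * Real.sqrt r / 2 ^ l) ^ (2 * (100 * l) * (j + 1))) :
    4 * (Fintype.card ι : ℝ) * ((4 * l : ℕ) : ℝ) * BE ((k:ℝ) / 2 ^ l) (fun ξ => if bad ξ then 1 else 0)
      < (400 * Real.sqrt ((k:ℝ) / 2 ^ l * ((r:ℝ) / 2 ^ l))) ^ (4 * l) := by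
  have hN : (0:ℝ) < 2 ^ l := by positivity
  have hr0 : 0 < r := by
    rcases Nat.eq_zero_or_pos r with h | h
    · rw [h] at hr; simp at hr
    · exact h
  have hk0 : 0 < k := by omega
  have hr' : (1:ℝ) ≤ r := by exact_mod_cast hr0
  have hk' : (0:ℝ) < k := by exact_mod_cast hk0
  have hkN : (k:ℝ) ≤ 2 ^ l := by exact_mod_cast hk
  have hrk' : (r:ℝ) ≤ k := by exact_mod_cast hrk
  have hα1 : (k:ℝ) / 2 ^ l ≤ 1 := by rw [div_le_one hN]; exact hkN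
  have hm := bad_markov (α := (k:ℝ) / 2 ^ l) (b := (r:ℝ) / 2 ^ l) (θ := 2 * (l:ℝ) ^ 2 * Real.sqrt r / 2 ^ l)
    (by positivity) hα1 (by positivity) E J (100 * l) bad hbad hW
  have hcard' : (Fintype.card ι : ℝ) = 2 ^ l := by rw [hcard]; push_cast; rfl
  rw [hcard'] at hm ⊢
  set P := BE ((k:ℝ) / 2 ^ l) (fun ξ : ι → Bool => if bad ξ then (1:ℝ) else 0) with hP
  have h1 : P * 2 ^ (10 * l ^ 2) ≤ 2 ^ l * ((J + 1 : ℕ) * (20 * 2 ^ ((J * (800 * lam + 800) + 400 * lam + 800) * l))) := by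
    have h2 := mul_le_mul_of_nonneg_right hm (by positivity : (0:ℝ) ≤ 2 ^ (10 * l ^ 2))
    refine h2.trans ?_
    rw [mul_assoc]
    apply mul_le_mul_of_nonneg_left _ hN.le
    rw [Finset.sum_mul]
    refine (Finset.sum_le_sum (g := fun _ => 20 * 2 ^ ((J * (800 * lam + 800) + 400 * lam + 800) * l)) ?_).trans
      (le_of_eq ?_)
    · intro j hj
      exact term_bound hlam hl1 hl2 hJ (by rw [Finset.mem_range] at hj; omega) hr hk0
    · rw [Finset.sum_const, Finset.card_range, nsmul_eq_mul]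
  -- constants
  set A := J * (800 * lam + 800) + 400 * lam + 800 with hA
  have h320 : 320 * (J + 1) ≤ 2 ^ lam := by
    rw [hJ]
    clear hA A hm h1 hbad hW
    clear hJ hl1 hl2
    induction lam, hlam using Nat.le_induction with
    | base => norm_num
    | succ n hn ih => rw [pow_succ]; omega
  have hA6 : A + 3 ≤ 6 * l := by
    have h2 : A + 3 ≤ 6 * 2 ^ lam := by
      have h3 : A + 3 = 1600 * lam ^ 2 + 6800 * lam + 5603 := by rw [hA, hJ]; ring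
      rw [h3]
      clear hA A hm h1 hbad hW h320 h3
      clear hJ hl1 hl2
      induction lam, hlam using Nat.le_induction with
      | base => norm_num
      | succ n hn ih =>
        have h9 : 2 ^ (n + 1) = 2 * 2 ^ n := by ring
        rw [h9]
        nlinarith
    omega
  have hlam2 : 2 * lam + 1 ≤ l := by
    have h2 : 2 * lam + 1 ≤ 2 ^ lam := by
      clear hA A hm h1 hbad hW h320 hA6
      clear hJ hl1 hl2
      induction lam, hlam using Nat.le_induction with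
      | base => norm_num
      | succ n hn ih => rw [pow_succ]; omega
    omega
  have h2 : (16 * (l:ℝ)) * ((J + 1 : ℕ) * 20) ≤ 2 ^ l := by
    have h3 : 16 * l * ((J + 1) * 20) ≤ 2 ^ l := by
      calc 16 * l * ((J + 1) * 20) = (320 * (J + 1)) * l := by ring
        _ ≤ 2 ^ lam * 2 ^ (lam + 1) := Nat.mul_le_mul h320 hl2.le
        _ = 2 ^ (2 * lam + 1) := by rw [← pow_add]; congr 1; ring
        _ ≤ 2 ^ l := Nat.pow_le_pow_right (by norm_num) hlam2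
    exact_mod_cast h3
  have h3 : (4 * (2:ℝ) ^ l * ((4 * l : ℕ) : ℝ) * P) * 2 ^ (10 * l ^ 2) ≤ 2 ^ (6 * l ^ 2) := by
    calc (4 * (2:ℝ) ^ l * ((4 * l : ℕ) : ℝ) * P) * 2 ^ (10 * l ^ 2)
        = (4 * (2:ℝ) ^ l * ((4 * l : ℕ) : ℝ)) * (P * 2 ^ (10 * l ^ 2)) := by ring
      _ ≤ (4 * (2:ℝ) ^ l * ((4 * l : ℕ) : ℝ)) * (2 ^ l * ((J + 1 : ℕ) * (20 * 2 ^ (A * l)))) :=
          mul_le_mul_of_nonneg_left h1 (by positivity)
      _ = ((16 * (l:ℝ)) * ((J + 1 : ℕ) * 20)) * (2 ^ l * 2 ^ l * 2 ^ (A * l)) := by push_cast; ring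
      _ ≤ 2 ^ l * (2 ^ l * 2 ^ l * 2 ^ (A * l)) := mul_le_mul_of_nonneg_right h2 (by positivity)
      _ = 2 ^ ((A + 3) * l) := by rw [← pow_add, ← pow_add, ← pow_add]; congr 1; ring
      _ ≤ 2 ^ (6 * l ^ 2) := by
          apply pow_le_pow_right₀ (by norm_num)
          calc (A + 3) * l ≤ (6 * l) * l := Nat.mul_le_mul_right _ hA6
            _ = 6 * l ^ 2 := by ring
  have h4 : (4 * (2:ℝ) ^ l * ((4 * l : ℕ) : ℝ) * P) * 2 ^ (4 * l ^ 2) ≤ 1 := by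
    have h5 : (0:ℝ) < 2 ^ (6 * l ^ 2) := by positivity
    have h6 : ((4 * (2:ℝ) ^ l * ((4 * l : ℕ) : ℝ) * P) * 2 ^ (4 * l ^ 2)) * 2 ^ (6 * l ^ 2) ≤ 1 * 2 ^ (6 * l ^ 2) := by
      rw [one_mul, mul_assoc, ← pow_add, show 4 * l ^ 2 + 6 * l ^ 2 = 10 * l ^ 2 by ring]
      exact h3
    exact le_of_mul_le_mul_right h6 h5
  have hl0 : 0 < l := by omega
  have h5 : 1 < (400 * Real.sqrt ((k:ℝ) / 2 ^ l * ((r:ℝ) / 2 ^ l))) ^ (4 * l) * 2 ^ (4 * l ^ 2) := by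
    have h6 : (r:ℝ) / 2 ^ l ≤ Real.sqrt ((k:ℝ) / 2 ^ l * ((r:ℝ) / 2 ^ l)) := by
      apply Real.le_sqrt_of_sq_le
      rw [sq]
      apply mul_le_mul_of_nonneg_right _ (by positivity)
      exact div_le_div_of_nonneg_right hrk' hN.le
    have h7 : (400 * ((r:ℝ) / 2 ^ l)) ^ (4 * l) ≤ (400 * Real.sqrt ((k:ℝ) / 2 ^ l * ((r:ℝ) / 2 ^ l))) ^ (4 * l) := by
      apply pow_le_pow_left₀ (by positivity)
      linarith
    have h8 : (400 * ((r:ℝ) / 2 ^ l)) ^ (4 * l) * 2 ^ (4 * l ^ 2) = (400 * r) ^ (4 * l) := by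
      have h9 : (2:ℝ) ^ (4 * l ^ 2) = (2 ^ l) ^ (4 * l) := by rw [← pow_mul]; congr 1; ring
      rw [h9, ← mul_pow]
      congr 1
      field_simp
    have h9 : (1:ℝ) < (400 * r) ^ (4 * l) := one_lt_pow₀ (by linarith) (by omega)
    calc (1:ℝ) < (400 * r) ^ (4 * l) := h9
      _ = (400 * ((r:ℝ) / 2 ^ l)) ^ (4 * l) * 2 ^ (4 * l ^ 2) := h8.symm
      _ ≤ _ := mul_le_mul_of_nonneg_right h7 (by positivity)
  have h6 : (0:ℝ) < 2 ^ (4 * l ^ 2) := by positivity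
  exact lt_of_mul_lt_mul_right (lt_of_le_of_lt h4 h5) h6.le

end bad

end SRHT
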