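import Pool.Agent.Lib.SRHT.Bridge

/-!
# Full proof of MP_bd58a7_pr: common definitions

Bernoulli expectations, the centred selectors, alternating words, the mixing isometry.
-/

open Finset Matrix
open scoped BigOperators

namespace SRHT

section bern

variable {ι : Type*} [Fintype ι] [DecidableEq ι]

/-- product Bernoulli weight -/
noncomputable def bw (α : ℝ) (ξ : ι → Bool) : ℝ := ∏ i, if ξ i then α else 1 - α

/-- expectation under independent Bernoulli(α) selectors `ξ : ι → Bool` -/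
noncomputable def BE (α : ℝ) (f : (ι → Bool) → ℝ) : ℝ := ∑ ξ, bw α ξ * f ξ

/-- the set selected by `ξ` -/
def sel (ξ : ι → Bool) : Finset ι := Finset.univ.filter fun i => ξ i = true

/-- centred selectors -/
noncomputable def dl (α : ℝ) (ξ : ι → Bool) : ι → ℝ := fun i => (if ξ i then 1 else 0) - α

/-- `Δ = P_S - α` -/
noncomputable def Dm (α : ℝ) (ξ : ι → Bool) : Matrix ι ι ℝ := Matrix.diagonal (dl α ξ)

/-- alternating words `E (Δ E)^j` -/
noncomputable def word (E : Matrix ι ι ℝ) (α : ℝ) (ξ : ι → Bool) (j : ℕ) : Matrix ι ι ℝ :=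
  E * (Dm α ξ * E) ^ j

/-- `X = Q Δ Q` -/
noncomputable def Xm (Q : Matrix ι ι ℝ) (α : ℝ) (ξ : ι → Bool) : Matrix ι ι ℝ := Q * Dm α ξ * Q

/-- `G_a = Q (Δ Q)^a` -/
noncomputable def Gm (Q : Matrix ι ι ℝ) (α : ℝ) (ξ : ι → Bool) (a : ℕ) : Matrix ι ι ℝ :=
  Q * (Dm α ξ * Q) ^ a

end bern

section mix

variable {G : Type*} [AddCommGroup G] [Fintype G] [DecidableEq G]

/-- normalised Walsh-Hadamard matrix -/
noncomputable def Fm (χ : G → G → ℝ) : Matrix G G ℝ := (1 / Real.sqrt (Fintype.card G)) • (Matrix.of χ)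

/-- `Z₁ = F D₁ U` -/
noncomputable def Z1 (χ : G → G → ℝ) {r : ℕ} (U : Matrix G (Fin r) ℝ) (d₁ : G → ℤˣ) : Matrix G (Fin r) ℝ :=
  Fm χ * (Matrix.diagonal (sv d₁) * U)

/-- `Z = F D₂ F D₁ U` -/
noncomputable def Zm (χ : G → G → ℝ) {r : ℕ} (U : Matrix G (Fin r) ℝ) (d₁ d₂ : G → ℤˣ) : Matrix G (Fin r) ℝ :=
  Fm χ * (Matrix.diagonal (sv d₂) * Z1 χ U d₁)

/-- entrywise flatness of the projection `Z Zᵀ` -/
def Flat {r : ℕ} (Z : Matrix G (Fin r) ℝ) (θ : ℝ) : Prop :=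
  ∀ u v, |(Z * Zᵀ) u v - (if u = v then (r : ℝ) / Fintype.card G else 0)| ≤ θ

end mix

end SRHT
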