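import Pool.Agent.Lib.SRHT.Full.Bern0

/-!
Transfer from uniform `k`-subsets to Bernoulli(`k/n`) selectors.
-/

open Finset Matrix
open scoped BigOperators

namespace SRHT

/-- unnormalised binomial weights -/
def bwt (n k j : ℕ) : ℕ := n.choose j * k ^ j * (n - k) ^ (n - j)

lemma bwt_succ_mul (n k j : ℕ) :
    (j + 1) * bwt n k (j + 1) = (n - j) * k * (n.choose j * k ^ j * (n - k) ^ (n - j - 1)) := by
  unfold bwt
  have h := Nat.choose_succ_right_eq n j
  have h2 : n - (j + 1) = n - j - 1 := by omega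
  rw [h2, pow_succ]
  calc (j + 1) * (n.choose (j + 1) * (k ^ j * k) * (n - k) ^ (n - j - 1))
      = (n.choose (j + 1) * (j + 1)) * (k ^ j * k) * (n - k) ^ (n - j - 1) := by ring
    _ = _ := by rw [h]; ring

lemma bwt_mul (n k j : ℕ) (hj : j + 1 ≤ n) :
    (j + 1) * bwt n k j = (j + 1) * (n - k) * (n.choose j * k ^ j * (n - k) ^ (n - j - 1)) := by
  unfold bwt
  have h2 : n - j = (n - j - 1) + 1 := by omega
  conv_lhs => rw [h2, pow_succ]
  ring

lemma bwt_up (n k j : ℕ) (hjk : j + 1 ≤ k) (hkn : k ≤ n) : bwt n k j ≤ bwt n k (j + 1) := by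
  have hj : j + 1 ≤ n := le_trans hjk hkn
  have h : (j + 1) * bwt n k j ≤ (j + 1) * bwt n k (j + 1) := by
    rw [bwt_succ_mul n k j, bwt_mul n k j hj]
    refine Nat.mul_le_mul_right _ ?_
    rw [mul_comm (j + 1)]
    exact Nat.mul_le_mul (by omega) hjk
  exact Nat.le_of_mul_le_mul_left h (Nat.succ_pos j)

lemma bwt_down (n k j : ℕ) (hjk : k ≤ j) (hj : j + 1 ≤ n) : bwt n k (j + 1) ≤ bwt n k j := by
  have h : (j + 1) * bwt n k (j + 1) ≤ (j + 1) * bwt n k j := by
    rw [bwt_succ_mul n k j, bwt_mul n k j hj]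
    refine Nat.mul_le_mul_right _ ?_
    rw [mul_comm (j + 1)]
    exact Nat.mul_le_mul (by omega) (by omega)
  exact Nat.le_of_mul_le_mul_left h (Nat.succ_pos j)

lemma bwt_le (n k : ℕ) (hkn : k ≤ n) (j : ℕ) (hj : j ≤ n) : bwt n k j ≤ bwt n k k := by
  rcases le_total j k with h | h
  · have : ∀ d, ∀ j, j + d = k → bwt n k j ≤ bwt n k k := by
      intro d
      induction d with
      | zero => intro j hj; simp at hj; subst hj; exact le_rfl
      | succ d ih =>
        intro j hj
        exact (bwt_up n k j (by omega) hkn).trans (ih (j + 1) (by omega))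
    exact this (k - j) j (by omega)
  · induction j, h using Nat.le_induction with
    | base => exact le_rfl
    | succ j hkj ih => exact (bwt_down n k j hkj hj).trans (ih (by omega))

lemma bwt_sum (n k : ℕ) (hkn : k ≤ n) : ∑ j ∈ Finset.range (n + 1), bwt n k j = n ^ n := by
  have h := add_pow k (n - k) n
  have h2 : k + (n - k) = n := by omega
  rw [h2] at h
  rw [h]
  refine Finset.sum_congr rfl fun j _ => ?_
  unfold bwt
  rw [Nat.cast_id]
  ring

lemma pow_le_bwt (n k : ℕ) (hkn : k ≤ n) : n ^ n ≤ (n + 1) * bwt n k k := by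
  rw [← bwt_sum n k hkn]
  calc ∑ j ∈ Finset.range (n + 1), bwt n k j ≤ ∑ _j ∈ Finset.range (n + 1), bwt n k k :=
        Finset.sum_le_sum fun j hj => bwt_le n k hkn j (by simpa [Nat.lt_succ_iff] using hj)
    _ = (n + 1) * bwt n k k := by simp

/-- the binomial probability of the mean is at least `1/(n+1)` -/
lemma binom_mode (n k : ℕ) (hn : 1 ≤ n) (hkn : k ≤ n) :
    1 ≤ (n.choose k : ℝ) * ((n : ℝ) + 1) * (((k : ℝ) / n) ^ k * (1 - (k : ℝ) / n) ^ (n - k)) := by
  have hn0 : (0 : ℝ) < n := by exact_mod_cast hn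
  have h := pow_le_bwt n k hkn
  have h' : (n : ℝ) ^ n ≤ ((n : ℝ) + 1) * ((n.choose k : ℝ) * (k : ℝ) ^ k * ((n : ℝ) - k) ^ (n - k)) := by
    have := (Nat.cast_le (α := ℝ)).2 h
    unfold bwt at this
    push_cast [Nat.cast_sub hkn] at this
    exact this
  have h1 : (1 - (k : ℝ) / n) = ((n : ℝ) - k) / n := by field_simp
  rw [h1, div_pow, div_pow, div_mul_div_comm, ← pow_add]
  have h2 : k + (n - k) = n := by omega
  rw [h2, mul_div_assoc', le_div_iff₀ (pow_pos hn0 n), one_mul]
  calc (n : ℝ) ^ n ≤ _ := h'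
    _ = _ := by ring

variable {ι : Type*} [Fintype ι] [DecidableEq ι]

omit [DecidableEq ι] in
lemma bw_eq (α : ℝ) (ξ : ι → Bool) :
    bw α ξ = α ^ (sel ξ).card * (1 - α) ^ (Fintype.card ι - (sel ξ).card) := by
  classical
  unfold bw
  rw [Finset.prod_ite]
  simp only [Finset.prod_const]
  have h1 : (Finset.univ.filter fun i => ¬ (ξ i = true)).card = Fintype.card ι - (sel ξ).card := by
    have := Finset.card_filter_add_card_filter_not (s := (Finset.univ : Finset ι)) (fun i => ξ i = true)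
    unfold sel
    rw [Finset.card_univ] at this
    omega
  rw [h1]
  rfl

omit [DecidableEq ι] in
lemma sel_injective : Function.Injective (sel (ι := ι)) := by
  intro ξ η h
  funext i
  have : i ∈ sel ξ ↔ i ∈ sel η := by rw [h]
  simp only [sel, Finset.mem_filter, Finset.mem_univ, true_and] at this
  cases hx : ξ i <;> cases hy : η i <;> simp_all

lemma sel_decide (T : Finset ι) : sel (fun i => decide (i ∈ T)) = T := by
  ext i; simp [sel]

theorem BE_transfer (k : ℕ) (hk1 : 1 ≤ k) (hkn : k ≤ Fintype.card ι) (g : Finset ι → ℝ)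
    (hg : ∀ T, 0 ≤ g T) :
    ∑ T ∈ Finset.powersetCard k (Finset.univ : Finset ι), g T ≤
      ((Fintype.card ι).choose k : ℝ) * ((Fintype.card ι : ℝ) + 1) *
        BE ((k : ℝ) / Fintype.card ι) (fun ξ => g (sel ξ)) := by
  set n := Fintype.card ι with hn
  have hn1 : 1 ≤ n := le_trans hk1 hkn
  have hn0 : (0 : ℝ) < n := by exact_mod_cast hn1
  set α : ℝ := (k : ℝ) / n with hα
  have hα0 : 0 ≤ α := by positivity
  have hα1 : α ≤ 1 := by
    rw [hα, div_le_one hn0]; exact_mod_cast hkn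
  have hbin := binom_mode n k hn1 hkn
  rw [← hα] at hbin
  have hlow : (α ^ k * (1 - α) ^ (n - k)) * ∑ T ∈ Finset.powersetCard k (Finset.univ : Finset ι), g T
      ≤ BE α (fun ξ => g (sel ξ)) := by
    unfold BE
    rw [Finset.mul_sum]
    have h1 : ∑ T ∈ Finset.powersetCard k (Finset.univ : Finset ι), α ^ k * (1 - α) ^ (n - k) * g T
        = ∑ ξ ∈ (Finset.powersetCard k (Finset.univ : Finset ι)).image (fun T i => decide (i ∈ T)),
            bw α ξ * g (sel ξ) := by
      rw [Finset.sum_image]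
      · refine Finset.sum_congr rfl fun T hT => ?_
        rw [bw_eq, sel_decide, (Finset.mem_powersetCard.1 hT).2]
      · intro S _ T _ h
        have := congrArg sel h
        simpa [sel_decide] using this
    rw [h1]
    exact Finset.sum_le_sum_of_subset_of_nonneg (Finset.subset_univ _)
      fun ξ _ _ => mul_nonneg (bw_nonneg hα0 hα1 ξ) (hg _)
  have hs : 0 ≤ ∑ T ∈ Finset.powersetCard k (Finset.univ : Finset ι), g T :=
    Finset.sum_nonneg fun T _ => hg T
  have hc : (0 : ℝ) ≤ (n.choose k : ℝ) * ((n : ℝ) + 1) := by positivity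
  calc ∑ T ∈ Finset.powersetCard k (Finset.univ : Finset ι), g T
      = 1 * ∑ T ∈ Finset.powersetCard k (Finset.univ : Finset ι), g T := (one_mul _).symm
    _ ≤ ((n.choose k : ℝ) * ((n : ℝ) + 1) * (α ^ k * (1 - α) ^ (n - k))) *
          ∑ T ∈ Finset.powersetCard k (Finset.univ : Finset ι), g T :=
        mul_le_mul_of_nonneg_right hbin hs
    _ = (n.choose k : ℝ) * ((n : ℝ) + 1) * ((α ^ k * (1 - α) ^ (n - k)) *
          ∑ T ∈ Finset.powersetCard k (Finset.univ : Finset ι), g T) := by ring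
    _ ≤ _ := mul_le_mul_of_nonneg_left hlow hc

end SRHT
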