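import Pool.Agent.Lib.SRHT.Full.Basic

/-!
Bernoulli expectations: basic rules.
-/

open Finset Matrix
open scoped BigOperators

namespace SRHT

variable {ι : Type*} [Fintype ι] [DecidableEq ι]

lemma BE_prod (α : ℝ) (g : ι → Bool → ℝ) :
    BE α (fun ξ => ∏ i, g i (ξ i)) = ∏ i, (α * g i true + (1 - α) * g i false) := by
  unfold BE bw
  have h1 : ∀ ξ : ι → Bool, (∏ i, if ξ i then α else 1 - α) * ∏ i, g i (ξ i)
      = ∏ i, ((if ξ i then α else 1 - α) * g i (ξ i)) := by
    intro ξ; rw [Finset.prod_mul_distrib]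
  simp_rw [h1]
  have h2 := Finset.prod_univ_sum (fun _ : ι => (Finset.univ : Finset Bool))
    (fun i b => (if b then α else 1 - α) * g i b)
  rw [Fintype.piFinset_univ] at h2
  rw [← h2]
  refine Finset.prod_congr rfl fun i _ => ?_
  rw [Fintype.sum_bool]
  simp

lemma BE_add (α : ℝ) (f g : (ι → Bool) → ℝ) : BE α (fun ξ => f ξ + g ξ) = BE α f + BE α g := by
  unfold BE; rw [← Finset.sum_add_distrib]; refine Finset.sum_congr rfl fun ξ _ => ?_; ring

lemma BE_sub (α : ℝ) (f g : (ι → Bool) → ℝ) : BE α (fun ξ => f ξ - g ξ) = BE α f - BE α g := by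
  unfold BE; rw [← Finset.sum_sub_distrib]; refine Finset.sum_congr rfl fun ξ _ => ?_; ring

lemma BE_mul_left (α c : ℝ) (f : (ι → Bool) → ℝ) : BE α (fun ξ => c * f ξ) = c * BE α f := by
  unfold BE; rw [Finset.mul_sum]; refine Finset.sum_congr rfl fun ξ _ => ?_; ring

lemma BE_sum {κ : Type*} (α : ℝ) (s : Finset κ) (f : κ → (ι → Bool) → ℝ) :
    BE α (fun ξ => ∑ k ∈ s, f k ξ) = ∑ k ∈ s, BE α (f k) := by
  unfold BE; rw [Finset.sum_comm]; refine Finset.sum_congr rfl fun ξ _ => ?_
  rw [Finset.mul_sum]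

lemma BE_one (α : ℝ) : BE α (fun _ : ι → Bool => (1 : ℝ)) = 1 := by
  have := BE_prod (ι := ι) α (fun _ _ => 1)
  simpa using this

lemma BE_const (α c : ℝ) : BE α (fun _ : ι → Bool => c) = c := by
  have := BE_mul_left (ι := ι) α c (fun _ => 1)
  rw [BE_one] at this
  simpa using this

omit [DecidableEq ι] in
lemma bw_nonneg {α : ℝ} (h0 : 0 ≤ α) (h1 : α ≤ 1) (ξ : ι → Bool) : 0 ≤ bw α ξ := by
  unfold bw
  refine Finset.prod_nonneg fun i _ => ?_
  split_ifs
  · exact h0
  · linarith

lemma BE_mono {α : ℝ} (h0 : 0 ≤ α) (h1 : α ≤ 1) {f g : (ι → Bool) → ℝ} (h : ∀ ξ, f ξ ≤ g ξ) :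
    BE α f ≤ BE α g :=
  Finset.sum_le_sum fun ξ _ => mul_le_mul_of_nonneg_left (h ξ) (bw_nonneg h0 h1 ξ)

lemma BE_nonneg {α : ℝ} (h0 : 0 ≤ α) (h1 : α ≤ 1) {f : (ι → Bool) → ℝ} (h : ∀ ξ, 0 ≤ f ξ) :
    0 ≤ BE α f :=
  Finset.sum_nonneg fun ξ _ => mul_nonneg (bw_nonneg h0 h1 ξ) (h ξ)

/-- sums over configurations by updating one coordinate -/
lemma sum_update (u : ι) (F : (ι → Bool) → ℝ) :
    2 * ∑ ξ, F ξ = ∑ ξ, (F (Function.update ξ u true) + F (Function.update ξ u false)) := by
  let e : (ι → Bool) ≃ (ι → Bool) :=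
    { toFun := fun ξ => Function.update ξ u (!ξ u)
      invFun := fun ξ => Function.update ξ u (!ξ u)
      left_inv := by intro ξ; simp
      right_inv := by intro ξ; simp }
  have h1 : ∑ ξ, F (e ξ) = ∑ ξ, F ξ := Fintype.sum_equiv e _ _ (fun _ => rfl)
  have h2 : ∀ ξ, F ξ + F (e ξ) = F (Function.update ξ u true) + F (Function.update ξ u false) := by
    intro ξ
    have he : e ξ = Function.update ξ u (!ξ u) := rfl
    rw [he]
    cases h : ξ u
    · have : Function.update ξ u false = ξ := by rw [← h]; exact Function.update_eq_self u ξ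
      rw [this]; simp [add_comm]
    · have : Function.update ξ u true = ξ := by rw [← h]; exact Function.update_eq_self u ξ
      rw [this]; simp
  rw [← Finset.sum_congr rfl (fun ξ _ => h2 ξ), Finset.sum_add_distrib, h1]; ring

lemma bw_update (α : ℝ) (u : ι) (b : Bool) (ξ : ι → Bool) :
    bw α (Function.update ξ u b) = (if b then α else 1 - α) *
      ∏ i ∈ Finset.univ.erase u, (if ξ i then α else 1 - α) := by
  unfold bw
  rw [← Finset.mul_prod_erase Finset.univ _ (Finset.mem_univ u)]
  congr 1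
  · simp
  · refine Finset.prod_congr rfl fun i hi => ?_
    rw [Function.update_of_ne (Finset.ne_of_mem_erase hi)]

/-- resampling one coordinate -/
lemma BE_split (α : ℝ) (u : ι) (f : (ι → Bool) → ℝ) :
    BE α f = α * BE α (fun ξ => f (Function.update ξ u true))
      + (1 - α) * BE α (fun ξ => f (Function.update ξ u false)) := by
  have h1 : 2 * BE α f = ∑ ξ, (α * (∏ i ∈ Finset.univ.erase u, (if ξ i then α else 1 - α)) *
        f (Function.update ξ u true) + (1 - α) * (∏ i ∈ Finset.univ.erase u, (if ξ i then α else 1 - α)) *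
        f (Function.update ξ u false)) := by
    unfold BE
    rw [sum_update u]
    refine Finset.sum_congr rfl fun ξ _ => ?_
    rw [bw_update, bw_update]; simp
  have h2 : ∀ b : Bool, 2 * BE α (fun ξ => f (Function.update ξ u b)) =
      ∑ ξ, (∏ i ∈ Finset.univ.erase u, (if ξ i then α else 1 - α)) * f (Function.update ξ u b) := by
    intro b
    unfold BE
    rw [sum_update u]
    refine Finset.sum_congr rfl fun ξ _ => ?_
    rw [bw_update, bw_update]
    simp only [if_true, Bool.false_eq_true, if_false, Function.update_idem]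
    ring
  have h3 : 2 * (α * BE α (fun ξ => f (Function.update ξ u true))
      + (1 - α) * BE α (fun ξ => f (Function.update ξ u false))) = 2 * BE α f := by
    rw [h1]
    calc 2 * (α * BE α (fun ξ => f (Function.update ξ u true))
      + (1 - α) * BE α (fun ξ => f (Function.update ξ u false)))
        = α * (2 * BE α (fun ξ => f (Function.update ξ u true)))
          + (1 - α) * (2 * BE α (fun ξ => f (Function.update ξ u false))) := by ring
      _ = _ := by
        rw [h2, h2, Finset.mul_sum, Finset.mul_sum, ← Finset.sum_add_distrib]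
        refine Finset.sum_congr rfl fun ξ _ => ?_
        ring
  linarith

/-- restriction to `ξ u = true` -/
lemma BE_ite_true (α : ℝ) (u : ι) (f : (ι → Bool) → ℝ) :
    BE α (fun ξ => if ξ u then f ξ else 0) = α * BE α (fun ξ => f (Function.update ξ u true)) := by
  rw [BE_split α u]
  simp [BE_const]

/-- restriction to `ξ u = false` -/
lemma BE_ite_false (α : ℝ) (u : ι) (f : (ι → Bool) → ℝ) :
    BE α (fun ξ => if ξ u then 0 else f ξ) = (1 - α) * BE α (fun ξ => f (Function.update ξ u false)) := by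
  rw [BE_split α u]
  simp [BE_const]

end SRHT
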