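import Pool.Agent.Lib.SRHT.Full.Basic

/-!
# S5: flatness of the mixed projection (helper57)
-/

open Finset Matrix
open scoped BigOperators

set_option linter.unusedSectionVars false

namespace SRHT

section hw

variable {ι : Type*} [Fintype ι] [DecidableEq ι]

/-- the quadratic form in a sign vector -/
noncomputable def qform (B : Matrix ι ι ℝ) (d : ι → ℤˣ) : ℝ := ∑ i, ∑ j, B i j * (sv d i * sv d j)

lemma hw_gen (B : Matrix ι ι ℝ) (b lam : ℝ) (hb : OB B b) (hl : 8 * lam ^ 2 * b ≤ 1 / 16) :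
    avg (fun d => Real.exp (lam * (qform B d - ∑ i, B i i))) ≤ Real.exp (16 * lam ^ 2 * fr B) := by
  have h1 : ∀ d : ι → ℤˣ, lam * (qform B d - ∑ i, B i i)
      = (∑ i, ∑ j, (lam • B) i j * (sv d i * sv d j)) - ∑ i, (lam • B) i i := by
    intro d
    unfold qform
    rw [mul_sub, Finset.mul_sum, Finset.mul_sum]
    simp_rw [Finset.mul_sum, Matrix.smul_apply, smul_eq_mul, mul_assoc]
  simp_rw [h1]
  apply one_step
  intro e
  have hs8 : Real.sqrt 8 ^ 2 = 8 := Real.sq_sqrt (by norm_num)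
  have h3 : OB (Real.sqrt 8 • selm e (lam • B)) (1 / 16) := by
    have := (selm_OB e (hb.smul lam)).smul (Real.sqrt 8)
    refine this.mono ?_
    rw [hs8]; linarith
  have h4 := psd_mgf _ h3
  have h5 : ∀ d : ι → ℤˣ, nsq ((Real.sqrt 8 • selm e (lam • B)) *ᵥ sv d)
      = 8 * ∑ i, (psel e i * ∑ j, (lam • B) i j * (qsel e j * sv d j)) ^ 2 := by
    intro d
    rw [Matrix.smul_mulVec, nsq_smul, hs8, selm_nsq]
  simp_rw [h5] at h4
  refine h4.trans (Real.exp_le_exp.2 ?_)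
  rw [fr_smul, hs8]
  have := selm_fr e (lam • B)
  rw [fr_smul] at this
  linarith

lemma hw_gen_tail (B : Matrix ι ι ℝ) (b lam η : ℝ) (hlam : 0 ≤ lam) (hb : OB B b)
    (hl : 8 * lam ^ 2 * b ≤ 1 / 16) :
    frac (fun d => η < |qform B d - ∑ i, B i i|) ≤ 2 * Real.exp (16 * lam ^ 2 * fr B - lam * η) := by
  have h1 := hw_gen B b lam hb hl
  have h2 := hw_gen B b (-lam) hb (by simpa using hl)
  set X : (ι → ℤˣ) → ℝ := fun d => qform B d - ∑ i, B i i with hX
  have h3 : frac (fun d => η < |X d|) ≤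
      avg (fun d => Real.exp (- lam * η) * (Real.exp (lam * X d) + Real.exp (- lam * X d))) := by
    apply frac_le_avg
    · intro d; positivity
    · intro d hd
      rw [mul_add, ← Real.exp_add, ← Real.exp_add]
      rcases lt_abs.1 hd with h | h
      · have : 1 ≤ Real.exp (- lam * η + lam * X d) := by
          apply Real.one_le_exp; nlinarith
        linarith [Real.exp_pos (- lam * η + - lam * X d)]
      · have : 1 ≤ Real.exp (- lam * η + - lam * X d) := by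
          apply Real.one_le_exp; nlinarith
        linarith [Real.exp_pos (- lam * η + lam * X d)]
  refine h3.trans ?_
  rw [avg_mul_left, avg_add]
  have h4 : (-lam) ^ 2 = lam ^ 2 := by ring
  rw [h4] at h2
  calc Real.exp (- lam * η) * (avg (fun d => Real.exp (lam * X d)) + avg (fun d => Real.exp (- lam * X d)))
      ≤ Real.exp (- lam * η) * (Real.exp (16 * lam ^ 2 * fr B) + Real.exp (16 * lam ^ 2 * fr B)) :=
        mul_le_mul_of_nonneg_left (add_le_add h1 h2) (Real.exp_pos _).le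
    _ = 2 * Real.exp (16 * lam ^ 2 * fr B - lam * η) := by
        rw [sub_eq_add_neg, Real.exp_add]; ring_nf

lemma chaos_tail (B : Matrix ι ι ℝ) (hb : OB B 1) {r : ℕ} (hr : 1 ≤ r) (hfr : fr B ≤ r) (τ : ℝ) :
    frac (fun d => τ * Real.sqrt r < |qform B d - ∑ i, B i i|) ≤ 3 * Real.exp (-τ / 12) := by
  have hr1 : (1:ℝ) ≤ r := by exact_mod_cast hr
  have hr0 : (0:ℝ) < r := by linarith
  set s := Real.sqrt r with hs
  have hs0 : 0 < s := Real.sqrt_pos.mpr hr0
  have hs2 : s ^ 2 = r := Real.sq_sqrt hr0.le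
  have h1 := hw_gen_tail B 1 (1 / (12 * s)) (τ * s) (by positivity) hb (by
    rw [div_pow, mul_pow, hs2, one_pow, mul_one, ← mul_div_assoc, div_le_div_iff₀ (by positivity) (by norm_num)]
    nlinarith)
  refine h1.trans ?_
  have h2 : 16 * (1 / (12 * s)) ^ 2 * fr B ≤ 1 / 9 := by
    rw [div_pow, mul_pow, hs2, one_pow]
    have : 16 * (1 / (12 ^ 2 * (r:ℝ))) * fr B ≤ 16 * (1 / (12 ^ 2 * (r:ℝ))) * r :=
      mul_le_mul_of_nonneg_left hfr (by positivity)
    refine this.trans (le_of_eq ?_)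
    field_simp; norm_num
  have h3 : 1 / (12 * s) * (τ * s) = τ / 12 := by field_simp
  rw [h3]
  have h4 : Real.exp (16 * (1 / (12 * s)) ^ 2 * fr B - τ / 12) ≤ Real.exp (1 / 9) * Real.exp (-τ / 12) := by
    rw [← Real.exp_add]
    apply Real.exp_le_exp.2
    have : -τ / 12 = - (τ / 12) := by ring
    rw [this]; linarith
  have h5 : Real.exp (1 / 9) ≤ 3 / 2 := by
    have h6 : Real.exp (1/9) ^ 9 ≤ (3 / 2) ^ 9 := by
      rw [← Real.exp_nat_mul]
      norm_num
      have := Real.exp_one_lt_d9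
      linarith
    exact le_of_pow_le_pow_left₀ (by norm_num) (by norm_num) h6
  have h6 : 0 < Real.exp (-τ / 12) := Real.exp_pos _
  nlinarith

end hw

section flat

variable {G : Type*} [AddCommGroup G] [Fintype G] [DecidableEq G] {χ : G → G → ℝ}

lemma proj_OB {r : ℕ} {Z : Matrix G (Fin r) ℝ} (hZ : Zᵀ * Z = 1) : OB (Z * Zᵀ) 1 := by
  intro v
  rw [one_mul, ← Matrix.mulVec_mulVec, nsq_isom hZ]
  -- `nsq (Zᵀ v) ≤ nsq v`
  set w := Zᵀ *ᵥ v with hw
  have h1 : nsq w = v ⬝ᵥ (Z *ᵥ w) := by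
    rw [nsq_eq_dot]
    conv_lhs => rw [hw]
    rw [dotProduct_comm, Matrix.dotProduct_mulVec, Matrix.vecMul_transpose, dotProduct_comm]
  have h2 : nsq w ^ 2 ≤ nsq v * nsq w := by
    have := dot_sq_le v (Z *ᵥ w)
    rw [← h1, nsq_isom hZ] at this
    exact this
  rcases (nsq_nonneg w).eq_or_lt with h0 | h0
  · rw [← h0]; exact nsq_nonneg v
  · nlinarith

lemma proj_fr {r : ℕ} {Z : Matrix G (Fin r) ℝ} (hZ : Zᵀ * Z = 1) : fr (Z * Zᵀ) = r := by
  have h1 : (Z * Zᵀ)ᵀ * (Z * Zᵀ) = Z * Zᵀ := by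
    rw [Matrix.transpose_mul, Matrix.transpose_transpose, Matrix.mul_assoc, ← Matrix.mul_assoc Zᵀ, hZ,
      Matrix.one_mul]
  rw [← trace_eq, h1]
  have h2 : ∑ i, (Z * Zᵀ) i i = Matrix.trace (Z * Zᵀ) := rfl
  rw [h2, Matrix.trace_mul_comm, hZ, Matrix.trace_one, Fintype.card_fin]

lemma proj_entry {r : ℕ} {Z : Matrix G (Fin r) ℝ} (hZ : Zᵀ * Z = 1) (i j : G) : ((Z * Zᵀ) i j) ^ 2 ≤ 1 := by
  have h1 := proj_OB hZ (Pi.single j 1)
  have h2 : nsq (Pi.single j 1 : G → ℝ) = 1 := by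
    unfold nsq
    rw [Finset.sum_eq_single j]
    · simp
    · intro b _ hb; rw [Pi.single_eq_of_ne hb]; simp
    · intro h; exact absurd (Finset.mem_univ _) h
  rw [h2, Matrix.mulVec_single_one] at h1
  have h3 : ((Z * Zᵀ) i j) ^ 2 ≤ nsq ((Z * Zᵀ).col j) := by
    unfold nsq
    exact Finset.single_le_sum (f := fun i => ((Z * Zᵀ).col j i) ^ 2) (fun i _ => sq_nonneg _) (Finset.mem_univ i)
  linarith

lemma Fm_isom (h : Bichar G χ) : (Fm χ)ᵀ * Fm χ = 1 := by
  have hn : (0 : ℝ) < Fintype.card G := card_pos_real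
  have hs : Real.sqrt (Fintype.card G) * Real.sqrt (Fintype.card G) = Fintype.card G := Real.mul_self_sqrt hn.le
  have hs0 : Real.sqrt (Fintype.card G) ≠ 0 := (Real.sqrt_pos.2 hn).ne'
  ext i j
  rw [Matrix.mul_apply, Matrix.one_apply]
  unfold Fm
  simp_rw [Matrix.transpose_apply, Matrix.smul_apply, Matrix.of_apply, smul_eq_mul]
  have h1 : ∀ l, 1 / Real.sqrt (Fintype.card G) * χ l i * (1 / Real.sqrt (Fintype.card G) * χ l j)
      = χ (i + j) l * (1 / Fintype.card G) := by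
    intro l
    rw [h.symm (i + j) l, h.add]
    nth_rewrite 3 [← hs]
    field_simp
  simp_rw [h1]
  rw [← Finset.sum_mul, h.sum]
  by_cases hij : i = j
  · rw [if_pos hij, if_pos (by rw [hij, h.two])]
    field_simp
  · rw [if_neg hij, if_neg, zero_mul]
    intro h2
    apply hij
    have h3 := congrArg (fun z => z + j) h2
    simp only [zero_add] at h3
    rw [add_assoc, h.two, add_zero] at h3
    exact h3

lemma sv_isom (d : G → ℤˣ) : (Matrix.diagonal (sv d))ᵀ * Matrix.diagonal (sv d) = 1 := by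
  rw [Matrix.diagonal_transpose, Matrix.diagonal_mul_diagonal, ← Matrix.diagonal_one]
  congr 1
  funext i
  exact sv_mul_self d i

lemma mul_isom {r : ℕ} {A : Matrix G G ℝ} {Z : Matrix G (Fin r) ℝ} (hA : Aᵀ * A = 1) (hZ : Zᵀ * Z = 1) :
    (A * Z)ᵀ * (A * Z) = 1 := by
  rw [Matrix.transpose_mul, Matrix.mul_assoc, ← Matrix.mul_assoc Aᵀ, hA, Matrix.one_mul, hZ]

lemma Z1_isom (h : Bichar G χ) {r : ℕ} {U : Matrix G (Fin r) ℝ} (hU : Uᵀ * U = 1) (d₁ : G → ℤˣ) :
    (Z1 χ U d₁)ᵀ * Z1 χ U d₁ = 1 := by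
  unfold Z1
  exact mul_isom (Fm_isom h) (mul_isom (sv_isom d₁) hU)

lemma Zm_isom (h : Bichar G χ) {r : ℕ} {U : Matrix G (Fin r) ℝ} (hU : Uᵀ * U = 1) (d₁ d₂ : G → ℤˣ) :
    (Zm χ U d₁ d₂)ᵀ * Zm χ U d₁ d₂ = 1 := by
  unfold Zm
  exact mul_isom (Fm_isom h) (mul_isom (sv_isom d₂) (Z1_isom h hU d₁))

/-- `F D Z (F D Z)ᵀ` entrywise as a quadratic form of the signs -/
lemma FDZ_entry {r : ℕ} (Z : Matrix G (Fin r) ℝ) (d : G → ℤˣ) (u v : G) :
    ((Fm χ * (Matrix.diagonal (sv d) * Z)) * (Fm χ * (Matrix.diagonal (sv d) * Z))ᵀ) u v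
      = qform (Matrix.diagonal (χ u) * (Z * Zᵀ) * Matrix.diagonal (χ v)) d / Fintype.card G := by
  have hn : (0 : ℝ) < Fintype.card G := card_pos_real
  have hs : Real.sqrt (Fintype.card G) * Real.sqrt (Fintype.card G) = Fintype.card G := Real.mul_self_sqrt hn.le
  have hs0 : Real.sqrt (Fintype.card G) ≠ 0 := (Real.sqrt_pos.2 hn).ne'
  have h0 : ∀ (u : G) (α : Fin r), (Fm χ * (Matrix.diagonal (sv d) * Z)) u α
      = (∑ x, χ u x * (sv d x * Z x α)) / Real.sqrt (Fintype.card G) := by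
    intro u α
    rw [Matrix.mul_apply, Finset.sum_div]
    refine Finset.sum_congr rfl fun x _ => ?_
    rw [Matrix.diagonal_mul]
    unfold Fm
    rw [Matrix.smul_apply, Matrix.of_apply, smul_eq_mul]
    ring
  rw [Matrix.mul_apply]
  simp_rw [Matrix.transpose_apply, h0]
  unfold qform
  have h1 : ∀ i j, (Matrix.diagonal (χ u) * (Z * Zᵀ) * Matrix.diagonal (χ v)) i j
      = ∑ α, χ u i * (Z i α * Z j α) * χ v j := by
    intro i j
    rw [Matrix.mul_diagonal, Matrix.diagonal_mul, Matrix.mul_apply, Finset.mul_sum, Finset.sum_mul]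
    rfl
  simp_rw [h1, Finset.sum_mul]
  rw [Finset.sum_div]
  have h2 : ∀ α : Fin r, (∑ x, χ u x * (sv d x * Z x α)) / Real.sqrt (Fintype.card G) *
      ((∑ x, χ v x * (sv d x * Z x α)) / Real.sqrt (Fintype.card G))
      = ∑ i, ∑ j, (χ u i * (Z i α * Z j α) * χ v j * (sv d i * sv d j)) / Fintype.card G := by
    intro α
    rw [div_mul_div_comm, hs, Finset.sum_mul_sum, Finset.sum_div]
    refine Finset.sum_congr rfl fun i _ => ?_
    rw [Finset.sum_div]
    refine Finset.sum_congr rfl fun j _ => ?_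
    congr 1; ring
  simp_rw [h2]
  rw [Finset.sum_comm]
  refine Finset.sum_congr rfl fun i _ => ?_
  rw [Finset.sum_comm, Finset.sum_div]
  refine Finset.sum_congr rfl fun j _ => ?_
  rw [Finset.sum_div]

lemma B_OB (h : Bichar G χ) {r : ℕ} {Z : Matrix G (Fin r) ℝ} (hZ : Zᵀ * Z = 1) (u v : G) :
    OB (Matrix.diagonal (χ u) * (Z * Zᵀ) * Matrix.diagonal (χ v)) 1 := by
  have h1 := OB_diag (χ u) (fun i => (h.sq u i).le)
  have h2 := OB_diag (χ v) (fun i => (h.sq v i).le)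
  have := (h1.mul (proj_OB hZ) zero_le_one).mul h2 (by norm_num)
  simpa using this

lemma B_fr (h : Bichar G χ) {r : ℕ} {Z : Matrix G (Fin r) ℝ} (hZ : Zᵀ * Z = 1) (u v : G) :
    fr (Matrix.diagonal (χ u) * (Z * Zᵀ) * Matrix.diagonal (χ v)) ≤ r := by
  have h1 := OB_diag (χ u) (fun i => (h.sq u i).le)
  have h2 := OB_diag (χ v) (fun i => (h.sq v i).le)
  have h3 := fr_mul_le' h2 (Matrix.diagonal (χ u) * (Z * Zᵀ))
  have h4 := fr_mul_le h1 (Z * Zᵀ)
  rw [proj_fr hZ] at h4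
  linarith

lemma B_trace (h : Bichar G χ) {r : ℕ} (Z : Matrix G (Fin r) ℝ) (u v : G) :
    ∑ i, (Matrix.diagonal (χ u) * (Z * Zᵀ) * Matrix.diagonal (χ v)) i i
      = ∑ i, χ (u + v) i * (Z * Zᵀ) i i := by
  refine Finset.sum_congr rfl fun i _ => ?_
  rw [Matrix.mul_diagonal, Matrix.diagonal_mul, h.symm (u + v) i, h.add, h.symm i u, h.symm i v]
  ring

lemma proj_trace {r : ℕ} {Z : Matrix G (Fin r) ℝ} (hZ : Zᵀ * Z = 1) : ∑ i, (Z * Zᵀ) i i = r := by
  have h2 : ∑ i, (Z * Zᵀ) i i = Matrix.trace (Z * Zᵀ) := rfl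
  rw [h2, Matrix.trace_mul_comm, hZ, Matrix.trace_one, Fintype.card_fin]

lemma chi_zero (h : Bichar G χ) (i : G) : χ 0 i = 1 := by rw [h.symm, h.zero]

/-- the matrix of the second chaos -/
noncomputable def Gma {r : ℕ} (U : Matrix G (Fin r) ℝ) (a : G) : Matrix G G ℝ :=
  fun j j' => if j' = j + a then (U * Uᵀ) j j' else 0

lemma Gma_OB {r : ℕ} {U : Matrix G (Fin r) ℝ} (hU : Uᵀ * U = 1) (a : G) : OB (Gma U a) 1 := by
  intro v
  rw [one_mul]
  have h1 : ∀ j, (Gma U a *ᵥ v) j = (U * Uᵀ) j (j + a) * v (j + a) := by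
    intro j
    unfold Matrix.mulVec dotProduct Gma
    simp
  unfold nsq
  simp_rw [h1]
  have h2 : ∑ j, v j ^ 2 = ∑ j, v (j + a) ^ 2 :=
    (Equiv.sum_comp (Equiv.addRight a) (fun j => v j ^ 2)).symm
  rw [h2]
  refine Finset.sum_le_sum fun j _ => ?_
  rw [mul_pow]
  exact mul_le_of_le_one_left (sq_nonneg _) (proj_entry hU j (j + a))

lemma Gma_fr {r : ℕ} {U : Matrix G (Fin r) ℝ} (hU : Uᵀ * U = 1) (a : G) : fr (Gma U a) ≤ r := by
  rw [← proj_fr hU]
  unfold fr
  refine Finset.sum_le_sum fun j _ => Finset.sum_le_sum fun j' _ => ?_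
  unfold Gma
  split_ifs
  · exact le_rfl
  · rw [zero_pow two_ne_zero]; exact sq_nonneg _

lemma Gma_diag {r : ℕ} (U : Matrix G (Fin r) ℝ) {a : G} (ha : a ≠ 0) : ∑ i, Gma U a i i = 0 := by
  apply Finset.sum_eq_zero
  intro i _
  unfold Gma
  rw [if_neg]
  intro hi
  apply ha
  have := congrArg (fun z => z - i) hi
  simpa using this.symm

/-- the trace of the mixed projection against a character -/
lemma T_eq (h : Bichar G χ) {r : ℕ} (U : Matrix G (Fin r) ℝ) (d₁ : G → ℤˣ) (a : G) :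
    ∑ i, χ a i * (Z1 χ U d₁ * (Z1 χ U d₁)ᵀ) i i = qform (Gma U a) d₁ := by
  have h1 : ∀ (l : G) (α : Fin r), Z1 χ U d₁ l α = yv χ (fun j => sv d₁ j * U j α) l := by
    intro l α
    unfold Z1 yv
    rw [Matrix.mul_apply, Finset.sum_div]
    refine Finset.sum_congr rfl fun x _ => ?_
    rw [Matrix.diagonal_mul]
    unfold Fm
    rw [Matrix.smul_apply, Matrix.of_apply, smul_eq_mul]
    ring
  have h2 : ∀ i, χ a i * (Z1 χ U d₁ * (Z1 χ U d₁)ᵀ) i i
      = ∑ α, χ a i * yv χ (fun j => sv d₁ j * U j α) i ^ 2 := by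
    intro i
    rw [Matrix.mul_apply, Finset.mul_sum]
    refine Finset.sum_congr rfl fun α _ => ?_
    rw [Matrix.transpose_apply, h1, _root_.sq]
  simp_rw [h2]
  rw [Finset.sum_comm]
  simp_rw [sum_chi_y h]
  unfold corr qform
  rw [Finset.sum_comm]
  refine Finset.sum_congr rfl fun j _ => ?_
  have h3 : ∀ j', Gma U a j j' * (sv d₁ j * sv d₁ j') = if j' = j + a then (U * Uᵀ) j j' * (sv d₁ j * sv d₁ j') else 0 := by
    intro j'
    unfold Gma
    split_ifs <;> simp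
  simp_rw [h3]
  rw [Finset.sum_ite_eq' Finset.univ (j + a), if_pos (Finset.mem_univ _), Matrix.mul_apply, Finset.sum_mul]
  refine Finset.sum_congr rfl fun α _ => ?_
  rw [Matrix.transpose_apply]
  ring

lemma frac_mono {ι : Type*} [Fintype ι] [DecidableEq ι] {E F : (ι → ℤˣ) → Prop} (h : ∀ d, E d → F d) :
    frac E ≤ frac F := by
  have := frac_union (κ := Unit) {()} E (fun _ => F) (fun d hd => ⟨(), Finset.mem_singleton_self _, h d hd⟩)
  simpa using this

lemma T_prob (h : Bichar G χ) {r : ℕ} (hr : 1 ≤ r) (U : Matrix G (Fin r) ℝ) (hU : Uᵀ * U = 1) (τ : ℝ) :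
    frac (fun d₁ : G → ℤˣ => ∃ a : G, a ≠ 0 ∧ τ * Real.sqrt r < |∑ i, χ a i * (Z1 χ U d₁ * (Z1 χ U d₁)ᵀ) i i|)
      ≤ (Fintype.card G : ℝ) * (3 * Real.exp (-τ / 12)) := by
  have h1 := frac_union (Finset.univ : Finset G)
    (fun d₁ : G → ℤˣ => ∃ a : G, a ≠ 0 ∧ τ * Real.sqrt r < |∑ i, χ a i * (Z1 χ U d₁ * (Z1 χ U d₁)ᵀ) i i|)
    (fun a d₁ => a ≠ 0 ∧ τ * Real.sqrt r < |∑ i, χ a i * (Z1 χ U d₁ * (Z1 χ U d₁)ᵀ) i i|)
    (fun d hd => by obtain ⟨a, ha⟩ := hd; exact ⟨a, Finset.mem_univ _, ha⟩)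
  refine h1.trans ?_
  have h2 : ∀ a ∈ (Finset.univ : Finset G), frac (fun d₁ : G → ℤˣ => a ≠ 0 ∧
      τ * Real.sqrt r < |∑ i, χ a i * (Z1 χ U d₁ * (Z1 χ U d₁)ᵀ) i i|) ≤ 3 * Real.exp (-τ / 12) := by
    intro a _
    by_cases ha : a = 0
    · have : frac (fun d₁ : G → ℤˣ => a ≠ 0 ∧
          τ * Real.sqrt r < |∑ i, χ a i * (Z1 χ U d₁ * (Z1 χ U d₁)ᵀ) i i|) ≤ avg (fun _ : G → ℤˣ => (0:ℝ)) := by
        apply frac_le_avg
        · intro _; exact le_rfl
        · intro d hd; exact absurd ha hd.1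
      rw [avg_const] at this
      have h3 : 0 < 3 * Real.exp (-τ / 12) := by positivity
      linarith
    · refine le_trans (frac_mono ?_) (chaos_tail (Gma U a) (Gma_OB hU a) hr (Gma_fr hU a) τ)
      intro d hd
      rw [T_eq h] at hd
      rw [Gma_diag U ha, sub_zero]
      exact hd.2
  refine (Finset.sum_le_sum h2).trans (le_of_eq ?_)
  rw [Finset.sum_const, Finset.card_univ, nsmul_eq_mul]

theorem diag_prob (h : Bichar G χ) {r : ℕ} (hr : 1 ≤ r) (U : Matrix G (Fin r) ℝ) (hU : Uᵀ * U = 1)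
    (τ : ℝ) (_hτ : 0 ≤ τ) :
    frac (fun d₁ : G → ℤˣ => ∃ l, ((r : ℝ) + τ * Real.sqrt r) / Fintype.card G < ∑ α, Z1 χ U d₁ l α ^ 2)
      ≤ 3 * (Fintype.card G : ℝ) * Real.exp (-τ / 12) := by
  have hn : (0 : ℝ) < Fintype.card G := card_pos_real
  have h1 := frac_union (Finset.univ : Finset G)
    (fun d₁ : G → ℤˣ => ∃ l, ((r : ℝ) + τ * Real.sqrt r) / Fintype.card G < ∑ α, Z1 χ U d₁ l α ^ 2)
    (fun l d₁ => ((r : ℝ) + τ * Real.sqrt r) / Fintype.card G < ∑ α, Z1 χ U d₁ l α ^ 2)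
    (fun d hd => by obtain ⟨a, ha⟩ := hd; exact ⟨a, Finset.mem_univ _, ha⟩)
  refine h1.trans ?_
  have h2 : ∀ l ∈ (Finset.univ : Finset G), frac (fun d₁ : G → ℤˣ =>
      ((r : ℝ) + τ * Real.sqrt r) / Fintype.card G < ∑ α, Z1 χ U d₁ l α ^ 2) ≤ 3 * Real.exp (-τ / 12) := by
    intro l _
    refine le_trans (frac_mono ?_) (chaos_tail (Matrix.diagonal (χ l) * (U * Uᵀ) * Matrix.diagonal (χ l))
      (B_OB h hU l l) hr (B_fr h hU l l) τ)
    intro d hd
    have h3 : ∑ α, Z1 χ U d l α ^ 2 = (Z1 χ U d * (Z1 χ U d)ᵀ) l l := by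
      rw [Matrix.mul_apply]
      refine Finset.sum_congr rfl fun α _ => ?_
      rw [Matrix.transpose_apply, _root_.sq]
    rw [h3] at hd
    unfold Z1 at hd
    rw [FDZ_entry, div_lt_div_iff_of_pos_right hn] at hd
    rw [B_trace h, h.two]
    simp_rw [chi_zero h, one_mul]
    rw [proj_trace hU]
    refine lt_of_lt_of_le ?_ (le_abs_self _)
    linarith
  refine (Finset.sum_le_sum h2).trans (le_of_eq ?_)
  rw [Finset.sum_const, Finset.card_univ, nsmul_eq_mul]
  ring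

theorem flat_prob (h : Bichar G χ) {r : ℕ} (hr : 1 ≤ r) (U : Matrix G (Fin r) ℝ) (hU : Uᵀ * U = 1)
    (τ : ℝ) (hτ : 0 ≤ τ) :
    avg (fun d₁ : G → ℤˣ => frac (fun d₂ => ¬ Flat (Zm χ U d₁ d₂) (2 * τ * Real.sqrt r / Fintype.card G)))
      ≤ 6 * (Fintype.card G : ℝ) ^ 2 * Real.exp (-τ / 12) := by
  classical
  have hn : (0 : ℝ) < Fintype.card G := card_pos_real
  have hn1 : (1 : ℝ) ≤ Fintype.card G := by exact_mod_cast Fintype.card_pos
  set bad : (G → ℤˣ) → Prop := fun d₁ => ∃ a : G, a ≠ 0 ∧ τ * Real.sqrt r < |∑ i, χ a i * (Z1 χ U d₁ * (Z1 χ U d₁)ᵀ) i i| with hbad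
  have hT := T_prob h hr U hU τ
  have h1 : ∀ d₁ : G → ℤˣ, frac (fun d₂ => ¬ Flat (Zm χ U d₁ d₂) (2 * τ * Real.sqrt r / Fintype.card G)) ≤
      (if bad d₁ then 1 else 0) + (Fintype.card G : ℝ) ^ 2 * (3 * Real.exp (-τ / 12)) := by
    intro d₁
    by_cases hb : bad d₁
    · rw [if_pos hb]
      have := frac_le_one (fun d₂ => ¬ Flat (Zm χ U d₁ d₂) (2 * τ * Real.sqrt r / Fintype.card G))
      have h2 : 0 ≤ (Fintype.card G : ℝ) ^ 2 * (3 * Real.exp (-τ / 12)) := by positivity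
      linarith
    · rw [if_neg hb, zero_add]
      rw [hbad] at hb
      push Not at hb
      set Z := Z1 χ U d₁ with hZ
      have hZi : Zᵀ * Z = 1 := Z1_isom h hU d₁
      have h2 := frac_union (Finset.univ : Finset (G × G))
        (fun d₂ : G → ℤˣ => ¬ Flat (Zm χ U d₁ d₂) (2 * τ * Real.sqrt r / Fintype.card G))
        (fun p d₂ => τ * Real.sqrt r < |qform (Matrix.diagonal (χ p.1) * (Z * Zᵀ) * Matrix.diagonal (χ p.2)) d₂
          - ∑ i, (Matrix.diagonal (χ p.1) * (Z * Zᵀ) * Matrix.diagonal (χ p.2)) i i|)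
        (by
          intro d₂ hd
          by_contra hcon
          push Not at hcon
          apply hd
          intro u v
          have h3 := hcon (u, v) (Finset.mem_univ _)
          simp only at h3
          rw [B_trace h] at h3
          have h4 : (Zm χ U d₁ d₂ * (Zm χ U d₁ d₂)ᵀ) u v
              = qform (Matrix.diagonal (χ u) * (Z * Zᵀ) * Matrix.diagonal (χ v)) d₂ / Fintype.card G := by
            unfold Zm
            rw [FDZ_entry]
          rw [h4]
          set q := qform (Matrix.diagonal (χ u) * (Z * Zᵀ) * Matrix.diagonal (χ v)) d₂ with hq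
          have hτr : 0 ≤ τ * Real.sqrt r := by positivity
          by_cases huv : u = v
          · rw [if_pos huv, ← sub_div, abs_div, abs_of_pos hn]
            apply div_le_div_of_nonneg_right _ hn.le
            rw [huv, h.two] at h3
            simp_rw [chi_zero h, one_mul] at h3
            rw [proj_trace hZi] at h3
            linarith
          · rw [if_neg huv, sub_zero, abs_div, abs_of_pos hn]
            apply div_le_div_of_nonneg_right _ hn.le
            have huv' : u + v ≠ 0 := by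
              intro h5
              apply huv
              have h6 := congrArg (fun z => z + v) h5
              simp only [zero_add] at h6
              rw [add_assoc, h.two, add_zero] at h6
              exact h6
            have h5 := hb (u + v) huv'
            have h6 : |q| ≤ |q - ∑ i, χ (u + v) i * (Z * Zᵀ) i i| + |∑ i, χ (u + v) i * (Z * Zᵀ) i i| := by
              have := abs_add_le (q - ∑ i, χ (u + v) i * (Z * Zᵀ) i i) (∑ i, χ (u + v) i * (Z * Zᵀ) i i)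
              rwa [sub_add_cancel] at this
            linarith)
      refine h2.trans ?_
      have h3 : ∀ p ∈ (Finset.univ : Finset (G × G)), frac (fun d₂ : G → ℤˣ => τ * Real.sqrt r <
          |qform (Matrix.diagonal (χ p.1) * (Z * Zᵀ) * Matrix.diagonal (χ p.2)) d₂
          - ∑ i, (Matrix.diagonal (χ p.1) * (Z * Zᵀ) * Matrix.diagonal (χ p.2)) i i|) ≤ 3 * Real.exp (-τ / 12) := by
        intro p _
        exact chaos_tail (Matrix.diagonal (χ p.1) * (Z * Zᵀ) * Matrix.diagonal (χ p.2))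
          (B_OB h hZi p.1 p.2) hr (B_fr h hZi p.1 p.2) τ
      refine (Finset.sum_le_sum h3).trans (le_of_eq ?_)
      rw [Finset.sum_const, Finset.card_univ, Fintype.card_prod, nsmul_eq_mul]
      push_cast
      ring
  refine (avg_mono h1).trans ?_
  rw [avg_add, avg_const]
  have h2 : avg (fun d₁ => if bad d₁ then (1:ℝ) else 0) ≤ (Fintype.card G : ℝ) * (3 * Real.exp (-τ / 12)) := by
    refine le_trans (le_of_eq ?_) hT
    unfold frac
    congr 1
    funext d
    by_cases hb : bad d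
    · rw [if_pos hb, if_pos hb]
    · rw [if_neg hb, if_neg hb]
  have h3 : (Fintype.card G : ℝ) * (3 * Real.exp (-τ / 12)) ≤ (Fintype.card G : ℝ) ^ 2 * (3 * Real.exp (-τ / 12)) := by
    apply mul_le_mul_of_nonneg_right _ (by positivity)
    nlinarith
  calc _ ≤ (Fintype.card G : ℝ) ^ 2 * (3 * Real.exp (-τ / 12)) + (Fintype.card G : ℝ) ^ 2 * (3 * Real.exp (-τ / 12)) :=
        add_le_add (h2.trans h3) le_rfl
    _ = _ := by ring

end flat

end SRHT
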