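import Pool.Agent.Lib.SRHT.Full.Rec2

/-!
The recursion for the trace moments.
-/

open Finset Matrix
open scoped BigOperators

namespace SRHT

variable {ι : Type*} [Fintype ι] [DecidableEq ι]

section pointwise

variable {Q : Matrix ι ι ℝ} (hQs : Qᵀ = Q) (hQ : Q * Q = Q) {α : ℝ} (hα0 : 0 ≤ α) (hα1 : α ≤ 1)
  {c B : ℝ} (hc : 0 ≤ c) (hB : 0 < B) {J N : ℕ} (hJ : Even J) (hJN : J ≤ N)

include hQs hQ hα0 hα1 hc hB hJ hJN

lemma pointwise_good (u : ι) (ξ ξ' : ι → Bool)
    (h1 : ∀ a ≤ J, |Gm Q α ξ a u u| ≤ c * B ^ a) (h2 : ∀ a ≤ J, |Gm Q α ξ' a u u| ≤ c * B ^ a) :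
    ∑ i ∈ Finset.range (N + 1), Gm Q α ξ i u u * Gm Q α ξ' (N - i) u u ≤
      (∑ i ∈ Finset.range J, c * B ^ i * (Hf Q (Xm Q α ξ') (N - i) u + Hf Q (Xm Q α ξ) (N - i) u))
        + (N + 1) * (c * B ^ J * (Hf Q (Xm Q α ξ) (N - J) u + Hf Q (Xm Q α ξ') (N - J) u)) := by
  set H := Hf Q (Xm Q α ξ) with hH
  set H' := Hf Q (Xm Q α ξ') with hH'
  have hH0 : ∀ p, 0 ≤ H p u := fun p => Hf_nonneg _ _ _ _
  have hH0' : ∀ p, 0 ≤ H' p u := fun p => Hf_nonneg _ _ _ _
  have hl : ∀ p ≤ J, H p u ≤ c * B ^ p := Hf_low hQs hQ α ξ hB hJ u h1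
  have hl' : ∀ p ≤ J, H' p u ≤ c * B ^ p := Hf_low hQs hQ α ξ' hB hJ u h2
  let T1 : ℕ → ℝ := fun i => if i < J then c * B ^ i * H' (N - i) u else 0
  let T2 : ℕ → ℝ := fun j => if j < J then c * B ^ j * H (N - j) u else 0
  let T3 : ℝ := c * B ^ J * (H (N - J) u + H' (N - J) u)
  have hT1 : ∀ i, 0 ≤ T1 i := by
    intro i; simp only [T1]; split_ifs
    · have := hH0' (N - i); positivity
    · exact le_rfl
  have hT2 : ∀ i, 0 ≤ T2 i := by
    intro i; simp only [T2]; split_ifs
    · have := hH0 (N - i); positivity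
    · exact le_rfl
  have hT3 : 0 ≤ T3 := by
    have := hH0 (N - J); have := hH0' (N - J); simp only [T3]; positivity
  have hterm : ∀ i ∈ Finset.range (N + 1), Gm Q α ξ i u u * Gm Q α ξ' (N - i) u u ≤ T1 i + T2 (N - i) + T3 := by
    intro i hi
    rw [Finset.mem_range] at hi
    have h3 : Gm Q α ξ i u u * Gm Q α ξ' (N - i) u u ≤ H i u * H' (N - i) u := by
      refine (le_abs_self _).trans ?_
      rw [abs_mul]
      exact mul_le_mul (abs_Gm_le hQs hQ α ξ i u) (abs_Gm_le hQs hQ α ξ' _ u) (abs_nonneg _) (hH0 i)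
    refine h3.trans ?_
    by_cases hi1 : i < J
    · have h4 : H i u * H' (N - i) u ≤ T1 i := by
        simp only [T1, if_pos hi1]
        exact mul_le_mul_of_nonneg_right (hl i hi1.le) (hH0' _)
      linarith [hT2 (N - i)]
    · by_cases hi2 : N - i < J
      · have h4 : H i u * H' (N - i) u ≤ T2 (N - i) := by
          simp only [T2, if_pos hi2]
          have h5 : N - (N - i) = i := by omega
          rw [h5, mul_comm (c * B ^ (N - i))]
          exact mul_le_mul_of_nonneg_left (hl' _ hi2.le) (hH0 _)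
        linarith [hT1 i]
      · push Not at hi1 hi2
        have h4 := Hf_rearr Q (Xm Q α ξ) (Xm Q α ξ') u hi1 hi2
        have h5 : i + (N - i) - J = N - J := by omega
        rw [h5] at h4
        have h6 : H (N - J) u * H' J u ≤ H (N - J) u * (c * B ^ J) :=
          mul_le_mul_of_nonneg_left (hl' J le_rfl) (hH0 _)
        have h7 : H J u * H' (N - J) u ≤ (c * B ^ J) * H' (N - J) u :=
          mul_le_mul_of_nonneg_right (hl J le_rfl) (hH0' _)
        have h8 : T3 = H (N - J) u * (c * B ^ J) + (c * B ^ J) * H' (N - J) u := by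
          simp only [T3]; ring
        have := hT1 i
        have := hT2 (N - i)
        linarith
  refine (Finset.sum_le_sum hterm).trans (le_of_eq ?_)
  rw [Finset.sum_add_distrib, Finset.sum_add_distrib, Finset.sum_const, Finset.card_range, nsmul_eq_mul]
  have hs1 : ∀ T : ℕ → ℝ, ∑ i ∈ Finset.range (N + 1), (if i < J then T i else 0) = ∑ i ∈ Finset.range J, T i := by
    intro T
    rw [← Finset.sum_filter]
    congr 1
    ext i
    simp only [Finset.mem_filter, Finset.mem_range]
    omega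
  have hs2 : ∑ i ∈ Finset.range (N + 1), T2 (N - i) = ∑ i ∈ Finset.range (N + 1), T2 i := by
    have := Finset.sum_range_reflect T2 (N + 1)
    simpa using this
  rw [hs2, hs1, hs1, ← Finset.sum_add_distrib]
  push_cast
  congr 1
  refine Finset.sum_congr rfl fun i _ => ?_
  ring

lemma pointwise_bound (bad : (ι → Bool) → Prop) [DecidablePred bad]
    (hgood : ∀ ξ, ¬ bad ξ → ∀ u, ∀ a ≤ J, |Gm Q α ξ a u u| ≤ c * B ^ a) (u : ι) (ξ ξ' : ι → Bool) :
    ∑ i ∈ Finset.range (N + 1), Gm Q α ξ i u u * Gm Q α ξ' (N - i) u u ≤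
      (∑ i ∈ Finset.range J, c * B ^ i * (Hf Q (Xm Q α ξ') (N - i) u + Hf Q (Xm Q α ξ) (N - i) u))
        + (N + 1) * (c * B ^ J * (Hf Q (Xm Q α ξ) (N - J) u + Hf Q (Xm Q α ξ') (N - J) u))
        + (N + 1) * ((if bad ξ then 1 else 0) + (if bad ξ' then 1 else 0)) := by
  have hH0 : ∀ ξ p, 0 ≤ Hf Q (Xm Q α ξ) p u := fun ξ p => Hf_nonneg _ _ _ _
  have hP1 : 0 ≤ ∑ i ∈ Finset.range J, c * B ^ i * (Hf Q (Xm Q α ξ') (N - i) u + Hf Q (Xm Q α ξ) (N - i) u) := by
    refine Finset.sum_nonneg fun i _ => ?_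
    have := hH0 ξ (N - i); have := hH0 ξ' (N - i); positivity
  have hP2 : 0 ≤ ((N : ℝ) + 1) * (c * B ^ J * (Hf Q (Xm Q α ξ) (N - J) u + Hf Q (Xm Q α ξ') (N - J) u)) := by
    have := hH0 ξ (N - J); have := hH0 ξ' (N - J); positivity
  by_cases hb : bad ξ ∨ bad ξ'
  · have h1 : ∑ i ∈ Finset.range (N + 1), Gm Q α ξ i u u * Gm Q α ξ' (N - i) u u ≤ (N + 1) * 1 := by
      have : ∀ i ∈ Finset.range (N + 1), Gm Q α ξ i u u * Gm Q α ξ' (N - i) u u ≤ 1 := by
        intro i _
        refine (le_abs_self _).trans ?_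
        rw [abs_mul]
        have h2 := (abs_Gm_le hQs hQ α ξ i u).trans (Hf_le_one hQs hQ α ξ hα0 hα1 i u)
        have h3 := (abs_Gm_le hQs hQ α ξ' (N - i) u).trans (Hf_le_one hQs hQ α ξ' hα0 hα1 (N - i) u)
        exact mul_le_one₀ h2 (abs_nonneg _) h3
      refine (Finset.sum_le_sum this).trans (le_of_eq ?_)
      rw [Finset.sum_const, Finset.card_range, nsmul_eq_mul]; push_cast; ring
    have h2 : (1 : ℝ) ≤ (if bad ξ then 1 else 0) + (if bad ξ' then 1 else 0) := by
      rcases hb with h | h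
      · rw [if_pos h]; split_ifs <;> norm_num
      · rw [if_pos h]; split_ifs <;> norm_num
    have h3 : ((N : ℝ) + 1) * 1 ≤ (N + 1) * ((if bad ξ then 1 else 0) + (if bad ξ' then 1 else 0)) :=
      mul_le_mul_of_nonneg_left h2 (by positivity)
    linarith
  · push Not at hb
    have h1 := pointwise_good hQs hQ hα0 hα1 hc hB hJ hJN u ξ ξ' (hgood ξ hb.1 u) (hgood ξ' hb.2 u)
    rw [if_neg hb.1, if_neg hb.2]
    linarith

end pointwise

section expect

variable {Q : Matrix ι ι ℝ} (hQs : Qᵀ = Q) (hQ : Q * Q = Q) {α : ℝ} (hα0 : 0 ≤ α) (hα1 : α ≤ 1)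

include hα0 hα1

lemma expect_true_le (f : (ι → Bool) → ℝ) (u : ι) (hf : ∀ ξ, 0 ≤ f ξ) :
    α * (1 - α) * BE α (fun ξ => f (Function.update ξ u true)) ≤ BE α (fun ξ => if ξ u then f ξ else 0) := by
  rw [BE_ite_true]
  have h1 : 0 ≤ BE α (fun ξ => f (Function.update ξ u true)) := BE_nonneg hα0 hα1 fun _ => hf _
  nlinarith [mul_nonneg hα0 h1, mul_nonneg hα0 (mul_nonneg hα0 h1)]

lemma expect_false_le (f : (ι → Bool) → ℝ) (u : ι) (hf : ∀ ξ, 0 ≤ f ξ) :
    α * (1 - α) * BE α (fun ξ => f (Function.update ξ u false)) ≤ α * BE α f := by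
  have h1 : (1 - α) * BE α (fun ξ => f (Function.update ξ u false)) ≤ BE α f := by
    rw [← BE_ite_false]
    refine BE_mono hα0 hα1 fun ξ => ?_
    split_ifs
    · exact hf ξ
    · exact le_rfl
  calc α * (1 - α) * BE α (fun ξ => f (Function.update ξ u false))
      = α * ((1 - α) * BE α (fun ξ => f (Function.update ξ u false))) := by ring
    _ ≤ _ := mul_le_mul_of_nonneg_left h1 hα0

include hQs hQ

lemma Etrue_le (p : ℕ) : ∑ u, α * (1 - α) * BE α (fun ξ => Hf Q (Xm Q α (Function.update ξ u true)) p u)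
    ≤ BE α (fun ξ => Sf (Xm Q α ξ) (p + 1)) + α * BE α (fun ξ => Sf (Xm Q α ξ) p) := by
  have h1 : ∑ u, α * (1 - α) * BE α (fun ξ => Hf Q (Xm Q α (Function.update ξ u true)) p u)
      ≤ ∑ u, BE α (fun ξ => if ξ u then Hf Q (Xm Q α ξ) p u else 0) :=
    Finset.sum_le_sum fun u _ => expect_true_le hα0 hα1 (fun ξ => Hf Q (Xm Q α ξ) p u) u
      (fun ξ => Hf_nonneg _ _ _ _)
  refine h1.trans ?_
  rw [← BE_sum, ← BE_mul_left, ← BE_add]
  exact BE_mono hα0 hα1 fun ξ => sum_ind_Hf_le hQs hQ α ξ hα0 p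

lemma Efalse_le (p : ℕ) : ∑ u, α * (1 - α) * BE α (fun ξ => Hf Q (Xm Q α (Function.update ξ u false)) p u)
    ≤ α * BE α (fun ξ => Sf (Xm Q α ξ) p) := by
  have h1 : ∑ u, α * (1 - α) * BE α (fun ξ => Hf Q (Xm Q α (Function.update ξ u false)) p u)
      ≤ ∑ u, α * BE α (fun ξ => Hf Q (Xm Q α ξ) p u) :=
    Finset.sum_le_sum fun u _ => expect_false_le hα0 hα1 (fun ξ => Hf Q (Xm Q α ξ) p u) u
      (fun ξ => Hf_nonneg _ _ _ _)
  refine h1.trans ?_
  rw [← Finset.mul_sum, ← BE_sum]
  exact mul_le_mul_of_nonneg_left (BE_mono hα0 hα1 fun ξ => sum_Hf_le hQs hQ α ξ p) hα0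

end expect

/-- lower moments in terms of the top one -/
lemma Sf_lower (X : Matrix ι ι ℝ) {L : ℝ} (hL : 0 < L) {m s : ℕ} (hs : s ≤ m) :
    Sf X (m - s) ≤ (Fintype.card ι : ℝ) * (L / Real.exp 1) ^ (m - s) + (Real.exp 1 / L) ^ s * Sf X m := by
  unfold Sf
  have h1 : ∀ e, |specx X e| ^ (m - s) ≤ (L / Real.exp 1) ^ (m - s) + (Real.exp 1 / L) ^ s * |specx X e| ^ m := by
    intro e
    set x := |specx X e|
    have hx : 0 ≤ x := abs_nonneg _
    have he := Real.exp_pos 1
    rcases le_total x (L / Real.exp 1) with h | h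
    · have := pow_le_pow_left₀ hx h (m - s)
      have h2 : 0 ≤ (Real.exp 1 / L) ^ s * x ^ m := by positivity
      linarith
    · have h2 : 1 ≤ (Real.exp 1 / L) * x := by
        rw [div_mul_eq_mul_div, le_div_iff₀ hL, one_mul]
        rw [div_le_iff₀ he] at h
        linarith
      have h3 : 1 ≤ ((Real.exp 1 / L) * x) ^ s := one_le_pow₀ h2
      have h4 : x ^ (m - s) ≤ (Real.exp 1 / L) ^ s * x ^ m := by
        calc x ^ (m - s) = 1 * x ^ (m - s) := (one_mul _).symm
          _ ≤ ((Real.exp 1 / L) * x) ^ s * x ^ (m - s) := mul_le_mul_of_nonneg_right h3 (by positivity)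
          _ = (Real.exp 1 / L) ^ s * (x ^ s * x ^ (m - s)) := by rw [mul_pow]; ring
          _ = _ := by rw [← pow_add]; congr 2; omega
      have h5 : 0 ≤ (L / Real.exp 1) ^ (m - s) := by positivity
      linarith
  refine (Finset.sum_le_sum fun e _ => h1 e).trans (le_of_eq ?_)
  rw [Finset.sum_add_distrib, Finset.sum_const, Finset.card_univ, nsmul_eq_mul, ← Finset.mul_sum]

theorem trace_rec (Q : Matrix ι ι ℝ) (hQs : Qᵀ = Q) (hQ : Q * Q = Q) {b α : ℝ} (hb : 0 < b) (hbα : b ≤ α)
    (hα : α ≤ 1) (bad : (ι → Bool) → Prop) [DecidablePred bad] (J m : ℕ) (hJ : Even J) (hm : Even m) (hJm : J + 2 ≤ m)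
    (hmJ : (m : ℝ) ≤ 2 ^ J) (hn : (Fintype.card ι : ℝ) ≤ Real.exp m)
    (hgood : ∀ ξ, ¬ bad ξ → ∀ u, ∀ a ≤ J, |Gm Q α ξ a u u| ≤ 4 * b * (4 * Real.sqrt (α * b)) ^ a)
    (hbad : 4 * (Fintype.card ι : ℝ) * m * BE α (fun ξ => if bad ξ then 1 else 0) < (400 * Real.sqrt (α * b)) ^ m) :
    BE α (fun ξ => (Xm Q α ξ ^ m).trace) < (400 * Real.sqrt (α * b)) ^ m := by
  have hα0 : 0 < α := lt_of_lt_of_le hb hbα
  set w := Real.sqrt (α * b) with hw
  have hw0 : 0 < w := Real.sqrt_pos.2 (by positivity)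
  have hw2 : w ^ 2 = α * b := Real.sq_sqrt (by positivity)
  have hbw : b ≤ w := by
    apply Real.le_sqrt_of_sq_le
    nlinarith
  obtain ⟨N, rfl⟩ : ∃ N, m = N + 2 := ⟨m - 2, by omega⟩
  have hJN : J ≤ N := by omega
  set L := 400 * w with hL
  have hL0 : 0 < L := by positivity
  set B := 4 * w with hB
  have hB0 : 0 < B := by positivity
  set c := 4 * b with hc
  have hc0 : 0 < c := by positivity
  set f := BE α (fun ξ => (Xm Q α ξ ^ (N + 2)).trace) with hf
  set Pb := BE α (fun ξ : ι → Bool => if bad ξ then (1 : ℝ) else 0) with hPb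
  set n : ℝ := (Fintype.card ι : ℝ) with hn'
  let M : ℕ → ℝ := fun p => BE α (fun ξ => Sf (Xm Q α ξ) p)
  have hM0 : ∀ p, 0 ≤ M p := fun p => BE_nonneg hα0.le hα fun ξ => Sf_nonneg _ _
  have hfM : f = M (N + 2) := by
    simp only [M, hf]
    congr 1
    funext ξ
    exact trace_pow_even (Xm_symm hQs α ξ) hm
  have hPb0 : 0 ≤ Pb := BE_nonneg hα0.le hα fun ξ => by split_ifs <;> norm_num
  -- the recursion inequality
  have hrec : f ≤ (∑ i ∈ Finset.range J, c * B ^ i * (M (N - i + 1) + 2 * α * M (N - i)))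
      + (N + 1) * (c * B ^ J * (M (N - J + 1) + 2 * α * M (N - J))) + (N + 1) * (2 * (n * Pb)) := by
    have h1 : f = ∑ u, α * (1 - α) *
      BE α (fun ξ => ∑ i ∈ Finset.range (N + 1), Gm Q α (Function.update ξ u true) i u u *
        Gm Q α (Function.update ξ u false) (N - i) u u) := trace_identity hQ α N
    have hαα : 0 ≤ α * (1 - α) := mul_nonneg hα0.le (by linarith)
    -- abbreviations for the expectations
    let Et : ℕ → ℝ := fun p => ∑ u, α * (1 - α) * BE α (fun ξ => Hf Q (Xm Q α (Function.update ξ u true)) p u)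
    let Ef : ℕ → ℝ := fun p => ∑ u, α * (1 - α) * BE α (fun ξ => Hf Q (Xm Q α (Function.update ξ u false)) p u)
    have hEt : ∀ p, Et p ≤ M (p + 1) + α * M p := fun p => Etrue_le hQs hQ hα0.le hα p
    have hEf : ∀ p, Ef p ≤ α * M p := fun p => Efalse_le hQs hQ hα0.le hα p
    have hbt : ∑ u, α * (1 - α) * BE α (fun ξ => if bad (Function.update ξ u true) then (1 : ℝ) else 0) ≤ n * Pb := by
      have : ∀ u ∈ (Finset.univ : Finset ι), α * (1 - α) * BE α (fun ξ => if bad (Function.update ξ u true) then (1 : ℝ) else 0) ≤ Pb := by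
        intro u _
        refine (expect_true_le hα0.le hα (fun ξ => if bad ξ then (1 : ℝ) else 0) u
          (fun ξ => by split_ifs <;> norm_num)).trans ?_
        refine BE_mono hα0.le hα fun ξ => ?_
        split_ifs <;> norm_num
      refine (Finset.sum_le_sum this).trans (le_of_eq ?_)
      rw [Finset.sum_const, Finset.card_univ, nsmul_eq_mul]
    have hbf : ∑ u, α * (1 - α) * BE α (fun ξ => if bad (Function.update ξ u false) then (1 : ℝ) else 0) ≤ n * Pb := by
      have : ∀ u ∈ (Finset.univ : Finset ι), α * (1 - α) * BE α (fun ξ => if bad (Function.update ξ u false) then (1 : ℝ) else 0) ≤ Pb := by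
        intro u _
        refine (expect_false_le hα0.le hα (fun ξ => if bad ξ then (1 : ℝ) else 0) u
          (fun ξ => by split_ifs <;> norm_num)).trans ?_
        exact mul_le_of_le_one_left hPb0 hα
      refine (Finset.sum_le_sum this).trans (le_of_eq ?_)
      rw [Finset.sum_const, Finset.card_univ, nsmul_eq_mul]
    have h2 : f ≤ ∑ u, α * (1 - α) * BE α (fun ξ =>
        (∑ i ∈ Finset.range J, c * B ^ i * (Hf Q (Xm Q α (Function.update ξ u false)) (N - i) u
          + Hf Q (Xm Q α (Function.update ξ u true)) (N - i) u))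
        + (N + 1) * (c * B ^ J * (Hf Q (Xm Q α (Function.update ξ u true)) (N - J) u
          + Hf Q (Xm Q α (Function.update ξ u false)) (N - J) u))
        + (N + 1) * ((if bad (Function.update ξ u true) then 1 else 0)
          + (if bad (Function.update ξ u false) then 1 else 0))) := by
      rw [h1]
      refine Finset.sum_le_sum fun u _ => ?_
      apply mul_le_mul_of_nonneg_left _ hαα
      refine BE_mono hα0.le hα fun ξ => ?_
      exact pointwise_bound hQs hQ hα0.le hα hc0.le hB0 hJ hJN bad hgood u _ _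
    have h3 : ∑ u, α * (1 - α) * BE α (fun ξ =>
        (∑ i ∈ Finset.range J, c * B ^ i * (Hf Q (Xm Q α (Function.update ξ u false)) (N - i) u
          + Hf Q (Xm Q α (Function.update ξ u true)) (N - i) u))
        + (N + 1) * (c * B ^ J * (Hf Q (Xm Q α (Function.update ξ u true)) (N - J) u
          + Hf Q (Xm Q α (Function.update ξ u false)) (N - J) u))
        + (N + 1) * ((if bad (Function.update ξ u true) then 1 else 0)
          + (if bad (Function.update ξ u false) then 1 else 0)))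
        = (∑ i ∈ Finset.range J, c * B ^ i * (Ef (N - i) + Et (N - i)))
          + (N + 1) * (c * B ^ J * (Et (N - J) + Ef (N - J)))
          + (N + 1) * (∑ u, α * (1 - α) * BE α (fun ξ => if bad (Function.update ξ u true) then (1 : ℝ) else 0)
            + ∑ u, α * (1 - α) * BE α (fun ξ => if bad (Function.update ξ u false) then (1 : ℝ) else 0)) := by
      have h4 : ∀ u, BE α (fun ξ =>
        (∑ i ∈ Finset.range J, c * B ^ i * (Hf Q (Xm Q α (Function.update ξ u false)) (N - i) u
          + Hf Q (Xm Q α (Function.update ξ u true)) (N - i) u))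
        + (N + 1) * (c * B ^ J * (Hf Q (Xm Q α (Function.update ξ u true)) (N - J) u
          + Hf Q (Xm Q α (Function.update ξ u false)) (N - J) u))
        + (N + 1) * ((if bad (Function.update ξ u true) then 1 else 0)
          + (if bad (Function.update ξ u false) then 1 else 0)))
        = (∑ i ∈ Finset.range J, c * B ^ i * (BE α (fun ξ => Hf Q (Xm Q α (Function.update ξ u false)) (N - i) u)
            + BE α (fun ξ => Hf Q (Xm Q α (Function.update ξ u true)) (N - i) u)))
          + (N + 1) * (c * B ^ J * (BE α (fun ξ => Hf Q (Xm Q α (Function.update ξ u true)) (N - J) u)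
            + BE α (fun ξ => Hf Q (Xm Q α (Function.update ξ u false)) (N - J) u)))
          + (N + 1) * (BE α (fun ξ => if bad (Function.update ξ u true) then (1 : ℝ) else 0)
            + BE α (fun ξ => if bad (Function.update ξ u false) then (1 : ℝ) else 0)) := by
        intro u
        rw [BE_add, BE_add, BE_sum]
        congr 1
        · congr 1
          · refine Finset.sum_congr rfl fun i _ => ?_
            rw [BE_mul_left, BE_add]
          · rw [BE_mul_left, BE_mul_left, BE_add]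
        · rw [BE_mul_left, BE_add]
      have h5 : ∀ (A P R : ι → ℝ), ∑ u, α * (1 - α) * (A u + P u + R u)
          = ∑ u, α * (1 - α) * A u + ∑ u, α * (1 - α) * P u + ∑ u, α * (1 - α) * R u := by
        intro A P R
        rw [← Finset.sum_add_distrib, ← Finset.sum_add_distrib]
        refine Finset.sum_congr rfl fun u _ => ?_
        ring
      have h6 : ∀ (a : ℝ) (F G : ι → ℝ), ∑ u, α * (1 - α) * (a * (F u + G u))
          = a * (∑ u, α * (1 - α) * F u + ∑ u, α * (1 - α) * G u) := by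
        intro a F G
        rw [mul_add, Finset.mul_sum, Finset.mul_sum, ← Finset.sum_add_distrib]
        refine Finset.sum_congr rfl fun u _ => ?_
        ring
      have h7 : ∀ (F G : ι → ℕ → ℝ), ∑ u, α * (1 - α) * ∑ i ∈ Finset.range J, c * B ^ i * (F u (N - i) + G u (N - i))
          = ∑ i ∈ Finset.range J, c * B ^ i * (∑ u, α * (1 - α) * F u (N - i) + ∑ u, α * (1 - α) * G u (N - i)) := by
        intro F G
        simp_rw [Finset.mul_sum]
        rw [Finset.sum_comm]
        refine Finset.sum_congr rfl fun i _ => ?_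
        rw [← h6 (c * B ^ i) (fun u => F u (N - i)) (fun u => G u (N - i))]
      rw [Finset.sum_congr rfl (fun u _ => by rw [h4 u])]
      rw [h5]
      rw [h7 (fun u p => BE α (fun ξ => Hf Q (Xm Q α (Function.update ξ u false)) p u))
          (fun u p => BE α (fun ξ => Hf Q (Xm Q α (Function.update ξ u true)) p u))]
      rw [h6 ((N : ℝ) + 1)]
      congr 1
      congr 1
      have h8 : ∀ (F G : ι → ℝ), ∑ u, α * (1 - α) * (((N : ℝ) + 1) * (c * B ^ J * (F u + G u)))
          = (N + 1) * (c * B ^ J * (∑ u, α * (1 - α) * F u + ∑ u, α * (1 - α) * G u)) := by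
        intro F G
        rw [← h6, Finset.mul_sum]
        refine Finset.sum_congr rfl fun u _ => ?_
        ring
      exact h8 _ _
    rw [h3] at h2
    refine h2.trans ?_
    have h9 : ∑ i ∈ Finset.range J, c * B ^ i * (Ef (N - i) + Et (N - i))
        ≤ ∑ i ∈ Finset.range J, c * B ^ i * (M (N - i + 1) + 2 * α * M (N - i)) := by
      refine Finset.sum_le_sum fun i _ => ?_
      apply mul_le_mul_of_nonneg_left _ (by positivity)
      have := hEt (N - i); have := hEf (N - i); linarith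
    have h10 : ((N : ℝ) + 1) * (c * B ^ J * (Et (N - J) + Ef (N - J)))
        ≤ (N + 1) * (c * B ^ J * (M (N - J + 1) + 2 * α * M (N - J))) := by
      apply mul_le_mul_of_nonneg_left _ (by positivity)
      apply mul_le_mul_of_nonneg_left _ (by positivity)
      have := hEt (N - J); have := hEf (N - J); linarith
    have h11 : ((N : ℝ) + 1) * (∑ u, α * (1 - α) * BE α (fun ξ => if bad (Function.update ξ u true) then (1 : ℝ) else 0)
            + ∑ u, α * (1 - α) * BE α (fun ξ => if bad (Function.update ξ u false) then (1 : ℝ) else 0))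
        ≤ (N + 1) * (2 * (n * Pb)) := by
      apply mul_le_mul_of_nonneg_left _ (by positivity)
      linarith
    linarith
  by_contra hcon
  push Not at hcon
  -- lower moments
  set t := Real.exp 1 / L with ht
  have he1 := Real.exp_pos 1
  have ht0 : 0 < t := by positivity
  have hlow : ∀ s ≤ N + 2, M (N + 2 - s) ≤ 2 * t ^ s * f := by
    intro s hs
    have h1 : M (N + 2 - s) ≤ n * (L / Real.exp 1) ^ (N + 2 - s) + t ^ s * M (N + 2) := by
      have := BE_mono hα0.le hα (fun ξ => Sf_lower (Xm Q α ξ) hL0 hs)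
      rw [BE_add, BE_const, BE_mul_left] at this
      exact this
    have h2 : n * (L / Real.exp 1) ^ (N + 2 - s) ≤ t ^ s * L ^ (N + 2) := by
      have h3 : (L / Real.exp 1) ^ (N + 2 - s) * (L / Real.exp 1) ^ s = (L / Real.exp 1) ^ (N + 2) := by
        rw [← pow_add]; congr 1; omega
      have h4 : t ^ s * (L / Real.exp 1) ^ s = 1 := by
        rw [← mul_pow, ht]
        have : Real.exp 1 / L * (L / Real.exp 1) = 1 := by field_simp
        rw [this, one_pow]
      have h5 : (L / Real.exp 1) ^ (N + 2 - s) = t ^ s * (L / Real.exp 1) ^ (N + 2) := by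
        rw [← h3]
        calc (L / Real.exp 1) ^ (N + 2 - s) = (L / Real.exp 1) ^ (N + 2 - s) * (t ^ s * (L / Real.exp 1) ^ s) := by
              rw [h4, mul_one]
          _ = _ := by ring
      rw [h5, div_pow L (Real.exp 1) (N + 2)]
      have h6 : n ≤ Real.exp 1 ^ (N + 2) := by
        rw [← Real.exp_nat_mul, mul_one]; exact hn
      have h7 : 0 < Real.exp 1 ^ (N + 2) := by positivity
      calc n * (t ^ s * (L ^ (N + 2) / Real.exp 1 ^ (N + 2)))
          = (t ^ s * L ^ (N + 2)) * (n / Real.exp 1 ^ (N + 2)) := by ring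
        _ ≤ (t ^ s * L ^ (N + 2)) * 1 := by
            apply mul_le_mul_of_nonneg_left _ (by positivity)
            rw [div_le_one h7]; exact h6
        _ = _ := mul_one _
    have h8 : t ^ s * L ^ (N + 2) ≤ t ^ s * f := mul_le_mul_of_nonneg_left hcon (by positivity)
    rw [← hfM] at h1
    linarith
  have hf0 : 0 ≤ f := by rw [hfM]; exact hM0 _
  -- numerical constants
  have hBt : B * t = Real.exp 1 / 100 := by
    rw [ht, hL, hB]; field_simp; norm_num
  have hexp := Real.exp_one_lt_d9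
  have hBt2 : B * t ≤ 1 / 2 := by rw [hBt]; linarith
  set c0 := c * (2 * t + 4 * α * t ^ 2) with hc0'
  have hc00 : 0 ≤ c0 := by positivity
  have hc0s : 3 * c0 ≤ 1 / 2 := by
    have h1 : b * t ≤ Real.exp 1 / 400 := by
      rw [ht, hL]
      rw [mul_div_assoc', div_le_div_iff₀ (by positivity) (by norm_num)]
      nlinarith
    have h2 : α * b * t ^ 2 = Real.exp 1 ^ 2 / 160000 := by
      rw [← hw2, ht, hL]; field_simp; norm_num
    have h3 : c0 = 8 * (b * t) + 16 * (α * b * t ^ 2) := by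
      rw [hc0', hc]; ring
    rw [h3, h2]
    nlinarith
  have hterm : ∀ i, i ≤ J → c * B ^ i * (M (N - i + 1) + 2 * α * M (N - i)) ≤ (B * t) ^ i * c0 * f := by
    intro i hi
    have h1 := hlow (i + 1) (by omega)
    have h2 := hlow (i + 2) (by omega)
    have e1 : N + 2 - (i + 1) = N - i + 1 := by omega
    have e2 : N + 2 - (i + 2) = N - i := by omega
    rw [e1] at h1
    rw [e2] at h2
    have h3 : M (N - i + 1) + 2 * α * M (N - i) ≤ t ^ i * (2 * t + 4 * α * t ^ 2) * f := by
      have h4 : 2 * α * M (N - i) ≤ 2 * α * (2 * t ^ (i + 2) * f) := mul_le_mul_of_nonneg_left h2 (by positivity)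
      have h5 : t ^ i * (2 * t + 4 * α * t ^ 2) * f = 2 * t ^ (i + 1) * f + 2 * α * (2 * t ^ (i + 2) * f) := by
        ring
      linarith
    calc c * B ^ i * (M (N - i + 1) + 2 * α * M (N - i))
        ≤ c * B ^ i * (t ^ i * (2 * t + 4 * α * t ^ 2) * f) := mul_le_mul_of_nonneg_left h3 (by positivity)
      _ = (B * t) ^ i * c0 * f := by rw [hc0', mul_pow B t i]; ring
  have hsum : ∑ i ∈ Finset.range J, c * B ^ i * (M (N - i + 1) + 2 * α * M (N - i)) ≤ 2 * c0 * f := by
    have h1 : ∑ i ∈ Finset.range J, c * B ^ i * (M (N - i + 1) + 2 * α * M (N - i))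
        ≤ ∑ i ∈ Finset.range J, (1 / 2 : ℝ) ^ i * (c0 * f) := by
      refine Finset.sum_le_sum fun i hi => ?_
      refine (hterm i (Finset.mem_range.1 hi).le).trans ?_
      rw [mul_assoc]
      exact mul_le_mul_of_nonneg_right (pow_le_pow_left₀ (by positivity) hBt2 i) (by positivity)
    refine h1.trans ?_
    rw [← Finset.sum_mul]
    have h2 : ∑ i ∈ Finset.range J, (1 / 2 : ℝ) ^ i ≤ 2 := by
      have := Summable.sum_le_tsum (f := fun j : ℕ => (1 / 2 : ℝ) ^ j) (Finset.range J)
        (fun _ _ => by positivity) summable_geometric_two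
      rwa [tsum_geometric_two] at this
    calc (∑ i ∈ Finset.range J, (1 / 2 : ℝ) ^ i) * (c0 * f) ≤ 2 * (c0 * f) :=
          mul_le_mul_of_nonneg_right h2 (by positivity)
      _ = _ := by ring
  have hlast : ((N : ℝ) + 1) * (c * B ^ J * (M (N - J + 1) + 2 * α * M (N - J))) ≤ c0 * f := by
    have h1 := hterm J le_rfl
    have h2 : (B * t) ^ J ≤ (1 / 2) ^ J := pow_le_pow_left₀ (by positivity) hBt2 J
    have h3 : ((N : ℝ) + 1) * (1 / 2) ^ J ≤ 1 := by
      have h4 : ((N : ℝ) + 1) ≤ 2 ^ J := by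
        push_cast at hmJ; linarith
      calc ((N : ℝ) + 1) * (1 / 2) ^ J ≤ 2 ^ J * (1 / 2) ^ J := mul_le_mul_of_nonneg_right h4 (by positivity)
        _ = 1 := by rw [← mul_pow]; norm_num
    calc ((N : ℝ) + 1) * (c * B ^ J * (M (N - J + 1) + 2 * α * M (N - J)))
        ≤ (N + 1) * ((B * t) ^ J * c0 * f) := mul_le_mul_of_nonneg_left h1 (by positivity)
      _ ≤ (N + 1) * ((1 / 2) ^ J * c0 * f) := by
          apply mul_le_mul_of_nonneg_left _ (by positivity)
          exact mul_le_mul_of_nonneg_right (mul_le_mul_of_nonneg_right h2 hc00) hf0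
      _ = ((N + 1) * (1 / 2) ^ J) * (c0 * f) := by ring
      _ ≤ 1 * (c0 * f) := mul_le_mul_of_nonneg_right h3 (by positivity)
      _ = _ := one_mul _
  have hfin : f ≤ 3 * c0 * f + (N + 1) * (2 * (n * Pb)) := by linarith
  have hfin2 : f ≤ 1 / 2 * f + (N + 1) * (2 * (n * Pb)) := by
    have := mul_le_mul_of_nonneg_right hc0s hf0
    linarith
  have hn0 : 0 ≤ n := Nat.cast_nonneg _
  have h12 : ((N : ℝ) + 1) * (2 * (n * Pb)) ≤ 2 * n * ((N : ℝ) + 2) * Pb := by
    have : 0 ≤ n * Pb := by positivity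
    nlinarith
  push_cast at hbad
  have h13 : f ≤ 4 * n * ((N : ℝ) + 2) * Pb := by linarith
  linarith

end SRHT
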