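import Pool.Agent.Lib.SRHT.Full.Basic

/-!
# Moments of entries of alternating words
-/

open Finset Matrix
open scoped BigOperators

namespace SRHT

variable {ι : Type*} [Fintype ι] [DecidableEq ι]

/-! ### majorisation of polynomials -/

/-- coefficientwise majorisation -/
def Dom (P H : MvPolynomial ι ℝ) : Prop := ∀ m, |MvPolynomial.coeff m P| ≤ MvPolynomial.coeff m H

omit [Fintype ι] in
lemma Dom.mul {P H P' H' : MvPolynomial ι ℝ} (h : Dom P H) (h' : Dom P' H') :
    Dom (P * P') (H * H') := by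
  intro m
  rw [MvPolynomial.coeff_mul, MvPolynomial.coeff_mul]
  refine (Finset.abs_sum_le_sum_abs _ _).trans (Finset.sum_le_sum fun x _ => ?_)
  rw [abs_mul]
  exact mul_le_mul (h _) (h' _) (abs_nonneg _) ((abs_nonneg _).trans (h _))

omit [Fintype ι] [DecidableEq ι] in
lemma Dom.sum {κ : Type*} (s : Finset κ) {P H : κ → MvPolynomial ι ℝ}
    (h : ∀ i ∈ s, Dom (P i) (H i)) : Dom (∑ i ∈ s, P i) (∑ i ∈ s, H i) := by
  intro m
  rw [MvPolynomial.coeff_sum, MvPolynomial.coeff_sum]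
  exact (Finset.abs_sum_le_sum_abs _ _).trans (Finset.sum_le_sum fun x hx => h x hx m)

omit [Fintype ι] in
lemma Dom_C {c d : ℝ} (h : |c| ≤ d) : Dom (MvPolynomial.C c : MvPolynomial ι ℝ) (MvPolynomial.C d) := by
  intro m
  rw [MvPolynomial.coeff_C, MvPolynomial.coeff_C]
  split_ifs
  · exact h
  · simp

omit [Fintype ι] in
lemma Dom_X (i : ι) : Dom (MvPolynomial.X i : MvPolynomial ι ℝ) (MvPolynomial.X i) := by
  intro m
  rw [MvPolynomial.coeff_X]
  split_ifs <;> simp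

omit [Fintype ι] in
lemma Dom_one : Dom (1 : MvPolynomial ι ℝ) 1 := by
  have := Dom_C (ι := ι) (c := 1) (d := 1) (by simp)
  simpa using this

omit [Fintype ι] in
lemma Dom.pow {P H : MvPolynomial ι ℝ} (h : Dom P H) (n : ℕ) : Dom (P ^ n) (H ^ n) := by
  induction n with
  | zero => rw [pow_zero, pow_zero]; exact Dom_one
  | succ n ih => rw [pow_succ, pow_succ]; exact ih.mul h

/-- the word with formal diagonal -/
noncomputable def pw (E : Matrix ι ι ℝ) (j : ℕ) : Matrix ι ι (MvPolynomial ι ℝ) :=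
  E.map (MvPolynomial.C : ℝ →+* MvPolynomial ι ℝ) *
    (Matrix.diagonal MvPolynomial.X * E.map (MvPolynomial.C : ℝ →+* MvPolynomial ι ℝ)) ^ j

lemma eval_pw (E : Matrix ι ι ℝ) (α : ℝ) (ξ : ι → Bool) (j : ℕ) (u v : ι) :
    MvPolynomial.eval (dl α ξ) (pw E j u v) = word E α ξ j u v := by
  have h1 : ∀ M : Matrix ι ι (MvPolynomial ι ℝ), MvPolynomial.eval (dl α ξ) (M u v) =
      ((MvPolynomial.eval (dl α ξ)).mapMatrix M) u v := fun M => rfl
  rw [h1]
  have h2 : (MvPolynomial.eval (dl α ξ)).mapMatrix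
      (E.map (MvPolynomial.C : ℝ →+* MvPolynomial ι ℝ)) = E := by
    ext a b; simp
  have h3 : (MvPolynomial.eval (dl α ξ)).mapMatrix
      (Matrix.diagonal (MvPolynomial.X : ι → MvPolynomial ι ℝ)) = Dm α ξ := by
    ext a b
    simp only [RingHom.mapMatrix_apply, Matrix.map_apply, Dm, Matrix.diagonal_apply]
    split_ifs <;> simp
  unfold pw word
  rw [map_mul, map_pow, map_mul, h2, h3]

lemma dom_pw (E : Matrix ι ι ℝ) {θ : ℝ} (hE : ∀ i j, |E i j| ≤ θ) (j : ℕ) (u v : ι) :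
    Dom (pw E j u v) (MvPolynomial.C (θ ^ (j + 1)) * (∑ w, MvPolynomial.X w) ^ j) := by
  induction j generalizing v with
  | zero =>
    unfold pw
    rw [pow_zero, pow_zero, mul_one, mul_one, Matrix.map_apply, zero_add, pow_one]
    exact Dom_C (hE u v)
  | succ j ih =>
    have h1 : pw E (j + 1) u v = ∑ w, pw E j u w *
        (MvPolynomial.X w * MvPolynomial.C (E w v)) := by
      unfold pw
      rw [pow_succ, ← Matrix.mul_assoc, Matrix.mul_apply]
      refine Finset.sum_congr rfl fun w _ => ?_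
      rw [Matrix.diagonal_mul, Matrix.map_apply]
    have h2 : (MvPolynomial.C (θ ^ (j + 1 + 1)) * (∑ w, MvPolynomial.X w) ^ (j + 1) :
        MvPolynomial ι ℝ) = ∑ w, (MvPolynomial.C (θ ^ (j + 1)) * (∑ w, MvPolynomial.X w) ^ j) *
        (MvPolynomial.X w * MvPolynomial.C θ) := by
      rw [← Finset.mul_sum, ← Finset.sum_mul, pow_succ θ (j + 1), map_mul, pow_succ]
      ring
    rw [h1, h2]
    exact Dom.sum _ fun w _ => (ih w).mul ((Dom_X w).mul (Dom_C (hE w v)))

/-! ### product expectations -/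

section pe

variable {T : Type} [Fintype T]

/-- expectation under a product of a finitely supported distribution -/
noncomputable def PE (w : T → ℝ) (f : (ι → T) → ℝ) : ℝ := ∑ ω : ι → T, (∏ i, w (ω i)) * f ω

lemma PE_prod (w : T → ℝ) (g : ι → T → ℝ) :
    PE w (fun ω => ∏ i, g i (ω i)) = ∏ i, ∑ t, w t * g i t := by
  unfold PE
  rw [Finset.prod_univ_sum, Fintype.piFinset_univ]
  refine Finset.sum_congr rfl fun ω _ => ?_
  rw [← Finset.prod_mul_distrib]

lemma PE_mono {w : T → ℝ} (hw : ∀ t, 0 ≤ w t) {f g : (ι → T) → ℝ} (h : ∀ ω, f ω ≤ g ω) :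
    PE w f ≤ PE w g :=
  Finset.sum_le_sum fun ω _ => mul_le_mul_of_nonneg_left (h ω) (Finset.prod_nonneg fun i _ => hw _)

lemma PE_add (w : T → ℝ) (f g : (ι → T) → ℝ) : PE w (fun ω => f ω + g ω) = PE w f + PE w g := by
  unfold PE
  rw [← Finset.sum_add_distrib]
  exact Finset.sum_congr rfl fun ω _ => mul_add _ _ _

lemma PE_mul_left (w : T → ℝ) (c : ℝ) (f : (ι → T) → ℝ) : PE w (fun ω => c * f ω) = c * PE w f := by
  unfold PE
  rw [Finset.mul_sum]
  exact Finset.sum_congr rfl fun ω _ => by ring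

lemma PE_eval (w val : T → ℝ) (P : MvPolynomial ι ℝ) :
    PE w (fun ω => MvPolynomial.eval (fun i => val (ω i)) P) =
      ∑ d ∈ P.support, MvPolynomial.coeff d P * ∏ i, ∑ t, w t * val t ^ d i := by
  simp_rw [MvPolynomial.eval_eq']
  unfold PE
  simp_rw [Finset.mul_sum]
  rw [Finset.sum_comm]
  refine Finset.sum_congr rfl fun d _ => ?_
  have h := PE_prod (ι := ι) w (fun i t => val t ^ d i)
  rw [← h]
  unfold PE
  rw [Finset.mul_sum]
  exact Finset.sum_congr rfl fun ω _ => by ring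

lemma PE_eval_le {T' : Type} [Fintype T'] (w val : T → ℝ) (w' val' : T' → ℝ)
    (hm : ∀ s : ℕ, |∑ t, w t * val t ^ s| ≤ ∑ t, w' t * val' t ^ s) {P H : MvPolynomial ι ℝ}
    (h : Dom P H) :
    PE w (fun ω => MvPolynomial.eval (fun i => val (ω i)) P) ≤
      PE w' (fun ω => MvPolynomial.eval (fun i => val' (ω i)) H) := by
  rw [PE_eval, PE_eval]
  have hsub : P.support ⊆ H.support := by
    intro d hd
    rw [MvPolynomial.mem_support_iff] at hd ⊢
    intro h0
    have := h d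
    rw [h0] at this
    exact hd (abs_nonpos_iff.1 this)
  have hnn : ∀ d : ι →₀ ℕ, 0 ≤ ∏ i, ∑ t, w' t * val' t ^ d i := fun d =>
    Finset.prod_nonneg fun i _ => (abs_nonneg _).trans (hm _)
  calc ∑ d ∈ P.support, MvPolynomial.coeff d P * ∏ i, ∑ t, w t * val t ^ d i
      ≤ ∑ d ∈ P.support, MvPolynomial.coeff d H * ∏ i, ∑ t, w' t * val' t ^ d i := by
        refine Finset.sum_le_sum fun d _ => ?_
        refine (le_abs_self _).trans ?_
        rw [abs_mul, Finset.abs_prod]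
        exact mul_le_mul (h d) (Finset.prod_le_prod (fun i _ => abs_nonneg _) fun i _ => hm _)
          (Finset.prod_nonneg fun i _ => abs_nonneg _) ((abs_nonneg _).trans (h d))
    _ ≤ _ := Finset.sum_le_sum_of_subset_of_nonneg hsub fun d _ _ =>
        mul_nonneg ((abs_nonneg _).trans (h d)) (hnn d)

end pe

/-! ### the two distributions -/

/-- Bernoulli weights -/
noncomputable def wB (α : ℝ) (b : Bool) : ℝ := if b then α else 1 - α

/-- centred Bernoulli values -/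
noncomputable def vB (α : ℝ) (b : Bool) : ℝ := (if b then 1 else 0) - α

/-- weights of the majorising distribution -/
noncomputable def wE (α : ℝ) (t : Fin 3) : ℝ := ![α / 6, α / 3, 1 - α / 2] t

/-- values of the majorising distribution -/
noncomputable def vE (t : Fin 3) : ℝ := ![2, -1, 0] t

lemma moment_le {α : ℝ} (h0 : 0 ≤ α) (h1 : α ≤ 1) (s : ℕ) :
    |∑ t, wB α t * vB α t ^ s| ≤ ∑ t, wE α t * vE t ^ s := by
  have e1 : ∑ t, wB α t * vB α t ^ s = α * (1 - α) ^ s + (1 - α) * (-α) ^ s := by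
    rw [Fintype.sum_bool]
    simp [wB, vB]
  have e2 : ∑ t, wE α t * vE t ^ s = α / 6 * 2 ^ s + α / 3 * (-1) ^ s + (1 - α / 2) * 0 ^ s := by
    rw [Fin.sum_univ_three]
    simp [wE, vE]
  rw [e1, e2]
  rcases Nat.lt_or_ge s 2 with hs | hs
  · interval_cases s
    · simp only [pow_zero, mul_one]
      rw [show α + (1 - α) = 1 by ring, abs_one]
      linarith
    · simp only [pow_one]
      rw [show α * (1 - α) + (1 - α) * -α = 0 by ring, abs_zero]
      linarith
  · have h2 : |α * (1 - α) ^ s + (1 - α) * (-α) ^ s| ≤ α := by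
      have h3 : 0 ≤ 1 - α := by linarith
      have h4 : (1 - α) ^ s ≤ (1 - α) ^ 2 := pow_le_pow_of_le_one h3 (by linarith) hs
      have h5 : |(-α) ^ s| ≤ α ^ 2 := by
        rw [abs_pow, abs_neg, abs_of_nonneg h0]
        exact pow_le_pow_of_le_one h0 h1 hs
      calc |α * (1 - α) ^ s + (1 - α) * (-α) ^ s| ≤ |α * (1 - α) ^ s| + |(1 - α) * (-α) ^ s| :=
            abs_add_le _ _
        _ = α * (1 - α) ^ s + (1 - α) * |(-α) ^ s| := by
            rw [abs_mul, abs_mul, abs_of_nonneg h0, abs_of_nonneg h3,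
              abs_of_nonneg (pow_nonneg h3 s)]
        _ ≤ α * (1 - α) ^ 2 + (1 - α) * α ^ 2 := by
            have := mul_le_mul_of_nonneg_left h4 h0
            have := mul_le_mul_of_nonneg_left h5 h3
            linarith
        _ = α * (1 - α) := by ring
        _ ≤ α := by nlinarith
    refine h2.trans ?_
    rw [zero_pow (by omega : s ≠ 0), mul_zero, add_zero]
    rcases Nat.even_or_odd s with he | ho
    · rw [he.neg_one_pow]
      have h6 : (2 : ℝ) ^ 2 ≤ 2 ^ s := pow_le_pow_right₀ (by norm_num) hs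
      nlinarith
    · rw [ho.neg_one_pow]
      have h7 : 3 ≤ s := by
        rcases Nat.lt_or_ge s 3 with h8 | h8
        · exfalso
          have : s = 2 := by omega
          subst this
          exact absurd ho (by decide)
        · exact h8
      have h6 : (2 : ℝ) ^ 3 ≤ 2 ^ s := pow_le_pow_right₀ (by norm_num) h7
      nlinarith

lemma exp_two_term {x : ℝ} (hx : |x| ≤ 1) : Real.exp (2 * x) + 2 * Real.exp (-x) - 3 ≤ 6 * x ^ 2 := by
  have h1 := Real.exp_bound hx (n := 4) (by norm_num)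
  have h2 := Real.exp_bound (x := -x) (by rwa [abs_neg]) (n := 4) (by norm_num)
  simp only [Finset.sum_range_succ, Finset.sum_range_zero, Nat.factorial] at h1 h2
  norm_num at h1 h2
  have h3 : |x| ^ 4 = x ^ 4 := by
    rw [show (4 : ℕ) = 2 * 2 by rfl, pow_mul, pow_mul, sq_abs]
  rw [h3] at h1 h2
  have h4 := (abs_le.1 h1).2
  have h5 := (abs_le.1 h2).2
  have hx1 := (abs_le.1 hx).1
  have hx2 := (abs_le.1 hx).2
  set A := 1 + x + x ^ 2 / 2 + x ^ 3 / 6 + x ^ 4 * (5 / 96) with hA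
  have h6 : Real.exp x ≤ A := by rw [hA]; linarith
  have h7 : Real.exp (2 * x) ≤ A ^ 2 := by
    rw [two_mul, Real.exp_add, ← sq]
    exact pow_le_pow_left₀ (Real.exp_pos x).le h6 2
  have h8 : Real.exp (-x) ≤ 1 - x + x ^ 2 / 2 - x ^ 3 / 6 + x ^ 4 * (5 / 96) := by
    have e1 : (-x) ^ 3 = -x ^ 3 := by ring
    have e2 : (-x) ^ 2 = x ^ 2 := by ring
    rw [e1] at h5
    linarith
  have hp : ∀ n : ℕ, x ^ n ≤ 1 := by
    intro n
    have h9 : |x ^ n| ≤ 1 := by
      rw [abs_pow]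
      exact pow_le_one₀ (abs_nonneg x) hx
    exact (abs_le.1 h9).2
  have h10 : A ^ 2 + 2 * (1 - x + x ^ 2 / 2 - x ^ 3 / 6 + x ^ 4 * (5 / 96)) - 3 - 6 * x ^ 2 =
      x ^ 2 * (-3 + x + (19 / 24) * x ^ 2 + (13 / 48) * x ^ 3 + (23 / 288) * x ^ 4 +
        (5 / 288) * x ^ 5 + (25 / 9216) * x ^ 6) := by
    rw [hA]; ring
  have h11 : -3 + x + (19 / 24) * x ^ 2 + (13 / 48) * x ^ 3 + (23 / 288) * x ^ 4 +
        (5 / 288) * x ^ 5 + (25 / 9216) * x ^ 6 ≤ 0 := by
    have := hp 2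
    have := hp 3
    have := hp 4
    have := hp 5
    have := hp 6
    linarith
  have h12 := mul_nonpos_of_nonneg_of_nonpos (sq_nonneg x) h11
  linarith

lemma wE_nonneg {α : ℝ} (h0 : 0 ≤ α) (h1 : α ≤ 1) (t : Fin 3) : 0 ≤ wE α t := by
  fin_cases t
  · simp [wE]; positivity
  · simp [wE]; positivity
  · simp [wE]; linarith

lemma PE_exp_le {α : ℝ} (h0 : 0 ≤ α) (hα1 : α ≤ 1) {x : ℝ} (hx : |x| ≤ 1) :
    PE (ι := ι) (wE α) (fun ω => Real.exp (x * ∑ i, vE (ω i))) ≤
      Real.exp (α * x ^ 2 * Fintype.card ι) := by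
  have h1 : ∀ ω : ι → Fin 3, Real.exp (x * ∑ i, vE (ω i)) = ∏ i, Real.exp (x * vE (ω i)) := by
    intro ω
    rw [Finset.mul_sum, Real.exp_sum]
  simp_rw [h1]
  rw [PE_prod (ι := ι) (wE α) (fun _ t => Real.exp (x * vE t))]
  have h2 : ∑ t, wE α t * Real.exp (x * vE t) =
      1 + α / 6 * (Real.exp (2 * x) + 2 * Real.exp (-x) - 3) := by
    rw [Fin.sum_univ_three]
    simp [wE, vE]
    rw [mul_comm x 2]
    ring
  rw [h2, Finset.prod_const, Finset.card_univ]
  have h3 := exp_two_term hx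
  have h4 : 1 + α / 6 * (Real.exp (2 * x) + 2 * Real.exp (-x) - 3) ≤ Real.exp (α * x ^ 2) := by
    have h5 : α / 6 * (Real.exp (2 * x) + 2 * Real.exp (-x) - 3) ≤ α / 6 * (6 * x ^ 2) :=
      mul_le_mul_of_nonneg_left h3 (by positivity)
    have h6 := Real.add_one_le_exp (α * x ^ 2)
    linarith
  have h7 : 0 ≤ 1 + α / 6 * (Real.exp (2 * x) + 2 * Real.exp (-x) - 3) := by
    rw [← h2]
    exact Finset.sum_nonneg fun t _ => mul_nonneg (wE_nonneg h0 hα1 t) (Real.exp_pos _).le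
  calc _ ≤ Real.exp (α * x ^ 2) ^ Fintype.card ι := pow_le_pow_left₀ h7 h4 _
    _ = _ := by rw [← Real.exp_nat_mul]; ring_nf

lemma PE_pow_le {α : ℝ} (h0 : 0 ≤ α) (h1 : α ≤ 1) (hk : 1 ≤ α * Fintype.card ι) (N : ℕ) :
    PE (ι := ι) (wE α) (fun ω => (∑ i, vE (ω i)) ^ (2 * N)) ≤
      20 * ((2 * N).factorial : ℝ) * (α * Fintype.card ι) ^ N := by
  have hn : 0 < α * Fintype.card ι := by linarith
  set x := 1 / Real.sqrt (α * Fintype.card ι) with hx
  have hs : 0 < Real.sqrt (α * Fintype.card ι) := Real.sqrt_pos.2 hn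
  have hx0 : 0 < x := by positivity
  have hx2 : x ^ 2 = 1 / (α * Fintype.card ι) := by
    rw [hx, div_pow, one_pow, Real.sq_sqrt hn.le]
  have hx1 : |x| ≤ 1 := by
    rw [abs_of_pos hx0, hx, div_le_one hs]
    rw [show (1 : ℝ) = Real.sqrt 1 by rw [Real.sqrt_one]]
    exact Real.sqrt_le_sqrt hk
  have hpt : ∀ y : ℝ, y ^ (2 * N) ≤ ((2 * N).factorial : ℝ) * (α * Fintype.card ι) ^ N *
      (Real.exp (x * y) + Real.exp ((-x) * y)) := by
    intro y
    have e1 : (x * y) ^ (2 * N) ≤ ((2 * N).factorial : ℝ) *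
        (Real.exp (x * y) + Real.exp ((-x) * y)) := by
      have h2 := Real.pow_div_factorial_le_exp |x * y| (abs_nonneg _) (2 * N)
      rw [(even_two_mul N).pow_abs, div_le_iff₀ (by positivity)] at h2
      have h3 : Real.exp |x * y| ≤ Real.exp (x * y) + Real.exp ((-x) * y) := by
        rcases abs_cases (x * y) with ⟨h, _⟩ | ⟨h, _⟩
        · rw [h]
          linarith [Real.exp_pos ((-x) * y)]
        · rw [h, ← neg_mul]
          linarith [Real.exp_pos (x * y)]
      have h4 := mul_le_mul_of_nonneg_right h3 (by positivity : (0 : ℝ) ≤ ((2 * N).factorial : ℝ))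
      linarith
    have e2 : (α * Fintype.card ι) ^ N * x ^ (2 * N) = 1 := by
      rw [pow_mul, hx2, ← mul_pow, mul_one_div_cancel hn.ne', one_pow]
    calc y ^ (2 * N) = (α * Fintype.card ι) ^ N * x ^ (2 * N) * y ^ (2 * N) := by
          rw [e2, one_mul]
      _ = (α * Fintype.card ι) ^ N * (x * y) ^ (2 * N) := by
          rw [mul_pow x y]; ring
      _ ≤ (α * Fintype.card ι) ^ N * (((2 * N).factorial : ℝ) *
          (Real.exp (x * y) + Real.exp ((-x) * y))) :=
          mul_le_mul_of_nonneg_left e1 (by positivity)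
      _ = _ := by ring
  have h2 : PE (ι := ι) (wE α) (fun ω => (∑ i, vE (ω i)) ^ (2 * N)) ≤
      PE (ι := ι) (wE α) (fun ω => ((2 * N).factorial : ℝ) * (α * Fintype.card ι) ^ N *
        (Real.exp (x * ∑ i, vE (ω i)) + Real.exp ((-x) * ∑ i, vE (ω i)))) :=
    PE_mono (wE_nonneg h0 h1) fun ω => hpt _
  rw [PE_mul_left, PE_add] at h2
  have h3 := PE_exp_le (ι := ι) h0 h1 hx1
  have h4 := PE_exp_le (ι := ι) h0 h1 (x := -x) (by rwa [abs_neg])
  rw [neg_sq] at h4
  have h5 : α * x ^ 2 * Fintype.card ι = 1 := by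
    rw [hx2, mul_right_comm, mul_one_div_cancel hn.ne']
  rw [h5] at h3 h4
  have h6 := Real.exp_one_lt_d9
  have h7 : (0 : ℝ) ≤ ((2 * N).factorial : ℝ) * (α * Fintype.card ι) ^ N := by positivity
  calc _ ≤ _ := h2
    _ ≤ ((2 * N).factorial : ℝ) * (α * Fintype.card ι) ^ N * (Real.exp 1 + Real.exp 1) :=
        mul_le_mul_of_nonneg_left (add_le_add h3 h4) h7
    _ ≤ ((2 * N).factorial : ℝ) * (α * Fintype.card ι) ^ N * 20 :=
        mul_le_mul_of_nonneg_left (by linarith) h7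
    _ = _ := by ring

theorem word_moment (E : Matrix ι ι ℝ) {θ α : ℝ} (hθ : 0 ≤ θ) (hE : ∀ i j, |E i j| ≤ θ) (h0 : 0 ≤ α)
    (h1 : α ≤ 1) (hk : 1 ≤ α * Fintype.card ι) (j q : ℕ) (u v : ι) :
    BE α (fun ξ => (word E α ξ j u v) ^ (2 * q)) ≤
      20 * ((2 * q * j).factorial : ℝ) * (α * Fintype.card ι) ^ (q * j) * θ ^ (2 * q * (j + 1)) := by
  have hD := (dom_pw E hE j u v).pow (2 * q)
  have h2 := PE_eval_le (wB α) (vB α) (wE α) vE (moment_le h0 h1) hD
  have h3 : BE α (fun ξ => (word E α ξ j u v) ^ (2 * q)) =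
      PE (wB α) (fun ω => MvPolynomial.eval (fun i => vB α (ω i)) (pw E j u v ^ (2 * q))) := by
    unfold BE PE bw
    refine Finset.sum_congr rfl fun ξ _ => ?_
    simp only [map_pow]
    rw [← eval_pw]
    rfl
  rw [h3]
  refine h2.trans ?_
  have h4 : ∀ ω : ι → Fin 3, MvPolynomial.eval (fun i => vE (ω i))
      ((MvPolynomial.C (θ ^ (j + 1)) * (∑ w, MvPolynomial.X w) ^ j) ^ (2 * q)) =
      θ ^ (2 * q * (j + 1)) * (∑ i, vE (ω i)) ^ (2 * (q * j)) := by
    intro ω
    simp only [map_pow, map_mul, map_sum, MvPolynomial.eval_C, MvPolynomial.eval_X]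
    rw [mul_pow, ← pow_mul, ← pow_mul]
    congr 2 <;> ring
  simp_rw [h4]
  rw [PE_mul_left]
  have h5 := PE_pow_le (ι := ι) h0 h1 hk (q * j)
  have h6 := mul_le_mul_of_nonneg_left h5 (by positivity : (0 : ℝ) ≤ θ ^ (2 * q * (j + 1)))
  refine h6.trans (le_of_eq ?_)
  rw [show 2 * (q * j) = 2 * q * j by ring]
  ring

end SRHT
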