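import Pool.Agent.Lib.SRHT.Full.Alg
import Pool.Agent.Lib.SRHT.Full.Flat
import Pool.Agent.Lib.SRHT.Full.Bad
import Pool.Agent.Lib.SRHT.Full.Words
import Pool.Agent.Lib.SRHT.Full.Bern
import Pool.Agent.Lib.SRHT.Full.Rec3
import Pool.Agent.Lib.Helper57.Srht.Op

/-!
# S7: assembly of regime II (helper57)
-/

open Finset Matrix
open scoped BigOperators
open scoped Matrix.Norms.L2Operator

set_option linter.unusedSectionVars false

namespace SRHT

section regII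

variable {G : Type} [AddCommGroup G] [Fintype G] [DecidableEq G] {χ : G → G → ℝ}

/-- a symmetric matrix with a large quadratic form has large trace moments. -/
lemma trace_pow_ge {A : Type} [Fintype A] [DecidableEq A] (X : Matrix A A ℝ) (hX : Xᵀ = X) (v : A → ℝ) {s : ℝ}
    (hs : 0 ≤ s) (h : s * nsq v < |v ⬝ᵥ (X *ᵥ v)|) (q : ℕ) (hq : 0 < q) :
    s ^ (2 * q) ≤ Matrix.trace (X ^ (2 * q)) := by
  have h1 : |v ⬝ᵥ (X *ᵥ v)| ≤ ‖X‖ * nsq v := by
    rw [abs_le]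
    constructor
    · have h2 := Srht.qf_le (-X) v
      rw [norm_neg, Matrix.neg_mulVec, dotProduct_neg] at h2
      unfold nsq
      linarith
    · exact Srht.qf_le X v
  have h2 : s * nsq v < ‖X‖ * nsq v := lt_of_lt_of_le h h1
  have h3 : s < ‖X‖ := lt_of_mul_lt_mul_right h2 (nsq_nonneg v)
  exact (pow_le_pow_left₀ hs h3.le _).trans (Srht.opn_pow_le_trace X hX q hq)

lemma Xm_symm' {A : Type} [Fintype A] [DecidableEq A] (Q : Matrix A A ℝ) (hQ : Qᵀ = Q) (α : ℝ) (ξ : A → Bool) :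
    (Xm Q α ξ)ᵀ = Xm Q α ξ := by
  have hD : (Dm α ξ)ᵀ = Dm α ξ := by unfold Dm; rw [Matrix.diagonal_transpose]
  unfold Xm
  rw [Matrix.transpose_mul, Matrix.transpose_mul, hQ, hD, Matrix.mul_assoc]

/-- the sketch in terms of `Z`. -/
lemma nsq_Kmat (T : Finset G) {k : ℝ} (hk : 0 < k) {r : ℕ} (U : Matrix G (Fin r) ℝ) (d₁ d₂ : G → ℤˣ)
    (c : Fin r → ℝ) :
    nsq (Kmat χ T k d₁ d₂ *ᵥ (U *ᵥ c)) = (Fintype.card G : ℝ) / k * ∑ s ∈ T, (Zm χ U d₁ d₂ *ᵥ c) s ^ 2 := by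
  have hn : (0 : ℝ) < Fintype.card G := card_pos_real
  have hs0 : Real.sqrt (Fintype.card G) ≠ 0 := (Real.sqrt_pos.2 hn).ne'
  have h1 : Kmat χ T k d₁ d₂ *ᵥ (U *ᵥ c) = (Real.sqrt (Fintype.card G) / Real.sqrt k) •
      (Matrix.diagonal (indv T) *ᵥ (Zm χ U d₁ d₂ *ᵥ c)) := by
    rw [Matrix.mulVec_mulVec, Matrix.mulVec_mulVec, ← Matrix.smul_mulVec]
    congr 1
    unfold Kmat Zm Z1 Fm
    simp only [Matrix.mul_smul, Matrix.smul_mul, smul_smul, Matrix.mul_assoc]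
    congr 1
    field_simp
  rw [h1, nsq_smul, div_pow, Real.sq_sqrt hn.le, Real.sq_sqrt hk.le]
  congr 1
  unfold nsq indv
  have h5 : ∀ s, (Matrix.diagonal (fun s => if s ∈ T then (1 : ℝ) else 0) *ᵥ (Zm χ U d₁ d₂ *ᵥ c)) s ^ 2
      = if s ∈ T then (Zm χ U d₁ d₂ *ᵥ c) s ^ 2 else 0 := by
    intro s
    rw [Matrix.mulVec_diagonal]
    split_ifs <;> simp
  simp_rw [h5]
  rw [← Finset.sum_filter]
  simp only [Finset.filter_mem_eq_inter, Finset.univ_inter]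

/-- failure forces a large trace moment. -/
lemma fail_trace (h : Bichar G χ) {k : ℝ} (hk : 0 < k) {r : ℕ} (U : Matrix G (Fin r) ℝ) (hU : Uᵀ * U = 1)
    (d₁ d₂ : G → ℤˣ) (ξ : G → Bool) {ε : ℝ} (hε : 0 < ε) (hF : Fail χ U k ε (sel ξ) d₁ d₂) (q : ℕ) (hq : 0 < q) :
    (ε * (k / Fintype.card G)) ^ (2 * q) ≤
      Matrix.trace (Xm (Zm χ U d₁ d₂ * (Zm χ U d₁ d₂)ᵀ) (k / Fintype.card G) ξ ^ (2 * q)) := by
  have hn : (0 : ℝ) < Fintype.card G := card_pos_real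
  obtain ⟨c, hc⟩ := hF
  set Z := Zm χ U d₁ d₂ with hZ
  have hZi : Zᵀ * Z = 1 := Zm_isom h hU d₁ d₂
  set α := k / (Fintype.card G : ℝ) with hα
  have hα0 : 0 < α := by positivity
  rw [nsq_Kmat (sel ξ) hk, ← hZ] at hc
  set v := Z *ᵥ c with hv
  have hvn : nsq v = nsq c := nsq_isom hZi c
  have hQv : (Z * Zᵀ) *ᵥ v = v := by
    rw [hv, Matrix.mulVec_mulVec, Matrix.mul_assoc, hZi, Matrix.mul_one]
  have hQs : (Z * Zᵀ)ᵀ = Z * Zᵀ := by rw [Matrix.transpose_mul, Matrix.transpose_transpose]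
  apply trace_pow_ge _ _ v (by positivity) _ q hq
  · exact Xm_symm' _ hQs α ξ
  · have h1 : v ⬝ᵥ (Xm (Z * Zᵀ) α ξ *ᵥ v) = ∑ s ∈ sel ξ, v s ^ 2 - α * nsq v := by
      unfold Xm
      rw [← Matrix.mulVec_mulVec, hQv, ← Matrix.mulVec_mulVec, Matrix.dotProduct_mulVec,
        ← Matrix.mulVec_transpose, hQs, hQv]
      unfold dotProduct nsq sel
      rw [Finset.sum_filter, Finset.mul_sum, ← Finset.sum_sub_distrib]
      apply Finset.sum_congr rfl
      intro s _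
      unfold Dm
      rw [Matrix.mulVec_diagonal]
      unfold dl
      by_cases hs : ξ s = true
      · rw [if_pos hs, if_pos hs]; ring
      · rw [if_neg hs, if_neg hs]; ring
    rw [h1]
    have h2 : (Fintype.card G : ℝ) / k = 1 / α := by rw [hα]; field_simp
    rw [h2] at hc
    have h3 : |1 / α * ∑ s ∈ sel ξ, v s ^ 2 - nsq c| = |∑ s ∈ sel ξ, v s ^ 2 - α * nsq v| / α := by
      rw [← abs_of_pos hα0, ← abs_div, abs_of_pos hα0, hvn]
      congr 1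
      field_simp
    rw [h3, lt_div_iff₀ hα0] at hc
    rw [hvn]
    rw [hvn] at hc
    linarith

/-- exchange of the averages. -/
lemma sum_avg_comm (k : ℕ) (P : Finset G → (G → ℤˣ) → (G → ℤˣ) → Prop) :
    ∑ T ∈ Finset.powersetCard k (Finset.univ : Finset G), avg (fun d₁ => frac (P T d₁)) =
      avg (fun d₁ => avg (fun d₂ => ∑ T ∈ Finset.powersetCard k (Finset.univ : Finset G),
        (open Classical in if P T d₁ d₂ then (1:ℝ) else 0))) := by
  classical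
  rw [← avg_sum]
  congr 1
  funext d₁
  rw [avg_sum]
  rfl

/-- the failure frequency over `k`-subsets when the mixed projection is flat. -/
lemma flat_case {l r k lam : ℕ} (hlam : 20 ≤ lam) (hl1 : 2 ^ lam ≤ l) (hl2 : l < 2 ^ (lam + 1))
    (h : Bichar G χ) (hcard : Fintype.card G = 2 ^ l) (hr : 2 ^ l < r ^ 10) (hrk : r ≤ k) (hk : k ≤ 2 ^ l)
    (U : Matrix G (Fin r) ℝ) (hU : Uᵀ * U = 1) (d₁ d₂ : G → ℤˣ)
    (hF : Flat (Zm χ U d₁ d₂) (2 * (l:ℝ) ^ 2 * Real.sqrt r / 2 ^ l)) {ε : ℝ} (hε : 0 < ε) :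
    ∑ T ∈ Finset.powersetCard k (Finset.univ : Finset G),
        (open Classical in if Fail χ U k ε T d₁ d₂ then (1:ℝ) else 0) ≤
      ((2 ^ l).choose k : ℝ) * ((2 ^ l + 1) * (400 * Real.sqrt ((k:ℝ) / 2 ^ l * ((r:ℝ) / 2 ^ l)) /
        (ε * ((k:ℝ) / 2 ^ l))) ^ (4 * l)) := by
  classical
  have hN : (0:ℝ) < 2 ^ l := by positivity
  have hr0 : 0 < r := by
    rcases Nat.eq_zero_or_pos r with h | h
    · rw [h] at hr; simp at hr
    · exact h
  have hk0 : 0 < k := by omega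
  have hl0 : 0 < l := lt_of_lt_of_le (by positivity) hl1
  have hr' : (0:ℝ) < r := by exact_mod_cast hr0
  have hk' : (0:ℝ) < k := by exact_mod_cast hk0
  have hrk' : (r:ℝ) ≤ k := by exact_mod_cast hrk
  have hkN : (k:ℝ) ≤ 2 ^ l := by exact_mod_cast hk
  have hcard' : (Fintype.card G : ℝ) = 2 ^ l := by rw [hcard]; push_cast; rfl
  set α := (k:ℝ) / 2 ^ l with hα
  set b := (r:ℝ) / 2 ^ l with hb
  have hα0 : 0 < α := by positivity
  have hb0 : 0 < b := by positivity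
  have hα1 : α ≤ 1 := by rw [hα, div_le_one hN]; exact hkN
  have hbα : b ≤ α := div_le_div_of_nonneg_right hrk' hN.le
  set Z := Zm χ U d₁ d₂ with hZ
  have hZi : Zᵀ * Z = 1 := Zm_isom h hU d₁ d₂
  set Q := Z * Zᵀ with hQ
  have hQs : Qᵀ = Q := by rw [hQ, Matrix.transpose_mul, Matrix.transpose_transpose]
  have hQQ : Q * Q = Q := by
    rw [hQ, Matrix.mul_assoc, ← Matrix.mul_assoc Zᵀ, hZi, Matrix.one_mul]
  set θ := 2 * (l:ℝ) ^ 2 * Real.sqrt r / 2 ^ l with hθ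
  have hθ0 : 0 ≤ θ := by positivity
  set E := Q - b • (1 : Matrix G G ℝ) with hE
  have hEθ : ∀ u v, |E u v| ≤ θ := by
    intro u v
    have h1 := hF u v
    rw [hcard'] at h1
    have h2 : E u v = Q u v - (if u = v then b else 0) := by
      rw [hE, Matrix.sub_apply, Matrix.smul_apply, Matrix.one_apply, smul_eq_mul]
      by_cases huv : u = v
      · rw [if_pos huv, if_pos huv, mul_one]
      · rw [if_neg huv, if_neg huv, mul_zero]
    rw [h2]
    exact h1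
  set J := 2 * lam + 6 with hJ
  set bad : (G → Bool) → Prop := fun ξ => ∃ u, ∃ j ≤ J, b / 2 * Real.sqrt (α * b) ^ j < |word E α ξ j u u| with hbad
  -- the bad event
  have hsmall := bad_small hlam hl1 hl2 hJ hcard hr hrk hk E bad (fun ξ hξ => hξ) (by
    intro j u
    have h1 := word_moment E hθ0 hEθ hα0.le hα1 (by rw [hcard', hα]; field_simp; exact_mod_cast hk0) j (100 * l) u u
    exact h1)
  -- the trace
  have hexp : (Fintype.card G : ℝ) ≤ Real.exp ((4 * l : ℕ) : ℝ) := by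
    rw [hcard']
    have h1 : (2:ℝ) ≤ Real.exp 1 := by
      have := Real.exp_one_gt_d9; linarith
    calc (2:ℝ) ^ l ≤ Real.exp 1 ^ l := pow_le_pow_left₀ (by norm_num) h1 l
      _ = Real.exp l := by rw [← Real.exp_nat_mul, mul_one]
      _ ≤ _ := by
          apply Real.exp_le_exp.2
          push_cast
          have : (0:ℝ) ≤ l := Nat.cast_nonneg l
          linarith
  have hJm : J + 2 ≤ 4 * l := by
    have h1 : lam < 2 ^ lam := Nat.lt_two_pow_self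
    omega
  have hmJ : ((4 * l : ℕ) : ℝ) ≤ 2 ^ J := by
    have h1 : 4 * l ≤ 2 ^ J := by
      calc 4 * l ≤ 4 * 2 ^ (lam + 1) := by omega
        _ = 2 ^ (lam + 3) := by ring
        _ ≤ 2 ^ J := Nat.pow_le_pow_right (by norm_num) (by omega)
    exact_mod_cast h1
  have htr := trace_rec Q hQs hQQ hb0 hbα hα1 bad J (4 * l) ⟨lam + 3, by omega⟩ ⟨2 * l, by ring⟩ hJm hmJ hexp
    (by
      intro ξ hξ
      apply low_powers Q hQQ hb0 hbα hα1 ξ J
      rw [hbad] at hξ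
      push Not at hξ
      exact hξ) hsmall
  -- transfer
  have h1 := BE_transfer k (by omega) (by rw [hcard]; exact hk)
    (fun T : Finset G => if Fail χ U k ε T d₁ d₂ then (1:ℝ) else 0) (by
      intro T; split_ifs <;> norm_num)
  refine h1.trans ?_
  rw [hcard', hcard, mul_assoc]
  apply mul_le_mul_of_nonneg_left _ (Nat.cast_nonneg _)
  apply mul_le_mul_of_nonneg_left _ (by positivity)
  rw [div_pow, le_div_iff₀ (by positivity), mul_comm]
  refine le_trans ?_ htr.le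
  have h2 : (ε * α) ^ (4 * l) * BE α (fun ξ => if Fail χ U k ε (sel ξ) d₁ d₂ then (1:ℝ) else 0) =
      BE α (fun ξ => (ε * α) ^ (4 * l) * (if Fail χ U k ε (sel ξ) d₁ d₂ then (1:ℝ) else 0)) := by
    unfold BE
    rw [Finset.mul_sum]
    apply Finset.sum_congr rfl
    intro ξ _
    ring
  rw [h2]
  apply BE_mono' hα0.le hα1
  intro ξ
  have h3 : ∀ q, 0 ≤ Matrix.trace (Xm Q α ξ ^ (2 * q)) := by
    intro q
    have hX : (Xm Q α ξ)ᵀ = Xm Q α ξ := Xm_symm' Q hQs α ξ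
    rcases Nat.eq_zero_or_pos q with h | h
    · rw [h, mul_zero, pow_zero, Matrix.trace_one]; exact Nat.cast_nonneg _
    · exact le_trans (by positivity) (Srht.opn_pow_le_trace _ hX q h)
  by_cases hf : Fail χ U k ε (sel ξ) d₁ d₂
  · rw [if_pos hf, mul_one]
    have h4 := fail_trace h hk' U hU d₁ d₂ ξ hε hf (2 * l) (by omega)
    rw [hcard', ← hα, ← hZ, ← hQ, show 2 * (2 * l) = 4 * l by ring] at h4
    exact h4
  · rw [if_neg hf, mul_zero]
    have := h3 (2 * l)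
    rwa [show 2 * (2 * l) = 4 * l by ring] at this

lemma num_a {l : ℕ} (hl : 2 ^ 20 ≤ l) : 6 * ((2:ℝ) ^ l) ^ 2 * Real.exp (-((l:ℝ) ^ 2) / 12) ≤ 1 / 1000 := by
  have hl' : (2:ℝ) ^ 20 ≤ l := by exact_mod_cast hl
  have hl0 : (0:ℝ) < l := by linarith [show (0:ℝ) < 2 ^ 20 by norm_num]
  have h1 : (2:ℝ) ≤ Real.exp 1 := by
    have := Real.exp_one_gt_d9; linarith
  have h2 : ((2:ℝ) ^ l) ^ 2 ≤ Real.exp (2 * l) := by
    calc ((2:ℝ) ^ l) ^ 2 ≤ (Real.exp 1 ^ l) ^ 2 := by gcongr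
      _ = Real.exp (2 * l) := by rw [← Real.exp_nat_mul, ← Real.exp_nat_mul]; push_cast; ring_nf
  have h3 : (13:ℝ) + 2 * l ≤ (l:ℝ) ^ 2 / 12 := by nlinarith
  have h4 : (6000:ℝ) ≤ Real.exp 13 := by
    calc (6000:ℝ) ≤ 2 ^ 13 := by norm_num
      _ ≤ Real.exp 1 ^ 13 := pow_le_pow_left₀ (by norm_num) h1 13
      _ = Real.exp 13 := by rw [← Real.exp_nat_mul]; norm_num
  calc 6 * ((2:ℝ) ^ l) ^ 2 * Real.exp (-((l:ℝ) ^ 2) / 12)
      ≤ (1 / 1000 * Real.exp 13) * Real.exp (2 * l) * Real.exp (-((l:ℝ) ^ 2) / 12) := by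
        gcongr
        linarith
    _ = 1 / 1000 * Real.exp (13 + 2 * l + -((l:ℝ) ^ 2) / 12) := by rw [Real.exp_add, Real.exp_add]; ring
    _ ≤ 1 / 1000 * Real.exp 0 := by
        gcongr
        have : -((l:ℝ) ^ 2) / 12 = - ((l:ℝ) ^ 2 / 12) := by ring
        rw [this]; linarith
    _ = 1 / 1000 := by rw [Real.exp_zero, mul_one]

lemma num_b {l r k : ℕ} (hl : 2 ^ 20 ≤ l) (hr : 0 < r) (hk : 0 < k) {ε : ℝ} (hε : 0 < ε)
    (hC : 2560000 * (r:ℝ) ≤ k * ε ^ 2) :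
    ((2:ℝ) ^ l + 1) * (400 * Real.sqrt ((k:ℝ) / 2 ^ l * ((r:ℝ) / 2 ^ l)) / (ε * ((k:ℝ) / 2 ^ l))) ^ (4 * l)
      ≤ 1 / 1000 := by
  have hN : (0:ℝ) < 2 ^ l := by positivity
  have hr' : (0:ℝ) < r := by exact_mod_cast hr
  have hk' : (0:ℝ) < k := by exact_mod_cast hk
  have h1 : 400 * Real.sqrt ((k:ℝ) / 2 ^ l * ((r:ℝ) / 2 ^ l)) / (ε * ((k:ℝ) / 2 ^ l)) ≤ 1 / 4 := by
    rw [div_le_iff₀ (by positivity)]
    have h2 : Real.sqrt ((k:ℝ) / 2 ^ l * ((r:ℝ) / 2 ^ l)) ≤ 1 / 1600 * (ε * ((k:ℝ) / 2 ^ l)) := by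
      apply Real.sqrt_le_iff.mpr
      refine ⟨by positivity, ?_⟩
      have h3 : (1 / 1600 * (ε * ((k:ℝ) / 2 ^ l))) ^ 2 = (k * ε ^ 2) / 2560000 * ((k:ℝ) / (2 ^ l * 2 ^ l)) := by
        field_simp; norm_num
      have h4 : (k:ℝ) / 2 ^ l * ((r:ℝ) / 2 ^ l) = r * ((k:ℝ) / (2 ^ l * 2 ^ l)) := by field_simp
      rw [h3, h4]
      apply mul_le_mul_of_nonneg_right _ (by positivity)
      rw [le_div_iff₀ (by norm_num)]
      linarith
    linarith
  have h2 : (400 * Real.sqrt ((k:ℝ) / 2 ^ l * ((r:ℝ) / 2 ^ l)) / (ε * ((k:ℝ) / 2 ^ l))) ^ (4 * l) ≤ (1 / 4) ^ (4 * l) :=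
    pow_le_pow_left₀ (by positivity) h1 _
  have hl1 : 20 ≤ l := le_trans (by norm_num) hl
  calc ((2:ℝ) ^ l + 1) * (400 * Real.sqrt ((k:ℝ) / 2 ^ l * ((r:ℝ) / 2 ^ l)) / (ε * ((k:ℝ) / 2 ^ l))) ^ (4 * l)
      ≤ ((2:ℝ) ^ l + 1) * (1 / 4) ^ (4 * l) := mul_le_mul_of_nonneg_left h2 (by positivity)
    _ ≤ (2 ^ l + 2 ^ l) * (1 / 4) ^ (4 * l) := by
        gcongr
        exact one_le_pow₀ (by norm_num)
    _ = 2 * ((2:ℝ) ^ l * (1 / 4) ^ (4 * l)) := by ring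
    _ = 2 * (1 / 128) ^ l := by
        rw [pow_mul, ← mul_pow]; norm_num
    _ ≤ 2 * (1 / 128) ^ 20 := by
        apply mul_le_mul_of_nonneg_left _ (by norm_num)
        exact pow_le_pow_of_le_one (by norm_num) (by norm_num) hl1
    _ ≤ 1 / 1000 := by norm_num

/-- **Regime II**: `n < r^10`, all `k ≤ n`. -/
theorem regime_II {l r k : ℕ} (hl : 2 ^ 20 ≤ l) (h : Bichar G χ) (hcard : Fintype.card G = 2 ^ l)
    (ε : ℝ) (U : Matrix G (Fin r) ℝ) (hU : Uᵀ * U = 1) (hr : 2 ^ l < r ^ 10) (hk : k ≤ 2 ^ l)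
    (hε0 : 0 < ε) (hε1 : ε < 1) (hC : 2560000 * (r:ℝ) ≤ k * ε ^ 2) :
    ∑ T ∈ Finset.powersetCard k (Finset.univ : Finset G), avg (fun d₁ => frac (Fail χ U k ε T d₁))
      ≤ ((2 ^ l).choose k : ℝ) * (1 / 100) := by
  classical
  have hN : (0:ℝ) < 2 ^ l := by positivity
  have hr0 : 0 < r := by
    rcases Nat.eq_zero_or_pos r with h | h
    · rw [h] at hr; simp at hr
    · exact h
  have hr' : (1:ℝ) ≤ r := by exact_mod_cast hr0
  have hε2 : ε ^ 2 ≤ 1 := by nlinarith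
  have hk0' : (0:ℝ) ≤ k := Nat.cast_nonneg k
  have hrk' : (r:ℝ) ≤ k := by nlinarith
  have hrk : r ≤ k := by exact_mod_cast hrk'
  have hk0 : 0 < k := by omega
  have hl0 : 0 < l := lt_of_lt_of_le (by norm_num) hl
  have hcard' : (Fintype.card G : ℝ) = 2 ^ l := by rw [hcard]; push_cast; rfl
  -- lam
  set lam := Nat.log 2 l with hlamdef
  have hl1 : 2 ^ lam ≤ l := Nat.pow_log_le_self 2 (by omega)
  have hl2 : l < 2 ^ (lam + 1) := Nat.lt_pow_succ_log_self (by norm_num) l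
  have hlam : 20 ≤ lam := Nat.le_log_of_pow_le (by norm_num) hl
  rw [sum_avg_comm]
  set θ := 2 * (l:ℝ) ^ 2 * Real.sqrt r / 2 ^ l with hθ
  set C : ℝ := ((2 ^ l).choose k : ℝ) with hCdef
  have hC0 : 0 ≤ C := Nat.cast_nonneg _
  have hcount : ∀ P : Finset G → Prop, ∑ T ∈ Finset.powersetCard k (Finset.univ : Finset G),
      (if P T then (1:ℝ) else 0) ≤ C := by
    intro P
    have h1 : ∑ T ∈ Finset.powersetCard k (Finset.univ : Finset G), (if P T then (1:ℝ) else 0) ≤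
        ∑ T ∈ Finset.powersetCard k (Finset.univ : Finset G), (1:ℝ) := by
      apply Finset.sum_le_sum
      intro T _
      split_ifs <;> norm_num
    refine h1.trans (le_of_eq ?_)
    rw [Finset.sum_const, Finset.card_powersetCard, Finset.card_univ, hcard, nsmul_eq_mul, mul_one]
  have hpt : ∀ d₁ d₂ : G → ℤˣ, ∑ T ∈ Finset.powersetCard k (Finset.univ : Finset G),
      (if Fail χ U k ε T d₁ d₂ then (1:ℝ) else 0) ≤ C * (if ¬ Flat (Zm χ U d₁ d₂) θ then 1 else 0) + C * (1 / 1000) := by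
    intro d₁ d₂
    by_cases hF : Flat (Zm χ U d₁ d₂) θ
    · rw [if_neg (not_not.mpr hF), mul_zero, zero_add]
      have h1 := flat_case hlam hl1 hl2 h hcard hr hrk hk U hU d₁ d₂ hF hε0
      have h2 := num_b hl hr0 hk0 hε0 hC
      refine le_trans (le_of_eq ?_) (h1.trans (mul_le_mul_of_nonneg_left h2 hC0))
      apply Finset.sum_congr rfl
      intro T _
      congr 1
    · rw [if_pos hF, mul_one]
      have h1 := hcount (fun T => Fail χ U k ε T d₁ d₂)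
      have h2 : 0 ≤ C * (1 / 1000) := by positivity
      linarith
  have h1 : avg (fun d₁ => avg (fun d₂ => ∑ T ∈ Finset.powersetCard k (Finset.univ : Finset G),
      (if Fail χ U k ε T d₁ d₂ then (1:ℝ) else 0))) ≤
      avg (fun d₁ => avg (fun d₂ => C * (if ¬ Flat (Zm χ U d₁ d₂) θ then 1 else 0) + C * (1 / 1000))) :=
    avg_mono fun d₁ => avg_mono fun d₂ => hpt d₁ d₂
  have h2 : avg (fun d₁ : G → ℤˣ => avg (fun d₂ => C * (if ¬ Flat (Zm χ U d₁ d₂) θ then (1:ℝ) else 0) + C * (1 / 1000)))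
      = C * avg (fun d₁ : G → ℤˣ => frac (fun d₂ => ¬ Flat (Zm χ U d₁ d₂) θ)) + C * (1 / 1000) := by
    have h3 : ∀ d₁ : G → ℤˣ, avg (fun d₂ => C * (if ¬ Flat (Zm χ U d₁ d₂) θ then (1:ℝ) else 0) + C * (1 / 1000))
        = C * frac (fun d₂ => ¬ Flat (Zm χ U d₁ d₂) θ) + C * (1 / 1000) := by
      intro d₁
      rw [avg_add, avg_const, avg_mul_left]
      congr 2
      unfold frac
      congr 1
      funext d₂
      by_cases hF : ¬ Flat (Zm χ U d₁ d₂) θ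
      · rw [if_pos hF, if_pos hF]
      · rw [if_neg hF, if_neg hF]
    simp_rw [h3]
    rw [avg_add, avg_const, avg_mul_left]
  have h4 := flat_prob h hr0 U hU ((l:ℝ) ^ 2) (by positivity)
  rw [hcard', ← hθ] at h4
  have h5 := num_a hl
  refine le_trans (le_of_eq ?_) (h1.trans ?_)
  · congr 1
  · rw [h2]
    have h6 : C * avg (fun d₁ : G → ℤˣ => frac (fun d₂ => ¬ Flat (Zm χ U d₁ d₂) θ)) ≤ C * (1 / 1000) :=
      mul_le_mul_of_nonneg_left (h4.trans h5) hC0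
    nlinarith

end regII

end SRHT
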