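import Pool.Agent.Lib.SRHT.Full.RegI
import Pool.Agent.Lib.SRHT.Full.RegII

/-!
# The full answer to Q1 (assembly, helper57)
-/

open Finset Matrix
open scoped BigOperators

namespace SRHT

/-- **Q1**: the rerandomized SRHT is an oblivious subspace embedding with `k = ⌈C r / ε²⌉`, for an absolute
constant `C`. -/
theorem full : ∃ C : ℝ, 0 < C ∧ ∀ (m r : ℕ) (ε : ℝ), 1 ≤ r → 0 < ε → ε < 1 →
    ⌈C * r / ε ^ 2⌉₊ ≤ 2 ^ m → IsOSE m r ⌈C * r / ε ^ 2⌉₊ (1 - ε) (1 + ε) (1 / 100) := by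
  obtain ⟨N, hN⟩ : ∃ N : ℕ, N = 2 ^ 20 := ⟨_, rfl⟩
  refine ⟨(2:ℝ) ^ N, by positivity, ?_⟩
  intro m r ε hr hε0 hε1 hk
  set C : ℝ := (2:ℝ) ^ N with hC
  set k := ⌈C * r / ε ^ 2⌉₊ with hkdef
  have hr' : (1:ℝ) ≤ r := by exact_mod_cast hr
  have hε2 : 0 < ε ^ 2 := by positivity
  have hε21 : ε ^ 2 ≤ 1 := by nlinarith
  have hkC : C * r / ε ^ 2 ≤ k := Nat.le_ceil _
  have hC0 : 0 < C := by positivity
  have hCr : C * r ≤ k * ε ^ 2 := by
    rw [div_le_iff₀ hε2] at hkC; exact hkC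
  have hkm : (k:ℝ) ≤ 2 ^ m := by exact_mod_cast hk
  have hCk : C ≤ k := by nlinarith
  have hNm : N ≤ m := by
    have h1 : (2:ℝ) ^ N ≤ 2 ^ m := hCk.trans hkm
    exact (pow_le_pow_iff_right₀ (by norm_num)).mp h1
  have hk1 : 1 ≤ k := by
    have h1 : (0:ℝ) < k := lt_of_lt_of_le hC0 hCk
    exact_mod_cast h1
  have hbig : (2560000:ℝ) ≤ C := by
    have h1 : (2:ℝ) ^ 22 ≤ 2 ^ N := pow_le_pow_right₀ (by norm_num) (by rw [hN]; norm_num)
    exact le_trans (by norm_num) h1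
  have h2 : 2560000 * (r:ℝ) ≤ k * ε ^ 2 := le_trans (by nlinarith) hCr
  apply isOSE_of_avg m r k hk1 hk ε (1 / 100)
  intro U hU
  rcases le_or_gt (r ^ 10) (2 ^ m) with hrm | hrm
  · exact regime_I (by omega) ε U hU hr hrm hk hε0 hε1 (by linarith)
  · obtain ⟨inst, hb⟩ := hadamard_bichar m
    have hcard : Fintype.card (Fin (2 ^ m)) = 2 ^ m := Fintype.card_fin _
    exact @regime_II (Fin (2 ^ m)) inst _ _ (hadamard m) m r k (by omega) hb hcard ε U hU hrm hk hε0 hε1 h2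

end SRHT
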