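import Pool.Agent.Lib.SRHT.Full.Bern0

/-!
Spectral recursion for the trace moments of `X = Q Δ Q`.
-/

open Finset Matrix
open scoped BigOperators

namespace SRHT

variable {ι : Type*} [Fintype ι] [DecidableEq ι]

/-! ### Spectral decomposition -/

theorem exists_spec (X : Matrix ι ι ℝ) (hX : Xᵀ = X) :
    ∃ (U : Matrix ι ι ℝ) (x : ι → ℝ), Uᵀ * U = 1 ∧ U * Uᵀ = 1 ∧ X = U * diagonal x * Uᵀ := by
  have hH : X.IsHermitian := by
    unfold Matrix.IsHermitian
    rw [conjTranspose_eq_transpose_of_trivial]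
    exact hX
  have hU : (hH.eigenvectorUnitary : Matrix ι ι ℝ)ᵀ * (hH.eigenvectorUnitary : Matrix ι ι ℝ)
      = 1 := by
    have h := Unitary.coe_star_mul_self hH.eigenvectorUnitary
    rwa [star_eq_conjTranspose, conjTranspose_eq_transpose_of_trivial] at h
  refine ⟨(hH.eigenvectorUnitary : Matrix ι ι ℝ), hH.eigenvalues, hU, ?_, ?_⟩
  · exact mul_eq_one_comm.1 hU
  · have h := hH.spectral_theorem
    rw [Unitary.conjStarAlgAut_apply, star_eq_conjTranspose,
      conjTranspose_eq_transpose_of_trivial] at h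
    exact h

theorem spec_pow {U : Matrix ι ι ℝ} {x : ι → ℝ} (hU : Uᵀ * U = 1) (hU' : U * Uᵀ = 1) (n : ℕ) :
    (U * diagonal x * Uᵀ) ^ n = U * diagonal (fun a => x a ^ n) * Uᵀ := by
  induction n with
  | zero => simp [hU']
  | succ n ih =>
    rw [pow_succ, ih]
    have : U * diagonal (fun a => x a ^ n) * Uᵀ * (U * diagonal x * Uᵀ) =
        U * (diagonal (fun a => x a ^ n) * (Uᵀ * U) * diagonal x) * Uᵀ := by
      simp only [Matrix.mul_assoc]
    rw [this, hU, Matrix.mul_one, diagonal_mul_diagonal]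
    simp [pow_succ]

theorem spec_trace_pow {U : Matrix ι ι ℝ} {x : ι → ℝ} (hU : Uᵀ * U = 1) (hU' : U * Uᵀ = 1)
    (n : ℕ) : ((U * diagonal x * Uᵀ) ^ n).trace = ∑ a, x a ^ n := by
  rw [spec_pow hU hU', Matrix.trace_mul_comm, ← Matrix.mul_assoc, hU, Matrix.one_mul,
    trace_diagonal]

/-- diagonal entry of `A diag(x) Aᵀ` -/
lemma diag_entry (A : Matrix ι ι ℝ) (x : ι → ℝ) (u : ι) :
    (A * diagonal x * Aᵀ) u u = ∑ e, x e * A u e ^ 2 := by
  rw [Matrix.mul_apply]
  refine Finset.sum_congr rfl fun e _ => ?_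
  rw [Matrix.mul_diagonal, Matrix.transpose_apply]; ring

/-! ### The matrices `G_a` and `X` -/

lemma Xm_symm {Q : Matrix ι ι ℝ} (hQs : Qᵀ = Q) (α : ℝ) (ξ : ι → Bool) : (Xm Q α ξ)ᵀ = Xm Q α ξ := by
  unfold Xm Dm
  rw [Matrix.transpose_mul, Matrix.transpose_mul, hQs, Matrix.diagonal_transpose, Matrix.mul_assoc]

lemma Gm_zero (Q : Matrix ι ι ℝ) (α : ℝ) (ξ : ι → Bool) : Gm Q α ξ 0 = Q := by
  unfold Gm; simp

lemma Gm_succ (Q : Matrix ι ι ℝ) (α : ℝ) (ξ : ι → Bool) (p : ℕ) :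
    Gm Q α ξ (p + 1) = Gm Q α ξ p * (Dm α ξ * Q) := by
  unfold Gm; rw [pow_succ, Matrix.mul_assoc]

lemma Xm_mul {Q : Matrix ι ι ℝ} (hQ : Q * Q = Q) (α : ℝ) (ξ : ι → Bool) : Xm Q α ξ * Q = Xm Q α ξ := by
  unfold Xm; rw [Matrix.mul_assoc, hQ]

lemma mul_Xm {Q : Matrix ι ι ℝ} (hQ : Q * Q = Q) (α : ℝ) (ξ : ι → Bool) : Q * Xm Q α ξ = Xm Q α ξ := by
  unfold Xm; rw [← Matrix.mul_assoc, ← Matrix.mul_assoc, hQ]

lemma Gm_eq {Q : Matrix ι ι ℝ} (hQ : Q * Q = Q) (α : ℝ) (ξ : ι → Bool) (p : ℕ) :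
    Gm Q α ξ p = Q * Xm Q α ξ ^ p * Q := by
  induction p with
  | zero => rw [Gm_zero, pow_zero, Matrix.mul_one, hQ]
  | succ p ih =>
    rw [Gm_succ, ih]
    calc Q * Xm Q α ξ ^ p * Q * (Dm α ξ * Q) = Q * Xm Q α ξ ^ p * (Q * Dm α ξ * Q) := by
          simp only [Matrix.mul_assoc]
      _ = Q * Xm Q α ξ ^ p * Xm Q α ξ := rfl
      _ = Q * Xm Q α ξ ^ p * (Xm Q α ξ * Q) := by rw [Xm_mul hQ]
      _ = Q * Xm Q α ξ ^ (p + 1) * Q := by rw [pow_succ]; simp only [Matrix.mul_assoc]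

/-- trace in terms of the diagonal of `G` -/
lemma trace_eq_sum {Q : Matrix ι ι ℝ} (hQ : Q * Q = Q) (α : ℝ) (ξ : ι → Bool) (p : ℕ) :
    (Xm Q α ξ ^ (p + 1)).trace = ∑ u, dl α ξ u * Gm Q α ξ p u u := by
  have h1 : Xm Q α ξ ^ (p + 1) = Xm Q α ξ ^ p * (Q * Dm α ξ * Q) := by rw [pow_succ]; rfl
  rw [h1]
  have h2 : Xm Q α ξ ^ p * (Q * Dm α ξ * Q) = (Xm Q α ξ ^ p * Q) * (Dm α ξ * Q) := by
    simp only [Matrix.mul_assoc]
  rw [h2, Matrix.trace_mul_comm]
  have h3 : Dm α ξ * Q * (Xm Q α ξ ^ p * Q) = Dm α ξ * Gm Q α ξ p := by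
    rw [Gm_eq hQ]; simp only [Matrix.mul_assoc]
  rw [h3]
  unfold Matrix.trace
  refine Finset.sum_congr rfl fun u _ => ?_
  rw [Matrix.diag_apply]
  unfold Dm
  rw [Matrix.diagonal_mul]

lemma Dm_update_sub (α : ℝ) (ξ : ι → Bool) (u : ι) :
    Dm α (Function.update ξ u true) - Dm α (Function.update ξ u false) = Matrix.single u u (1 : ℝ) := by
  unfold Dm
  rw [Matrix.diagonal_sub]
  ext i j
  by_cases hij : i = j
  · subst hij
    rw [Matrix.diagonal_apply_eq]
    by_cases hiu : i = u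
    · subst hiu
      simp [dl]
    · simp [dl, Matrix.single, Function.update_of_ne hiu, Ne.symm hiu]
  · rw [Matrix.diagonal_apply_ne _ hij]
    by_cases hiu : i = u
    · subst hiu
      simp [Matrix.single, hij]
    · simp [Matrix.single, Ne.symm hiu]

/-- telescoping -/
lemma Gm_telescope (Q : Matrix ι ι ℝ) (α : ℝ) (ξ : ι → Bool) (u : ι) (p : ℕ) :
    Gm Q α (Function.update ξ u true) p - Gm Q α (Function.update ξ u false) p
      = ∑ i ∈ Finset.range p, Gm Q α (Function.update ξ u true) i * Matrix.single u u (1 : ℝ) *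
          Gm Q α (Function.update ξ u false) (p - 1 - i) := by
  induction p with
  | zero => simp [Gm_zero]
  | succ p ih =>
    set G1 := Gm Q α (Function.update ξ u true)
    set G0 := Gm Q α (Function.update ξ u false)
    set D1 := Dm α (Function.update ξ u true)
    set D0 := Dm α (Function.update ξ u false)
    have hs1 : G1 (p + 1) = G1 p * (D1 * Q) := Gm_succ _ _ _ _
    have hs0 : ∀ q, G0 (q + 1) = G0 q * (D0 * Q) := fun q => Gm_succ _ _ _ _
    have hD : D1 - D0 = Matrix.single u u (1 : ℝ) := Dm_update_sub α ξ u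
    have h1 : G1 (p + 1) - G0 (p + 1) = G1 p * Matrix.single u u (1 : ℝ) * G0 0 + (G1 p - G0 p) * (D0 * Q) := by
      have h0 : G0 0 = Q := Gm_zero _ _ _
      rw [hs1, hs0, h0, ← hD]
      simp only [Matrix.mul_sub, Matrix.sub_mul, Matrix.mul_assoc]
      abel
    rw [h1, ih, Finset.sum_mul, Finset.sum_range_succ]
    rw [add_comm]
    congr 1
    · refine Finset.sum_congr rfl fun i hi => ?_
      rw [Finset.mem_range] at hi
      have h2 : p + 1 - 1 - i = (p - 1 - i) + 1 := by omega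
      rw [h2, hs0]
      simp only [Matrix.mul_assoc]
    · have : p + 1 - 1 - p = 0 := by omega
      rw [this]

lemma mul_single_mul (A B : Matrix ι ι ℝ) (u : ι) :
    (A * Matrix.single u u (1 : ℝ) * B) u u = A u u * B u u := by
  rw [Matrix.mul_apply]
  rw [Finset.sum_eq_single u]
  · rw [Matrix.mul_apply, Finset.sum_eq_single u]
    · simp [Matrix.single]
    · intro j _ hj; simp [Matrix.single, hj, Ne.symm hj]
    · intro h; exact absurd (Finset.mem_univ _) h
  · intro j _ hj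
    rw [Matrix.mul_apply, Finset.sum_eq_zero, zero_mul]
    intro i _
    simp [Matrix.single, Ne.symm hj]
  · intro h; exact absurd (Finset.mem_univ _) h

/-- the exact identity for the trace moments -/
lemma trace_identity {Q : Matrix ι ι ℝ} (hQ : Q * Q = Q) (α : ℝ) (N : ℕ) :
    BE α (fun ξ => (Xm Q α ξ ^ (N + 2)).trace) = ∑ u, α * (1 - α) *
      BE α (fun ξ => ∑ i ∈ Finset.range (N + 1), Gm Q α (Function.update ξ u true) i u u *
        Gm Q α (Function.update ξ u false) (N - i) u u) := by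
  simp_rw [trace_eq_sum hQ]
  rw [BE_sum]
  refine Finset.sum_congr rfl fun u _ => ?_
  rw [BE_split α u]
  have h1 : ∀ ξ : ι → Bool, dl α (Function.update ξ u true) u = 1 - α := by
    intro ξ; simp [dl]
  have h0 : ∀ ξ : ι → Bool, dl α (Function.update ξ u false) u = - α := by
    intro ξ; simp [dl]
  simp_rw [h1, h0]
  rw [BE_mul_left, BE_mul_left]
  have h2 : ∀ ξ : ι → Bool, ∑ i ∈ Finset.range (N + 1), Gm Q α (Function.update ξ u true) i u u *
        Gm Q α (Function.update ξ u false) (N - i) u u =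
        Gm Q α (Function.update ξ u true) (N + 1) u u - Gm Q α (Function.update ξ u false) (N + 1) u u := by
    intro ξ
    have := congrArg (fun M => M u u) (Gm_telescope Q α ξ u (N + 1))
    simp only [Matrix.sub_apply] at this
    rw [this, Matrix.sum_apply]
    refine Finset.sum_congr rfl fun i _ => ?_
    rw [mul_single_mul]
    simp
  simp_rw [h2]
  rw [BE_sub]
  ring

end SRHT
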