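import Pool.Agent.Lib.SRHT.Full.Rec

/-!
Spectral functionals and the main recursion inequality.
-/

open Finset Matrix
open scoped BigOperators

namespace SRHT

variable {ι : Type*} [Fintype ι] [DecidableEq ι]

open Classical in
/-- a diagonalising orthogonal matrix -/
noncomputable def specU (X : Matrix ι ι ℝ) : Matrix ι ι ℝ :=
  if h : Xᵀ = X then (exists_spec X h).choose else 1

open Classical in
/-- eigenvalues -/
noncomputable def specx (X : Matrix ι ι ℝ) : ι → ℝ :=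
  if h : Xᵀ = X then (exists_spec X h).choose_spec.choose else 0

lemma spec_props {X : Matrix ι ι ℝ} (hX : Xᵀ = X) :
    (specU X)ᵀ * specU X = 1 ∧ specU X * (specU X)ᵀ = 1 ∧
      X = specU X * diagonal (specx X) * (specU X)ᵀ := by
  unfold specU specx
  rw [dif_pos hX, dif_pos hX]
  exact (exists_spec X hX).choose_spec.choose_spec

/-- `H_p(u) = Σ_e |μ_e|^p (φ_e · q_u)²` -/
noncomputable def Hf (Q X : Matrix ι ι ℝ) (p : ℕ) (u : ι) : ℝ :=
  ∑ e, |specx X e| ^ p * (Q * specU X) u e ^ 2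

/-- `tr |X|^p` -/
noncomputable def Sf (X : Matrix ι ι ℝ) (p : ℕ) : ℝ := ∑ e, |specx X e| ^ p

lemma Hf_nonneg (Q X : Matrix ι ι ℝ) (p : ℕ) (u : ι) : 0 ≤ Hf Q X p u :=
  Finset.sum_nonneg fun _ _ => by positivity

lemma Sf_nonneg (X : Matrix ι ι ℝ) (p : ℕ) : 0 ≤ Sf X p :=
  Finset.sum_nonneg fun _ _ => by positivity

lemma trace_pow_even {X : Matrix ι ι ℝ} (hX : Xᵀ = X) {m : ℕ} (hm : Even m) :
    (X ^ m).trace = Sf X m := by
  obtain ⟨h1, h2, h3⟩ := spec_props hX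
  conv_lhs => rw [h3]
  rw [spec_trace_pow h1 h2]
  unfold Sf
  refine Finset.sum_congr rfl fun e _ => ?_
  rw [hm.pow_abs]

section fixedX

variable {Q : Matrix ι ι ℝ} (hQs : Qᵀ = Q) (hQ : Q * Q = Q) (α : ℝ) (ξ : ι → Bool)

include hQs hQ

lemma Gm_diag (p : ℕ) (u : ι) : Gm Q α ξ p u u =
    ∑ e, specx (Xm Q α ξ) e ^ p * (Q * specU (Xm Q α ξ)) u e ^ 2 := by
  obtain ⟨h1, h2, h3⟩ := spec_props (Xm_symm hQs α ξ)
  rw [Gm_eq hQ]
  generalize specU (Xm Q α ξ) = U at *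
  generalize specx (Xm Q α ξ) = x at *
  have h4 : Q * Xm Q α ξ ^ p * Q = (Q * U) * diagonal (fun a => x a ^ p) * (Q * U)ᵀ := by
    rw [h3, spec_pow h1 h2, Matrix.transpose_mul, hQs]
    simp only [Matrix.mul_assoc]
  rw [h4, diag_entry]

lemma abs_Gm_le (p : ℕ) (u : ι) : |Gm Q α ξ p u u| ≤ Hf Q (Xm Q α ξ) p u := by
  rw [Gm_diag hQs hQ]
  unfold Hf
  refine (Finset.abs_sum_le_sum_abs _ _).trans (le_of_eq ?_)
  refine Finset.sum_congr rfl fun e _ => ?_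
  rw [abs_mul, abs_pow, abs_of_nonneg (sq_nonneg ((Q * specU (Xm Q α ξ)) u e))]

lemma Hf_even {p : ℕ} (hp : Even p) (u : ι) : Hf Q (Xm Q α ξ) p u = Gm Q α ξ p u u := by
  rw [Gm_diag hQs hQ]
  unfold Hf
  refine Finset.sum_congr rfl fun e _ => ?_
  rw [hp.pow_abs]

lemma OB_proj : OB Q 1 := by
  intro v
  rw [one_mul]
  have h1 : nsq (Q *ᵥ v) = v ⬝ᵥ (Q *ᵥ v) := by
    rw [nsq_eq_dot, Matrix.dotProduct_mulVec, ← Matrix.mulVec_transpose, hQs, Matrix.mulVec_mulVec, hQ,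
      dotProduct_comm]
  have h2 := dot_sq_le v (Q *ᵥ v)
  rw [← h1] at h2
  rcases (nsq_nonneg (Q *ᵥ v)).eq_or_lt with h | h
  · rw [← h]; exact nsq_nonneg v
  · rw [sq] at h2
    exact le_of_mul_le_mul_right h2 h

lemma sum_cc_le (e : ι) : ∑ u, (Q * specU (Xm Q α ξ)) u e ^ 2 ≤ 1 := by
  obtain ⟨h1, h2, h3⟩ := spec_props (Xm_symm hQs α ξ)
  set X := Xm Q α ξ
  have h4 := OB_proj hQs hQ (fun i => specU X i e)
  rw [one_mul] at h4
  have h5 : nsq (fun i => specU X i e) = 1 := by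
    have : ((specU X)ᵀ * specU X) e e = 1 := by rw [h1, Matrix.one_apply_eq]
    rw [Matrix.mul_apply] at this
    rw [← this]
    unfold nsq
    refine Finset.sum_congr rfl fun i _ => ?_
    rw [Matrix.transpose_apply, sq]
  rw [h5] at h4
  refine le_trans (le_of_eq ?_) h4
  unfold nsq
  refine Finset.sum_congr rfl fun u _ => ?_
  congr 1

lemma sum_dl_cc (e : ι) : ∑ u, dl α ξ u * (Q * specU (Xm Q α ξ)) u e ^ 2 = specx (Xm Q α ξ) e := by
  obtain ⟨h1, h2, h3⟩ := spec_props (Xm_symm hQs α ξ)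
  generalize specU (Xm Q α ξ) = U at *
  generalize specx (Xm Q α ξ) = x at *
  have h4 : Uᵀ * Xm Q α ξ * U = diagonal x := by
    rw [h3]
    calc Uᵀ * (U * diagonal x * Uᵀ) * U
        = (Uᵀ * U) * diagonal x * (Uᵀ * U) := by
          simp only [Matrix.mul_assoc]
      _ = diagonal x := by rw [h1, Matrix.one_mul, Matrix.mul_one]
  have h5 : Uᵀ * Xm Q α ξ * U = (Q * U)ᵀ * diagonal (dl α ξ) * ((Q * U)ᵀ)ᵀ := by
    rw [Matrix.transpose_transpose, Matrix.transpose_mul, hQs]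
    unfold Xm Dm
    simp only [Matrix.mul_assoc]
  have h6 := congrArg (fun M => M e e) (h4.symm.trans h5)
  simp only [Matrix.diagonal_apply_eq] at h6
  rw [diag_entry] at h6
  rw [h6]
  refine Finset.sum_congr rfl fun u _ => ?_
  rw [Matrix.transpose_apply]

lemma sum_ind_cc (hα0 : 0 ≤ α) (e : ι) :
    ∑ u, (if ξ u then (Q * specU (Xm Q α ξ)) u e ^ 2 else 0) ≤ |specx (Xm Q α ξ) e| + α := by
  have h1 := sum_dl_cc hQs hQ α ξ e
  have h2 := sum_cc_le hQs hQ α ξ e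
  have h3 : ∑ u, (if ξ u then (Q * specU (Xm Q α ξ)) u e ^ 2 else 0)
      = ∑ u, dl α ξ u * (Q * specU (Xm Q α ξ)) u e ^ 2 + α * ∑ u, (Q * specU (Xm Q α ξ)) u e ^ 2 := by
    rw [Finset.mul_sum, ← Finset.sum_add_distrib]
    refine Finset.sum_congr rfl fun u _ => ?_
    unfold dl
    split_ifs <;> ring
  rw [h3, h1]
  have := le_abs_self (specx (Xm Q α ξ) e)
  nlinarith

lemma abs_dl_le (hα0 : 0 ≤ α) (hα1 : α ≤ 1) (u : ι) : |dl α ξ u| ≤ 1 := by
  unfold dl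
  split_ifs
  · rw [abs_of_nonneg] <;> linarith
  · rw [zero_sub, abs_neg, abs_of_nonneg hα0]; exact hα1

lemma abs_specx_le (hα0 : 0 ≤ α) (hα1 : α ≤ 1) (e : ι) : |specx (Xm Q α ξ) e| ≤ 1 := by
  rw [← sum_dl_cc hQs hQ α ξ e]
  refine (Finset.abs_sum_le_sum_abs _ _).trans ?_
  refine le_trans ?_ (sum_cc_le hQs hQ α ξ e)
  refine Finset.sum_le_sum fun u _ => ?_
  rw [abs_mul, abs_of_nonneg (sq_nonneg ((Q * specU (Xm Q α ξ)) u e))]
  exact mul_le_of_le_one_left (sq_nonneg _) (abs_dl_le hQs hQ α ξ hα0 hα1 u)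

lemma diag_le_one (u : ι) : Q u u ≤ 1 := by
  have h1 : Q u u = ∑ v, Q u v ^ 2 := by
    have := congrArg (fun M => M u u) hQ
    simp only [Matrix.mul_apply] at this
    rw [← this]
    refine Finset.sum_congr rfl fun v _ => ?_
    have : Q v u = Q u v := by
      have := congrArg (fun M => M u v) hQs
      simpa using this
    rw [this, sq]
  have h2 : Q u u ^ 2 ≤ Q u u := by
    conv_rhs => rw [h1]
    exact Finset.single_le_sum (f := fun v => Q u v ^ 2) (fun _ _ => sq_nonneg _) (Finset.mem_univ u)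
  nlinarith [sq_nonneg (Q u u - 1)]

lemma Hf_le_one (hα0 : 0 ≤ α) (hα1 : α ≤ 1) (p : ℕ) (u : ι) : Hf Q (Xm Q α ξ) p u ≤ 1 := by
  have h1 : Hf Q (Xm Q α ξ) p u ≤ Hf Q (Xm Q α ξ) 0 u := by
    unfold Hf
    refine Finset.sum_le_sum fun e _ => ?_
    apply mul_le_mul_of_nonneg_right _ (sq_nonneg _)
    rw [pow_zero]
    exact pow_le_one₀ (abs_nonneg _) (abs_specx_le hQs hQ α ξ hα0 hα1 e)
  have h2 := Hf_even hQs hQ α ξ (p := 0) (by decide) u
  rw [Gm_zero] at h2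
  rw [h2] at h1
  exact h1.trans (diag_le_one hQs hQ u)

lemma sum_Hf_le (p : ℕ) : ∑ u, Hf Q (Xm Q α ξ) p u ≤ Sf (Xm Q α ξ) p := by
  unfold Hf Sf
  rw [Finset.sum_comm]
  refine Finset.sum_le_sum fun e _ => ?_
  rw [← Finset.mul_sum]
  exact mul_le_of_le_one_right (by positivity) (sum_cc_le hQs hQ α ξ e)

lemma sum_ind_Hf_le (hα0 : 0 ≤ α) (p : ℕ) : ∑ u, (if ξ u then Hf Q (Xm Q α ξ) p u else 0)
    ≤ Sf (Xm Q α ξ) (p + 1) + α * Sf (Xm Q α ξ) p := by
  have h1 : ∀ u, (if ξ u then Hf Q (Xm Q α ξ) p u else 0)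
      = ∑ e, |specx (Xm Q α ξ) e| ^ p * (if ξ u then (Q * specU (Xm Q α ξ)) u e ^ 2 else 0) := by
    intro u
    unfold Hf
    split_ifs
    · rfl
    · simp
  simp_rw [h1]
  rw [Finset.sum_comm]
  unfold Sf
  rw [Finset.mul_sum, ← Finset.sum_add_distrib]
  refine Finset.sum_le_sum fun e _ => ?_
  rw [← Finset.mul_sum]
  refine (mul_le_mul_of_nonneg_left (sum_ind_cc hQs hQ α ξ hα0 e) (by positivity)).trans (le_of_eq ?_)
  rw [pow_succ]; ring

/-- low powers including the odd ones -/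
lemma Hf_low {b B : ℝ} (hB : 0 < B) {J : ℕ} (hJ : Even J) (u : ι)
    (hgood : ∀ a ≤ J, |Gm Q α ξ a u u| ≤ b * B ^ a) : ∀ p ≤ J, Hf Q (Xm Q α ξ) p u ≤ b * B ^ p := by
  have heven : ∀ p ≤ J, Even p → Hf Q (Xm Q α ξ) p u ≤ b * B ^ p := by
    intro p hp he
    rw [Hf_even hQs hQ α ξ he]
    exact (le_abs_self _).trans (hgood p hp)
  intro p hp
  rcases Nat.even_or_odd p with he | ho
  · exact heven p hp he
  · obtain ⟨t, rfl⟩ := ho
    have hp1 : 2 * t + 2 ≤ J := by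
      obtain ⟨s, hs⟩ := hJ
      omega
    have h1 := heven (2 * t) (by omega) ⟨t, by ring⟩
    have h2 := heven (2 * t + 2) hp1 ⟨t + 1, by ring⟩
    have h3 : Hf Q (Xm Q α ξ) (2 * t + 1) u ≤ (B * Hf Q (Xm Q α ξ) (2 * t) u +
        B⁻¹ * Hf Q (Xm Q α ξ) (2 * t + 2) u) / 2 := by
      unfold Hf
      rw [Finset.mul_sum, Finset.mul_sum, ← Finset.sum_add_distrib, Finset.sum_div]
      refine Finset.sum_le_sum fun e _ => ?_
      set x := |specx (Xm Q α ξ) e|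
      have hx : 0 ≤ x := abs_nonneg _
      have h4 : x ^ (2 * t + 1) ≤ (B * x ^ (2 * t) + B⁻¹ * x ^ (2 * t + 2)) / 2 := by
        have h5 : x ≤ (B + B⁻¹ * x ^ 2) / 2 := by
          have h6 : 0 ≤ B⁻¹ * (B - x) ^ 2 := by positivity
          have h7 : B⁻¹ * (B - x) ^ 2 = B - 2 * x + B⁻¹ * x ^ 2 := by
            field_simp; ring
          linarith
        calc x ^ (2 * t + 1) = x ^ (2 * t) * x := by rw [pow_succ]
          _ ≤ x ^ (2 * t) * ((B + B⁻¹ * x ^ 2) / 2) := mul_le_mul_of_nonneg_left h5 (by positivity)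
          _ = _ := by ring
      calc x ^ (2 * t + 1) * (Q * specU (Xm Q α ξ)) u e ^ 2
          ≤ (B * x ^ (2 * t) + B⁻¹ * x ^ (2 * t + 2)) / 2 * (Q * specU (Xm Q α ξ)) u e ^ 2 :=
            mul_le_mul_of_nonneg_right h4 (sq_nonneg _)
        _ = _ := by ring
    have h8 : B * Hf Q (Xm Q α ξ) (2 * t) u ≤ B * (b * B ^ (2 * t)) := mul_le_mul_of_nonneg_left h1 hB.le
    have h9 : B⁻¹ * Hf Q (Xm Q α ξ) (2 * t + 2) u ≤ B⁻¹ * (b * B ^ (2 * t + 2)) :=
      mul_le_mul_of_nonneg_left h2 (inv_pos.2 hB).le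
    have h10 : B⁻¹ * (b * B ^ (2 * t + 2)) = b * B ^ (2 * t + 1) := by
      field_simp; ring
    have h11 : B * (b * B ^ (2 * t)) = b * B ^ (2 * t + 1) := by ring
    linarith

end fixedX

/-- rearrangement for monomials -/
lemma mono_rearr {x y : ℝ} (hx : 0 ≤ x) (hy : 0 ≤ y) {i j J : ℕ} (hi : J ≤ i) (hj : J ≤ j) :
    x ^ i * y ^ j ≤ x ^ (i + j - J) * y ^ J + x ^ J * y ^ (i + j - J) := by
  obtain ⟨s, rfl⟩ := Nat.exists_eq_add_of_le hi
  obtain ⟨t, rfl⟩ := Nat.exists_eq_add_of_le hj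
  have h0 : J + s + (J + t) - J = J + s + t := by omega
  rw [h0]
  rcases le_total y x with h | h
  · have h1 : x ^ (J + s) * y ^ (J + t) ≤ x ^ (J + s + t) * y ^ J := by
      calc x ^ (J + s) * y ^ (J + t) = (x ^ (J + s) * y ^ J) * y ^ t := by rw [pow_add y]; ring
        _ ≤ (x ^ (J + s) * y ^ J) * x ^ t :=
          mul_le_mul_of_nonneg_left (pow_le_pow_left₀ hy h t) (by positivity)
        _ = _ := by rw [pow_add x (J + s) t]; ring
    have h2 : 0 ≤ x ^ J * y ^ (J + s + t) := by positivity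
    linarith
  · have h1 : x ^ (J + s) * y ^ (J + t) ≤ x ^ J * y ^ (J + s + t) := by
      calc x ^ (J + s) * y ^ (J + t) = (x ^ J * y ^ (J + t)) * x ^ s := by rw [pow_add x]; ring
        _ ≤ (x ^ J * y ^ (J + t)) * y ^ s :=
          mul_le_mul_of_nonneg_left (pow_le_pow_left₀ hx h s) (by positivity)
        _ = _ := by
          have : J + s + t = J + t + s := by omega
          rw [this, pow_add y (J + t) s]; ring
    have h2 : 0 ≤ x ^ (J + s + t) * y ^ J := by positivity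
    linarith

lemma Hf_rearr (Q X X' : Matrix ι ι ℝ) (u : ι) {i j J : ℕ} (hi : J ≤ i) (hj : J ≤ j) :
    Hf Q X i u * Hf Q X' j u ≤ Hf Q X (i + j - J) u * Hf Q X' J u + Hf Q X J u * Hf Q X' (i + j - J) u := by
  unfold Hf
  rw [Finset.sum_mul_sum, Finset.sum_mul_sum, Finset.sum_mul_sum, ← Finset.sum_add_distrib]
  refine Finset.sum_le_sum fun e _ => ?_
  rw [← Finset.sum_add_distrib]
  refine Finset.sum_le_sum fun f _ => ?_
  have h1 := mono_rearr (abs_nonneg (specx X e)) (abs_nonneg (specx X' f)) hi hj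
  have h2 : 0 ≤ (Q * specU X) u e ^ 2 * (Q * specU X') u f ^ 2 := by positivity
  have h3 := mul_le_mul_of_nonneg_right h1 h2
  calc |specx X e| ^ i * (Q * specU X) u e ^ 2 * (|specx X' f| ^ j * (Q * specU X') u f ^ 2)
      = |specx X e| ^ i * |specx X' f| ^ j * ((Q * specU X) u e ^ 2 * (Q * specU X') u f ^ 2) := by ring
    _ ≤ _ := h3
    _ = _ := by ring

end SRHT
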