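import Pool.Agent.Lib.SRHT.Full.Basic
import Pool.Agent.Lib.Helper57.Srht.GenTransfer

/-!
# The small regime `r^10 ≤ n`, all `k ≤ n` (helper57)
-/

open Finset Matrix
open scoped BigOperators

set_option linter.unusedSectionVars false

namespace SRHT

/-- identification of `Fin (2^m)` with `(ZMod 2)^m` under which `hadamard m` is the character table. -/
lemma exists_eqvH (m : ℕ) : ∃ e : Fin (2 ^ m) ≃ Srht.G m, ∀ i j, hadamard m i j = Srht.chi (e i) (e j) := by
  induction m with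
  | zero =>
    refine ⟨{ toFun := fun _ => 0, invFun := fun _ => ⟨0, by norm_num⟩,
              left_inv := fun x => Fin.ext (by have := x.2; simp at this; omega),
              right_inv := fun x => Subsingleton.elim _ _ }, ?_⟩
    intro i j
    show (1:ℝ) = Srht.chi 0 0
    rw [Srht.chi_zero_right]
  | succ m ih =>
    obtain ⟨e, he⟩ := ih
    let f : Fin (2 ^ m) ⊕ Fin (2 ^ m) → Srht.G (m + 1) := fun s =>
      Sum.elim (fun i => Fin.cons 0 (e i)) (fun i => Fin.cons 1 (e i)) s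
    let g : Srht.G (m + 1) → Fin (2 ^ m) ⊕ Fin (2 ^ m) := fun y =>
      if y 0 = 0 then Sum.inl (e.symm (Fin.tail y)) else Sum.inr (e.symm (Fin.tail y))
    have hleft : Function.LeftInverse g f := by
      intro s
      rcases s with i | i
      · simp [f, g]
      · simp [f, g]
    have hright : Function.RightInverse g f := by
      intro y
      by_cases h : y 0 = 0
      · have : g y = Sum.inl (e.symm (Fin.tail y)) := if_pos h
        rw [this]
        simp only [f, Sum.elim_inl, Equiv.apply_symm_apply]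
        rw [← h]; exact Fin.cons_self_tail y
      · have : g y = Sum.inr (e.symm (Fin.tail y)) := if_neg h
        rw [this]
        simp only [f, Sum.elim_inr, Equiv.apply_symm_apply]
        have h1 : y 0 = 1 := (Srht.zcases (y 0)).resolve_left h
        rw [← h1]; exact Fin.cons_self_tail y
    let E' : Fin (2 ^ m) ⊕ Fin (2 ^ m) ≃ Srht.G (m + 1) :=
      { toFun := f, invFun := g, left_inv := hleft, right_inv := hright }
    have hchi : ∀ (a b : ZMod 2) (u v : Srht.G m),
        Srht.chi (Fin.cons a u : Srht.G (m + 1)) (Fin.cons b v : Srht.G (m + 1)) =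
        Srht.z2 (a * b) * Srht.chi u v := by
      intro a b u v
      unfold Srht.chi
      rw [← Srht.z2_add]
      congr 1
      unfold dotProduct
      rw [Fin.sum_univ_succ]
      simp
    refine ⟨(blockEquiv m).symm.trans E', ?_⟩
    intro i j
    have h1 : hadamard (m + 1) i j = (Matrix.fromBlocks (hadamard m) (hadamard m) (hadamard m) (-(hadamard m)))
        ((blockEquiv m).symm i) ((blockEquiv m).symm j) := rfl
    rw [h1, Equiv.trans_apply, Equiv.trans_apply]
    generalize (blockEquiv m).symm i = s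
    generalize (blockEquiv m).symm j = t
    rcases s with i | i <;> rcases t with j | j
    · show hadamard m i j = Srht.chi (Fin.cons 0 (e i) : Srht.G (m + 1)) (Fin.cons 0 (e j) : Srht.G (m + 1))
      rw [hchi, he]; simp [Srht.z2_zero]
    · show hadamard m i j = Srht.chi (Fin.cons 0 (e i) : Srht.G (m + 1)) (Fin.cons 1 (e j) : Srht.G (m + 1))
      rw [hchi, he]; simp [Srht.z2_zero]
    · show hadamard m i j = Srht.chi (Fin.cons 1 (e i) : Srht.G (m + 1)) (Fin.cons 0 (e j) : Srht.G (m + 1))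
      rw [hchi, he]; simp [Srht.z2_zero]
    · show -hadamard m i j = Srht.chi (Fin.cons 1 (e i) : Srht.G (m + 1)) (Fin.cons 1 (e j) : Srht.G (m + 1))
      rw [hchi, he]; simp [Srht.z2_one]

/-- Booleans and units of `ℤ`. -/
def bu : Bool ≃ ℤˣ where
  toFun b := if b then 1 else -1
  invFun u := decide (u = 1)
  left_inv := by intro b; cases b <;> decide
  right_inv := by
    intro u
    rcases Int.units_eq_one_or u with h | h <;> subst h <;> decide

lemma bu_val (b : Bool) : ((bu b : ℤ) : ℝ) = Srht.sg b := by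
  cases b
  · rw [Srht.sg_false]
    have : bu false = -1 := by decide
    rw [this]; norm_num
  · rw [Srht.sg_true]
    have : bu true = 1 := by decide
    rw [this]; norm_num

section conv
variable {A : Type} [Fintype A] [DecidableEq A]

/-- sign vectors -/
def buv (A : Type) : (A → Bool) ≃ (A → ℤˣ) := Equiv.arrowCongr (Equiv.refl A) bu

lemma sv_buv (d : A → Bool) (i : A) : sv (buv A d) i = Srht.sg (d i) := bu_val (d i)

lemma avg_eq_E (f : (A → ℤˣ) → ℝ) : avg f = Srht.E (fun d : A → Bool => f (buv A d)) := by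
  rw [Srht.E_equiv (buv A) f]
  rfl

lemma frac_eq_E (P : (A → ℤˣ) → Prop) : frac P = Srht.E (fun d : A → Bool => Srht.ind (P (buv A d))) := by
  unfold frac
  rw [avg_eq_E]
  rfl

lemma sum_powerset_eq (k : ℕ) (g : Finset A → ℝ) :
    ∑ T ∈ Finset.powersetCard k (Finset.univ : Finset A), g T
      = ((Fintype.card A).choose k : ℝ) * Srht.E (fun S : Srht.Sub A k => g S.1) := by
  have h1 : ∑ T ∈ Finset.powersetCard k (Finset.univ : Finset A), g T = ∑ S : Srht.Sub A k, g S.1 := by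
    apply Finset.sum_subtype
    intro T
    rw [Finset.mem_powersetCard]
    exact ⟨fun h => h.2, fun h => ⟨Finset.subset_univ _, h⟩⟩
  rw [h1]
  unfold Srht.E
  have h2 : Fintype.card (Srht.Sub A k) = (Fintype.card A).choose k := Fintype.card_finset_len k
  rw [h2]
  by_cases h3 : ((Fintype.card A).choose k : ℝ) = 0
  · have h4 : (Fintype.card A).choose k = 0 := by exact_mod_cast h3
    rw [h3, zero_mul]
    rw [← h2, Fintype.card_eq_zero_iff] at h4
    exact Finset.sum_eq_zero fun S _ => (h4.false S).elim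
  · field_simp

lemma sum_avg_frac (k : ℕ) (P : Finset A → (A → ℤˣ) → (A → ℤˣ) → Prop) :
    ∑ T ∈ Finset.powersetCard k (Finset.univ : Finset A), avg (fun d₁ => frac (P T d₁))
      = ((Fintype.card A).choose k : ℝ) * Srht.Pr (fun ω : (A → Bool) × ((A → Bool) × Srht.Sub A k) =>
        P ω.2.2.1 (buv A ω.1) (buv A ω.2.1)) := by
  rw [sum_powerset_eq]
  congr 1
  unfold Srht.Pr
  rw [Srht.E_prod]
  simp_rw [Srht.E_prod]
  simp_rw [avg_eq_E, frac_eq_E]
  rw [Srht.E_comm]
  congr 1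
  funext d1
  rw [Srht.E_comm]

end conv

lemma mv_apply {A B : Type*} [Fintype B] (M : Matrix A B ℝ) (v : B → ℝ) (s : A) :
    (M *ᵥ v) s = ∑ y, M s y * v y := rfl

/-- the sketch in the group model -/
lemma nsq_Kmat_eq {m r k : ℕ} (hk : 0 < k) (e : Fin (2 ^ m) ≃ Srht.G m)
    (he : ∀ i j, hadamard m i j = Srht.chi (e i) (e j)) (U : Matrix (Fin (2 ^ m)) (Fin r) ℝ)
    (T : Finset (Fin (2 ^ m))) (d1 d2 : Fin (2 ^ m) → Bool) (g : Fin r → ℝ) :
    nsq (Kmat (hadamard m) T k (buv _ d1) (buv _ d2) *ᵥ (U *ᵥ g)) =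
      (∑ u ∈ T, (∑ y, Srht.chi (e u) (e y) *
        (Srht.sg (d2 y) * (Srht.UofA e (fun a i => U i a) d1).mulVec g (e y))) ^ 2) / k := by
  have hk' : (0:ℝ) < k := by exact_mod_cast hk
  refine Eq.trans (congrArg nsq (Kmat_mulVec (χ := hadamard m) T (k:ℝ) (buv _ d1) (buv _ d2) (U *ᵥ g))) ?_
  unfold nsq
  have h1 : ∀ s, (Am (hadamard m) T k (yv (hadamard m) (fun j => sv (buv _ d1) j * (U *ᵥ g) j)) *ᵥ sv (buv _ d2)) s ^ 2
      = if s ∈ T then (∑ y, Srht.chi (e s) (e y) *
        (Srht.sg (d2 y) * (Srht.UofA e (fun a i => U i a) d1).mulVec g (e y))) ^ 2 / k else 0 := by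
    intro s
    by_cases hs : s ∈ T
    · rw [if_pos hs]
      have h2 : (Am (hadamard m) T k (yv (hadamard m) (fun j => sv (buv _ d1) j * (U *ᵥ g) j)) *ᵥ sv (buv _ d2)) s
          = (∑ y, Srht.chi (e s) (e y) *
        (Srht.sg (d2 y) * (Srht.UofA e (fun a i => U i a) d1).mulVec g (e y))) / Real.sqrt k := by
        rw [Finset.sum_div, mv_apply]
        apply Finset.sum_congr rfl
        intro y _
        unfold Am
        rw [if_pos hs, sv_buv, he]
        have h3 : yv (hadamard m) (fun j => sv (buv _ d1) j * (U *ᵥ g) j) y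
            = (Srht.UofA e (fun a i => U i a) d1).mulVec g (e y) := by
          unfold yv
          have hcard : (Fintype.card (Fin (2 ^ m)) : ℝ) = 2 ^ m := by simp
          rw [hcard, mv_apply]
          simp only [Srht.UofA, Matrix.of_apply]
          rw [Finset.sum_div]
          simp_rw [Finset.sum_mul]
          rw [Finset.sum_comm]
          apply Finset.sum_congr rfl
          intro z _
          rw [sv_buv, he]
          rw [mv_apply, Finset.mul_sum, Finset.mul_sum, Finset.sum_div]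
          apply Finset.sum_congr rfl
          intro a _
          ring
        rw [h3]
        ring
      rw [h2, div_pow, Real.sq_sqrt hk'.le]
    · rw [if_neg hs]
      have h2 : (Am (hadamard m) T k (yv (hadamard m) (fun j => sv (buv _ d1) j * (U *ᵥ g) j)) *ᵥ sv (buv _ d2)) s = 0 := by
        rw [mv_apply]
        apply Finset.sum_eq_zero
        intro y _
        unfold Am
        rw [if_neg hs, zero_mul]
      rw [h2]; norm_num
  simp_rw [h1]
  rw [← Finset.sum_filter]
  simp only [Finset.filter_mem_eq_inter, Finset.univ_inter]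
  rw [Finset.sum_div]

/-- transfer to the averaged failure frequency. -/
theorem avg_fail_le {m r k : ℕ} (hm : 7 ≤ m) (hk : 0 < k) (ε : ℝ)
    (Hreg : ∀ U : Matrix (Srht.G m) (Fin r) ℝ, Uᵀ * U = 1 → (∀ y, ∑ a, U y a ^ 2 ≤ Srht.lamb m r) →
      Srht.Pr (fun p : Srht.Sub (Srht.G m) k × (Srht.G m → Bool) => ¬ ∀ x : Fin r → ℝ,
        |x ⬝ᵥ (Srht.Tm U k p.1.1 p.2).mulVec x| ≤ ε * ∑ a, x a ^ 2) ≤ 9 / 1000)
    (U : Matrix (Fin (2 ^ m)) (Fin r) ℝ) (hU : Uᵀ * U = 1) :
    ∑ T ∈ Finset.powersetCard k (Finset.univ : Finset (Fin (2 ^ m))),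
        avg (fun d₁ => frac (Fail (hadamard m) U k ε T d₁)) ≤ ((2 ^ m).choose k : ℝ) * (1 / 100) := by
  obtain ⟨e, he⟩ := exists_eqvH m
  rw [sum_avg_frac, Fintype.card_fin]
  apply mul_le_mul_of_nonneg_left _ (Nat.cast_nonneg _)
  have hv : ∀ a b : Fin r, ∑ i, (fun (a : Fin r) (i : Fin (2 ^ m)) => U i a) a i *
      (fun (a : Fin r) (i : Fin (2 ^ m)) => U i a) b i = if a = b then 1 else 0 := by
    intro a b
    have h1 := congrFun (congrFun hU a) b
    rw [Matrix.mul_apply, Matrix.one_apply] at h1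
    exact h1
  refine le_trans (Srht.Pr_mono ?_) (Srht.gen_transfer hm hk ε e Hreg (fun a i => U i a) hv)
  rintro ⟨d1, d2, S⟩ ⟨g, hg⟩
  refine ⟨g, ?_⟩
  rw [nsq_Kmat_eq hk e he] at hg
  exact hg

set_option exponentiation.threshold 400 in
lemma pow_bound (l : ℕ) (hl : 300 ≤ l) : 10 ^ 62 * l ^ 10 ≤ 2 ^ l := by
  induction l, hl using Nat.le_induction with
  | base =>
    have h1 : 10 ^ 62 * 300 ^ 10 ≤ 2 ^ 150 * 2 ^ 150 := by norm_num
    rwa [← pow_add] at h1
  | succ l hl ih =>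
    have h1 : (l + 1) ^ 10 ≤ 2 * l ^ 10 := by
      have h2 : 30 * (l + 1) ≤ 31 * l := by omega
      have h3 : 30 ^ 10 * (l + 1) ^ 10 ≤ 31 ^ 10 * l ^ 10 := by
        rw [← mul_pow, ← mul_pow]; exact Nat.pow_le_pow_left h2 10
      have h4 : 31 ^ 10 * l ^ 10 ≤ 30 ^ 10 * (2 * l ^ 10) := by
        have : (31:ℕ) ^ 10 ≤ 30 ^ 10 * 2 := by norm_num
        calc 31 ^ 10 * l ^ 10 ≤ (30 ^ 10 * 2) * l ^ 10 := Nat.mul_le_mul_right _ this
          _ = _ := by ring
      exact Nat.le_of_mul_le_mul_left (h3.trans h4) (by norm_num)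
    calc 10 ^ 62 * (l + 1) ^ 10 ≤ 10 ^ 62 * (2 * l ^ 10) := Nat.mul_le_mul_left _ h1
      _ = 2 * (10 ^ 62 * l ^ 10) := by ring
      _ ≤ 2 * 2 ^ l := Nat.mul_le_mul_left _ ih
      _ = 2 ^ (l + 1) := by ring

/-- **Regime I**: `r^10 ≤ n`, all `k ≤ n`. -/
theorem regime_I {l r k : ℕ} (hl : 300 ≤ l) (ε : ℝ) (U : Matrix (Fin (2 ^ l)) (Fin r) ℝ) (hU : Uᵀ * U = 1)
    (hr : 1 ≤ r) (hrl : r ^ 10 ≤ 2 ^ l) (hkl : k ≤ 2 ^ l) (hε0 : 0 < ε) (hε1 : ε < 1)
    (hk : 12000 * (r : ℝ) ≤ k * ε ^ 2) :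
    ∑ T ∈ Finset.powersetCard k (Finset.univ : Finset (Fin (2 ^ l))),
        avg (fun d₁ => frac (Fail (hadamard l) U k ε T d₁)) ≤ ((2 ^ l).choose k : ℝ) * (1 / 100) := by
  have hr1 : (1:ℝ) ≤ r := by exact_mod_cast hr
  have hε2 : ε ^ 2 ≤ 1 := by nlinarith
  have hk0 : (0:ℝ) ≤ k := Nat.cast_nonneg k
  have hkr : 12000 * (r:ℝ) ≤ k := by nlinarith
  have hkr' : 12000 * r ≤ k := by exact_mod_cast hkr
  have hkpos : 0 < k := by omega
  have hkpos' : (0:ℝ) < k := by exact_mod_cast hkpos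
  apply avg_fail_le (by omega) hkpos ε _ U hU
  intro U' hU' hlam
  -- the parameter t
  set t := Real.sqrt (6240 * r / k) with ht
  have ht0 : 0 < t := Real.sqrt_pos.mpr (by positivity)
  have ht2 : t ^ 2 = 6240 * r / k := Real.sq_sqrt (by positivity)
  have htk : t ^ 2 * k = 6240 * r := by rw [ht2]; field_simp
  have hH : (10:ℝ) ^ 31 * r ^ 5 * l ^ 5 ≤ 2 ^ l := by
    have h1 := pow_bound l hl
    have h1' : (10:ℝ) ^ 62 * l ^ 10 ≤ 2 ^ l := by exact_mod_cast h1
    have h2' : (r:ℝ) ^ 10 ≤ 2 ^ l := by exact_mod_cast hrl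
    have h3 : ((10:ℝ) ^ 31 * r ^ 5 * l ^ 5) ^ 2 ≤ (2 ^ l) ^ 2 := by
      calc ((10:ℝ) ^ 31 * r ^ 5 * l ^ 5) ^ 2 = (10 ^ 62 * l ^ 10) * r ^ 10 := by ring
        _ ≤ 2 ^ l * 2 ^ l := mul_le_mul h1' h2' (by positivity) (by positivity)
        _ = _ := by ring
    exact le_of_sq_le_sq h3 (by positivity)
  have h1 := Srht.regS_U (m := l) (by omega) (by omega) hH U' hU' hlam hkr' hkl t ht0 htk
  have hte : 64 / 47 * t ≤ ε := by
    have h2 : (64 / 47 * t) ^ 2 ≤ ε ^ 2 := by
      rw [mul_pow, ht2]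
      have h3 : (64 / 47:ℝ) ^ 2 * (6240 * r / k) = ((64 / 47) ^ 2 * 6240 * r) / k := by ring
      rw [h3, div_le_iff₀ hkpos']
      nlinarith
    exact le_of_sq_le_sq h2 hε0.le
  refine le_trans (Srht.Pr_mono ?_) (h1.trans (by norm_num))
  intro p hp hcon
  apply hp
  intro x
  refine (hcon x).trans ?_
  apply mul_le_mul_of_nonneg_right hte
  exact Finset.sum_nonneg fun _ _ => sq_nonneg _

end SRHT
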